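import Pool.Agent.Work.MP_ead3fc_ag.Ops

/-!
# The operators on square integrable functions and the adjoint identities
-/

set_option autoImplicit false
set_option linter.unusedSectionVars false

open MeasureTheory Set Filter Topology
open scoped ENNReal Interval

namespace L2P

section

variable {E : Type} [NormedAddCommGroup E] [NormedSpace ℝ E] [FiniteDimensional ℝ E]
  [MeasurableSpace E] [BorelSpace E] {μ : Measure E} [μ.IsAddHaarMeasure]

/-- Line integral operator with a kernel. -/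
noncomputable def lin (D : Dir E) (U : Set E) (k : ℝ → ℝ → ℝ) (f : E → ℂ) : E → ℂ :=
  U.indicator fun x => ∫ σ in Ioc (-D.L) D.L, k σ (D.c x + σ) • f (x + σ • D.e)

variable {D : Dir E} {U : Set E} {k : ℝ → ℝ → ℝ} {f : E → ℂ}

lemma sm_joint (D : Dir E) (hk : Measurable (Function.uncurry k)) (hf : StronglyMeasurable f) :
    StronglyMeasurable (fun z : E × ℝ => k z.2 (D.c z.1 + z.2) • f (z.1 + z.2 • D.e)) := by
  have h1 : StronglyMeasurable (fun z : E × ℝ => k z.2 (D.c z.1 + z.2)) := by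
    have : Measurable (fun z : E × ℝ => (z.2, D.c z.1 + z.2)) :=
      measurable_snd.prodMk ((D.c.measurable.comp measurable_fst).add measurable_snd)
    exact (hk.comp this).stronglyMeasurable
  have h2 : StronglyMeasurable (fun z : E × ℝ => f (z.1 + z.2 • D.e)) := by
    refine hf.comp_measurable ?_
    exact (by fun_prop : Continuous (fun z : E × ℝ => z.1 + z.2 • D.e)).measurable
  exact h1.smul h2

lemma lin_sm (hU : MeasurableSet U) (hk : Measurable (Function.uncurry k))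
    (hf : StronglyMeasurable f) : StronglyMeasurable (lin D U k f) := by
  unfold lin
  refine StronglyMeasurable.indicator ?_ hU
  exact (sm_joint D hk hf).integral_prod_right

/-- Cauchy-Schwarz on an interval. -/
lemma cs_interval {a b : ℝ} (g : ℝ → ℝ≥0∞) (hg : AEMeasurable g (volume.restrict (Ioc a b))) :
    (∫⁻ s in Ioc a b, g s) ^ 2 ≤ ENNReal.ofReal (b - a) * ∫⁻ s in Ioc a b, g s ^ 2 := by
  have h1 := ENNReal.lintegral_mul_le_Lp_mul_Lq (volume.restrict (Ioc a b))
    (Real.HolderConjugate.two_two) hg (aemeasurable_const (b := (1 : ℝ≥0∞)))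
  have h2 : (∫⁻ s in Ioc a b, g s) ≤ (∫⁻ s in Ioc a b, g s ^ (2:ℝ)) ^ (1 / (2:ℝ)) *
      (ENNReal.ofReal (b - a)) ^ (1 / (2:ℝ)) := by
    simpa using h1
  calc (∫⁻ s in Ioc a b, g s) ^ 2
      ≤ ((∫⁻ s in Ioc a b, g s ^ (2:ℝ)) ^ (1 / (2:ℝ)) *
        (ENNReal.ofReal (b - a)) ^ (1 / (2:ℝ))) ^ 2 := by gcongr
    _ = ENNReal.ofReal (b - a) * ∫⁻ s in Ioc a b, g s ^ 2 := by
        rw [mul_pow, ← ENNReal.rpow_natCast, ← ENNReal.rpow_natCast, ← ENNReal.rpow_mul,
          ← ENNReal.rpow_mul]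
        norm_num
        rw [mul_comm]

lemma lintegral_line (μ : Measure E) [μ.IsAddHaarMeasure] (D : Dir E) {g : E → ℝ≥0∞}
    (hg : Measurable g) :
    ∫⁻ x, (∫⁻ σ in Ioc (-D.L) D.L, g (x + σ • D.e)) ∂μ =
      ENNReal.ofReal (2 * D.L) * ∫⁻ x, g x ∂μ := by
  rw [lintegral_lintegral_swap]
  · have : ∀ σ : ℝ, ∫⁻ x, g (x + σ • D.e) ∂μ = ∫⁻ x, g x ∂μ := fun σ =>
      lintegral_add_right_eq_self g _
    simp only [this]
    rw [lintegral_const, mul_comm]
    congr 1
    rw [Measure.restrict_apply_univ, Real.volume_Ioc]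
    congr 1; ring
  · apply Measurable.aemeasurable
    exact hg.comp (by fun_prop : Continuous (fun z : E × ℝ => z.1 + z.2 • D.e)).measurable

lemma lin_l2 {B : ℝ} (hB : ∀ σ t, |k σ t| ≤ B) (hf : StronglyMeasurable f)
    (hf2 : ∫⁻ x, ‖f x‖ₑ ^ 2 ∂μ < ∞) : ∫⁻ x, ‖lin D U k f x‖ₑ ^ 2 ∂μ < ∞ := by
  have hB0 : 0 ≤ B := (abs_nonneg _).trans (hB 0 0)
  have h1 : ∀ x, ‖lin D U k f x‖ₑ ^ 2 ≤ ENNReal.ofReal B ^ 2 * (ENNReal.ofReal (2 * D.L) *
      ∫⁻ σ in Ioc (-D.L) D.L, ‖f (x + σ • D.e)‖ₑ ^ 2) := by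
    intro x
    have h2 : ‖lin D U k f x‖ₑ ≤ ∫⁻ σ in Ioc (-D.L) D.L, ENNReal.ofReal B * ‖f (x + σ • D.e)‖ₑ := by
      unfold lin
      by_cases hx : x ∈ U
      · rw [indicator_of_mem hx]
        refine (enorm_integral_le_lintegral_enorm _).trans ?_
        refine lintegral_mono fun σ => ?_
        rw [enorm_smul]
        gcongr
        rw [Real.enorm_eq_ofReal_abs]
        exact ENNReal.ofReal_le_ofReal (hB _ _)
      · rw [indicator_of_notMem hx]; simp
    have hm : Measurable fun σ : ℝ => ‖f (x + σ • D.e)‖ₑ :=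
      hf.measurable.enorm.comp (by fun_prop : Continuous fun σ : ℝ => x + σ • D.e).measurable
    have h3 := cs_interval (a := -D.L) (b := D.L) (fun σ => ‖f (x + σ • D.e)‖ₑ) hm.aemeasurable
    rw [lintegral_const_mul _ hm] at h2
    calc ‖lin D U k f x‖ₑ ^ 2 ≤ (ENNReal.ofReal B *
          ∫⁻ σ in Ioc (-D.L) D.L, ‖f (x + σ • D.e)‖ₑ) ^ 2 := by gcongr
      _ ≤ _ := by
        rw [mul_pow]
        gcongr
        refine h3.trans (le_of_eq ?_)
        congr 2; ring
  have hm2 : Measurable fun x => ‖f x‖ₑ ^ 2 := hf.measurable.enorm.pow_const 2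
  refine lt_of_le_of_lt (lintegral_mono h1) ?_
  rw [lintegral_const_mul', lintegral_const_mul', lintegral_line μ D hm2]
  · exact ENNReal.mul_lt_top (ENNReal.pow_lt_top ENNReal.ofReal_lt_top)
      (ENNReal.mul_lt_top ENNReal.ofReal_lt_top (ENNReal.mul_lt_top ENNReal.ofReal_lt_top hf2))
  · exact ENNReal.ofReal_ne_top
  · exact (ENNReal.pow_lt_top ENNReal.ofReal_lt_top).ne

lemma lin_good {B : ℝ} (hU : MeasurableSet U) (hk : Measurable (Function.uncurry k))
    (hB : ∀ σ t, |k σ t| ≤ B) (hf : StronglyMeasurable f) (hf2 : ∫⁻ x, ‖f x‖ₑ ^ 2 ∂μ < ∞) :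
    Good μ U (lin D U k f) :=
  ⟨lin_sm hU hk hf, fun _ hx => indicator_of_notMem hx _, lin_l2 hB hf hf2⟩

/-- Adjoint identity. -/
lemma lin_adj {B : ℝ} (hk : Measurable (Function.uncurry k)) (hB : ∀ σ t, |k σ t| ≤ B)
    (hfm : StronglyMeasurable f) (hf : Integrable f μ) {φ : E → ℝ} (hφ : Continuous φ)
    (hφc : HasCompactSupport φ) (hφU : ∀ x, x ∉ U → φ x = 0) :
    ∫ x, φ x • lin D U k f x ∂μ =
      ∫ x, (∫ σ in Ioc (-D.L) D.L, k σ (D.c x) * φ (x - σ • D.e)) • f x ∂μ := by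
  have hB0 : 0 ≤ B := (abs_nonneg _).trans (hB 0 0)
  obtain ⟨M, hM⟩ := hφ.bounded_above_of_compact_support hφc
  have hM0 : 0 ≤ M := (norm_nonneg _).trans (hM 0)
  set ν : Measure ℝ := volume.restrict (Ioc (-D.L) D.L) with hν
  have hfin : IsFiniteMeasure ν := by rw [hν]; infer_instance
  have h1 : ∀ x, φ x • lin D U k f x =
      ∫ σ, φ x • (k σ (D.c x + σ) • f (x + σ • D.e)) ∂ν := by
    intro x
    by_cases hx : x ∈ U
    · unfold lin
      rw [indicator_of_mem hx, integral_smul]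
    · rw [hφU x hx]; simp
  -- the integrand is integrable on the product
  have hsm : StronglyMeasurable (fun z : E × ℝ =>
      φ z.1 • (k z.2 (D.c z.1 + z.2) • f (z.1 + z.2 • D.e))) :=
    (hφ.stronglyMeasurable.comp_measurable measurable_fst).smul (sm_joint D hk hfm)
  have hfn : ∀ σ : ℝ, Integrable (fun x => f (x + σ • D.e)) μ := fun σ => hf.comp_add_right _
  have hint : Integrable (fun z : E × ℝ =>
      φ z.1 • (k z.2 (D.c z.1 + z.2) • f (z.1 + z.2 • D.e))) (μ.prod ν) := by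
    refine ⟨hsm.aestronglyMeasurable, ?_⟩
    rw [hasFiniteIntegral_iff_enorm]
    have h2 : ∀ z : E × ℝ, ‖φ z.1 • (k z.2 (D.c z.1 + z.2) • f (z.1 + z.2 • D.e))‖ₑ ≤
        ENNReal.ofReal (M * B) * ‖f (z.1 + z.2 • D.e)‖ₑ := by
      intro z
      rw [enorm_smul, enorm_smul, ENNReal.ofReal_mul hM0, mul_assoc]
      gcongr
      · rw [Real.enorm_eq_ofReal_abs]
        exact ENNReal.ofReal_le_ofReal (hM _)
      · rw [Real.enorm_eq_ofReal_abs]
        exact ENNReal.ofReal_le_ofReal (hB _ _)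
    refine lt_of_le_of_lt (lintegral_mono h2) ?_
    rw [lintegral_const_mul' _ _ ENNReal.ofReal_ne_top, lintegral_prod]
    · have := lintegral_line μ D (g := fun x => ‖f x‖ₑ) hfm.measurable.enorm
      simp only [hν]
      rw [this]
      exact ENNReal.mul_lt_top ENNReal.ofReal_lt_top
        (ENNReal.mul_lt_top ENNReal.ofReal_lt_top hf.2)
    · exact (hfm.measurable.enorm.comp (by fun_prop :
        Continuous (fun z : E × ℝ => z.1 + z.2 • D.e)).measurable).aemeasurable
  simp only [h1]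
  rw [integral_integral_swap (f := fun x σ => φ x • (k σ (D.c x + σ) • f (x + σ • D.e))) hint]
  have h3 : ∀ σ : ℝ, ∫ x, φ x • (k σ (D.c x + σ) • f (x + σ • D.e)) ∂μ =
      ∫ y, (k σ (D.c y) * φ (y - σ • D.e)) • f y ∂μ := by
    intro σ
    rw [← integral_sub_right_eq_self _ (σ • D.e)]
    refine integral_congr_ae (Eventually.of_forall fun y => ?_)
    simp only [sub_add_cancel, smul_smul]
    rw [map_sub, map_smul, D.ce, smul_eq_mul, mul_one, sub_add_cancel, mul_comm]
  simp only [h3]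
  -- second swap
  have hsm2 : StronglyMeasurable (fun z : E × ℝ =>
      (k z.2 (D.c z.1) * φ (z.1 - z.2 • D.e)) • f z.1) := by
    have h4 : StronglyMeasurable (fun z : E × ℝ => k z.2 (D.c z.1)) := by
      have : Measurable (fun z : E × ℝ => (z.2, D.c z.1)) :=
        measurable_snd.prodMk (D.c.measurable.comp measurable_fst)
      exact (hk.comp this).stronglyMeasurable
    have h5 : StronglyMeasurable (fun z : E × ℝ => φ (z.1 - z.2 • D.e)) :=
      (hφ.comp (by fun_prop : Continuous (fun z : E × ℝ => z.1 - z.2 • D.e))).stronglyMeasurable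
    exact (h4.mul h5).smul (hfm.comp_measurable measurable_fst)
  have hint2 : Integrable (fun z : E × ℝ =>
      (k z.2 (D.c z.1) * φ (z.1 - z.2 • D.e)) • f z.1) (μ.prod ν) := by
    have h4 : Integrable (fun z : E × ℝ => f z.1) (μ.prod ν) := hf.comp_fst ν
    refine Integrable.mono' (h4.norm.const_mul (B * M)) hsm2.aestronglyMeasurable
      (Eventually.of_forall fun z => ?_)
    rw [norm_smul, norm_mul]
    have h5 := hB z.2 (D.c z.1)
    have h6 := hM (z.1 - z.2 • D.e)
    rw [Real.norm_eq_abs]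
    gcongr
  rw [← integral_integral_swap (f := fun y σ => (k σ (D.c y) * φ (y - σ • D.e)) • f y) hint2]
  refine integral_congr_ae (Eventually.of_forall fun y => ?_)
  simp only
  rw [integral_smul_const]

end

end L2P
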