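import Pool.Agent.Work.MP_ead3fc_ag.Defs

/-!
# MP_ead3fc_ag: coefficients of alternating forms

Proof of `S_ALT`.
-/

set_option autoImplicit false

open MeasureTheory Set Filter Topology
open scoped ENNReal

namespace L2P

section

variable {d : ℕ}

theorem orderEmb_erase {q : ℕ} {J : Finset (Fin d)} (h : J.card = q + 1) (i : Fin (q + 1))
    (h' : (J.erase (J.orderEmbOfFin h i)).card = q) (x : Fin q) :
    (J.erase (J.orderEmbOfFin h i)).orderEmbOfFin h' x =
      J.orderEmbOfFin h (i.succAbove x) := by
  have h1 : (fun x => J.orderEmbOfFin h (i.succAbove x)) =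
      (J.erase (J.orderEmbOfFin h i)).orderEmbOfFin h' := by
    refine Finset.orderEmbOfFin_unique h' (fun x => ?_) ?_
    · refine Finset.mem_erase.2 ⟨fun hx => ?_, Finset.orderEmbOfFin_mem _ _ _⟩
      exact Fin.succAbove_ne i x ((J.orderEmbOfFin h).injective hx)
    · exact (J.orderEmbOfFin h).strictMono.comp (Fin.strictMono_succAbove i)
  exact (congrFun h1 x).symm

theorem card_filter_lt {q : ℕ} {J : Finset (Fin d)} (h : J.card = q) (i : Fin q) :
    (J.filter (· < J.orderEmbOfFin h i)).card = i := by
  have h1 : J.filter (· < J.orderEmbOfFin h i) =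
      (Finset.univ.filter (· < i)).map (J.orderEmbOfFin h).toEmbedding := by
    ext x
    simp only [Finset.mem_filter, Finset.mem_map, Finset.mem_univ, true_and,
      RelEmbedding.coe_toEmbedding]
    constructor
    · rintro ⟨hx, hxi⟩
      have hx' : x ∈ Set.range (J.orderEmbOfFin h) := by
        rw [Finset.range_orderEmbOfFin]; exact hx
      obtain ⟨k, rfl⟩ := hx'
      exact ⟨k, (J.orderEmbOfFin h).lt_iff_lt.1 hxi, rfl⟩
    · rintro ⟨k, hk, rfl⟩
      exact ⟨Finset.orderEmbOfFin_mem _ _ _, (J.orderEmbOfFin h).lt_iff_lt.2 hk⟩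
  rw [h1, Finset.card_map]
  have : (Finset.univ.filter (· < i)) = Finset.Iio i := by ext; simp
  rw [this, Fin.card_Iio]

theorem sg_orderEmb {q : ℕ} {J : Finset (Fin d)} (h : J.card = q) (i : Fin q) :
    sg (J.orderEmbOfFin h i) J = (-1) ^ (i : ℕ) := by
  unfold sg
  rw [card_filter_lt h i]

/-- A sum over a finite set as a sum over `Fin`. -/
theorem sum_orderEmb {M : Type*} [AddCommMonoid M] {q : ℕ} {J : Finset (Fin d)} (h : J.card = q)
    (f : Fin d → M) : ∑ j ∈ J, f j = ∑ i : Fin q, f (J.orderEmbOfFin h i) := by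
  have h1 : ∑ j ∈ Finset.univ.map (J.orderEmbOfFin h).toEmbedding, f j =
      ∑ i : Fin q, f (J.orderEmbOfFin h i) := by
    rw [Finset.sum_map]
    rfl
  rwa [J.map_orderEmbOfFin_univ h] at h1

/-- Injective enumerations are the increasing one up to a permutation. -/
theorem exists_perm_orderEmb {q : ℕ} (v : Fin q → Fin d) (hv : Function.Injective v) :
    ∃ (J : Finset (Fin d)) (h : J.card = q) (σ : Equiv.Perm (Fin q)),
      ∀ i, v i = J.orderEmbOfFin h (σ i) := by
  have hc : (Finset.univ.map ⟨v, hv⟩).card = q := by simp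
  refine ⟨Finset.univ.map ⟨v, hv⟩, hc, ?_⟩
  have hmem : ∀ i, v i ∈ Finset.univ.map ⟨v, hv⟩ := fun i => by simp
  set g : Fin q → Fin q := fun i =>
    ((Finset.univ.map ⟨v, hv⟩).orderIsoOfFin hc).symm ⟨v i, hmem i⟩ with hg
  have hgi : Function.Injective g := by
    intro i j hij
    have h1 := ((Finset.univ.map ⟨v, hv⟩).orderIsoOfFin hc).symm.injective hij
    exact hv (by simpa using congrArg Subtype.val h1)
  refine ⟨Equiv.ofBijective g (Finite.injective_iff_bijective.1 hgi), fun i => ?_⟩
  have h2 : ((Finset.univ.map ⟨v, hv⟩).orderIsoOfFin hc) (g i) = ⟨v i, hmem i⟩ := by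
    rw [hg]
    exact OrderIso.apply_symm_apply _ _
  have h3 := congrArg Subtype.val h2
  rw [Finset.coe_orderIsoOfFin_apply] at h3
  exact h3.symm

end

section

variable {E : Type*} [NormedAddCommGroup E] [NormedSpace ℝ E] [FiniteDimensional ℝ E] {d q : ℕ}

/-- The elementary alternating form with index `J`. -/
noncomputable def elem (b : Module.Basis (Fin d) ℝ E) (J : Finset (Fin d)) (h : J.card = q) :
    E [⋀^Fin q]→L[ℝ] ℝ :=
  ContinuousMultilinearMap.alternatization
    ((ContinuousMultilinearMap.mkPiAlgebra ℝ (Fin q) ℝ).compContinuousLinearMap fun i =>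
      LinearMap.toContinuousLinearMap (b.coord (J.orderEmbOfFin h i)))

theorem elem_apply (b : Module.Basis (Fin d) ℝ E) (J : Finset (Fin d)) (h : J.card = q)
    (v : Fin q → E) : elem b J h v =
      ∑ σ : Equiv.Perm (Fin q), Equiv.Perm.sign σ •
        ∏ i, b.repr (v (σ i)) (J.orderEmbOfFin h i) := by
  unfold elem
  rw [ContinuousMultilinearMap.alternatization_apply_apply]
  rfl

theorem elem_basis (b : Module.Basis (Fin d) ℝ E) (J J' : Finset (Fin d)) (h : J.card = q)
    (h' : J'.card = q) :
    elem b J h (fun i => b (J'.orderEmbOfFin h' i)) = if J = J' then 1 else 0 := by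
  rw [elem_apply]
  have hrep : ∀ (σ : Equiv.Perm (Fin q)) (i : Fin q),
      b.repr (b (J'.orderEmbOfFin h' (σ i))) (J.orderEmbOfFin h i) =
        if J'.orderEmbOfFin h' (σ i) = J.orderEmbOfFin h i then 1 else 0 := by
    intro σ i
    rw [b.repr_self, Finsupp.single_apply]
  split_ifs with hJ
  · subst hJ
    rw [Finset.sum_eq_single 1]
    · simp only [Equiv.Perm.sign_one, one_smul]
      refine Finset.prod_eq_one fun i _ => ?_
      rw [hrep]
      simp
    · intro σ _ hσ
      have : ∃ i, σ i ≠ i := by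
        by_contra hcon
        push Not at hcon
        exact hσ (Equiv.ext hcon)
      obtain ⟨i, hi⟩ := this
      rw [Finset.prod_eq_zero (Finset.mem_univ i), smul_zero]
      rw [hrep, if_neg]
      intro hh
      exact hi ((J.orderEmbOfFin h).injective hh)
    · intro h1
      exact absurd (Finset.mem_univ _) h1
  · refine Finset.sum_eq_zero fun σ _ => ?_
    have : ∃ i, J'.orderEmbOfFin h' (σ i) ≠ J.orderEmbOfFin h i := by
      by_contra hcon
      push Not at hcon
      apply hJ
      refine Finset.eq_of_subset_of_card_le (fun x hx => ?_) (by rw [h, h'])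
      have hx' : x ∈ Set.range (J.orderEmbOfFin h) := by
        rw [Finset.range_orderEmbOfFin]; exact hx
      obtain ⟨i, rfl⟩ := hx'
      rw [← hcon i]
      exact Finset.orderEmbOfFin_mem _ _ _
    obtain ⟨i, hi⟩ := this
    rw [Finset.prod_eq_zero (Finset.mem_univ i), smul_zero]
    rw [hrep, if_neg hi]

/-- The alternating form with given coefficients. -/
noncomputable def mkForm (b : Module.Basis (Fin d) ℝ E) (q : ℕ) (k : Finset (Fin d) → ℂ) :
    E [⋀^Fin q]→L[ℝ] ℂ :=
  ∑ J : Finset (Fin d), if h : J.card = q then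
    (ContinuousLinearMap.toSpanSingleton ℝ (k J)).compContinuousAlternatingMap (elem b J h) else 0

theorem mkForm_apply (b : Module.Basis (Fin d) ℝ E) (q : ℕ) (k : Finset (Fin d) → ℂ)
    (v : Fin q → E) : mkForm b q k v =
      ∑ J : Finset (Fin d), if h : J.card = q then elem b J h v • k J else 0 := by
  unfold mkForm
  rw [ContinuousAlternatingMap.sum_apply]
  refine Finset.sum_congr rfl fun J _ => ?_
  split_ifs with h
  · simp
  · rfl

theorem coef_mkForm (b : Module.Basis (Fin d) ℝ E) (q : ℕ) (k : Finset (Fin d) → ℂ)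
    (J : Finset (Fin d)) (hJ : J.card = q) : coef b (mkForm b q k) J = k J := by
  unfold coef
  rw [dif_pos hJ, mkForm_apply, Finset.sum_eq_single J]
  · rw [dif_pos hJ, elem_basis, if_pos rfl, one_smul]
  · intro J' _ hJ'
    split_ifs with h
    · rw [elem_basis, if_neg hJ', zero_smul]
    · rfl
  · intro h1
    exact absurd (Finset.mem_univ _) h1

theorem norm_mkForm_le (b : Module.Basis (Fin d) ℝ E) (q : ℕ) (k : Finset (Fin d) → ℂ)
    (v : Fin q → E) : ‖mkForm b q k v‖ ≤
      ∑ J : Finset (Fin d), if h : J.card = q then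
        ∑ σ : Equiv.Perm (Fin q), ‖k J‖ * ∏ i, |b.repr (v (σ i)) (J.orderEmbOfFin h i)| else 0 := by
  rw [mkForm_apply]
  refine (norm_sum_le _ _).trans (Finset.sum_le_sum fun J _ => ?_)
  split_ifs with h
  · rw [norm_smul, elem_apply, ← Finset.mul_sum, mul_comm]
    gcongr
    refine (norm_sum_le _ _).trans (Finset.sum_le_sum fun σ _ => ?_)
    rw [← Finset.abs_prod, ← Real.norm_eq_abs]
    rcases Int.units_eq_one_or (Equiv.Perm.sign σ) with h1 | h1 <;> rw [h1] <;> simp
  · simp

/-- ALT. -/
theorem alt : S_ALT := by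
  intro E _ _ _ d q b
  refine ⟨fun l w J hJ => ?_, fun w w' hww => ?_, ?_⟩
  · rw [sum_orderEmb hJ]
    unfold coef
    rw [dif_pos hJ, ContinuousAlternatingMap.alternatizeUncurryFin_apply]
    refine Finset.sum_congr rfl fun i _ => ?_
    have hc : (J.erase (J.orderEmbOfFin hJ i)).card = q := by
      rw [Finset.card_erase_of_mem (Finset.orderEmbOfFin_mem _ _ _), hJ]
      rfl
    rw [dif_pos hc, sg_orderEmb hJ i]
    have h1 : (i.removeNth fun x => b (J.orderEmbOfFin hJ x)) =
        fun x => b ((J.erase (J.orderEmbOfFin hJ i)).orderEmbOfFin hc x) := by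
      funext x
      rw [orderEmb_erase hJ i hc x]
      rfl
    rw [h1, ContinuousLinearMap.smulRight_apply, ContinuousAlternatingMap.smul_apply, mul_smul]
    rcases Nat.even_or_odd (i : ℕ) with he | ho
    · rw [he.neg_one_pow, he.neg_one_pow]; simp
    · rw [ho.neg_one_pow, ho.neg_one_pow]; simp
  · apply ContinuousAlternatingMap.toAlternatingMap_injective
    refine Module.Basis.ext_alternating b fun v hv => ?_
    obtain ⟨J, hJ, σ, hσ⟩ := exists_perm_orderEmb v hv
    have h1 : (fun i => b (v i)) = (fun i => b (J.orderEmbOfFin hJ i)) ∘ σ := by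
      funext i
      simp [hσ]
    rw [h1, AlternatingMap.map_perm, AlternatingMap.map_perm]
    congr 1
    have h2 := hww J
    unfold coef at h2
    rw [dif_pos hJ, dif_pos hJ] at h2
    exact h2
  · refine ⟨LinearMap.toContinuousLinearMap
      { toFun := mkForm b q
        map_add' := fun k k' => ?_
        map_smul' := fun c k => ?_ }, fun k J hJ => ?_, fun k v => ?_⟩
    · ext v
      rw [ContinuousAlternatingMap.add_apply, mkForm_apply, mkForm_apply, mkForm_apply,
        ← Finset.sum_add_distrib]
      refine Finset.sum_congr rfl fun J _ => ?_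
      split_ifs with h
      · simp
      · simp
    · ext v
      rw [ContinuousAlternatingMap.smul_apply, mkForm_apply, mkForm_apply, Finset.smul_sum]
      refine Finset.sum_congr rfl fun J _ => ?_
      split_ifs with h
      · simp only [Pi.smul_apply, RingHom.id_apply, smul_comm c]
      · simp
    · exact coef_mkForm b q k J hJ
    · exact norm_mkForm_le b q k v

end

end L2P
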