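import Pool.Agent.Work.MP_ead3fc_ag.Defs

/-!
# Averages along a direction
-/

set_option autoImplicit false
set_option linter.unusedSectionVars false

open MeasureTheory Set Filter Topology
open scoped ENNReal Interval

namespace L2P

/-- `x ↦ ∫_a^b φ (x + s e) ds`. -/
noncomputable def avg {E F : Type*} [NormedAddCommGroup E] [NormedSpace ℝ E]
    [NormedAddCommGroup F] [NormedSpace ℝ F] (a b : ℝ) (e : E) (φ : E → F) (x : E) : F :=
  ∫ s in a..b, φ (x + s • e)

section

variable {E F : Type} [NormedAddCommGroup E] [NormedSpace ℝ E] [FiniteDimensional ℝ E]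
  [NormedAddCommGroup F] [NormedSpace ℝ F]

lemma avg_continuous (a b : ℝ) (e : E) {φ : E → F} (h : Continuous φ) :
    Continuous (avg a b e φ) := by
  unfold avg
  apply intervalIntegral.continuous_parametric_intervalIntegral_of_continuous'
  exact h.comp (by fun_prop)

lemma avg_hasFDerivAt [CompleteSpace F] (a b : ℝ) (e : E) {φ : E → F} (h : ContDiff ℝ 1 φ)
    (x : E) : HasFDerivAt (avg a b e φ) (avg a b e (fderiv ℝ φ) x) x := by
  have : ProperSpace E := FiniteDimensional.proper_real E
  have hc : Continuous φ := h.continuous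
  have hc' : Continuous (fderiv ℝ φ) := h.continuous_fderiv one_ne_zero
  have hd : Differentiable ℝ φ := h.differentiable one_ne_zero
  -- local bound
  have hK : IsCompact ((fun p : E × ℝ => p.1 + p.2 • e) '' (Metric.closedBall x 1 ×ˢ [[a, b]])) :=
    ((isCompact_closedBall x 1).prod isCompact_uIcc).image (by fun_prop)
  obtain ⟨C, hC⟩ := hK.exists_bound_of_continuousOn hc'.continuousOn
  refine intervalIntegral.hasFDerivAt_integral_of_dominated_of_fderiv_le
    (s := Metric.closedBall x 1) (bound := fun _ => C)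
    (F' := fun y s => fderiv ℝ φ (y + s • e)) (Metric.closedBall_mem_nhds x one_pos) ?_ ?_ ?_ ?_ ?_ ?_
  · exact Eventually.of_forall fun y => (hc.comp (by fun_prop)).aestronglyMeasurable
  · exact (hc.comp (by fun_prop)).intervalIntegrable _ _
  · exact (hc'.comp (by fun_prop)).aestronglyMeasurable
  · refine Eventually.of_forall fun s hs y hy => hC _ ⟨(y, s), ⟨hy, uIoc_subset_uIcc hs⟩, rfl⟩
  · exact intervalIntegrable_const
  · refine Eventually.of_forall fun s _ y _ => ?_
    have h1 : HasFDerivAt φ (fderiv ℝ φ (y + s • e)) (y + s • e) := (hd _).hasFDerivAt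
    exact (hasFDerivAt_comp_add_right (s • e)).2 h1

end

lemma avg_contDiff_nat {E : Type} [NormedAddCommGroup E] [NormedSpace ℝ E]
    [FiniteDimensional ℝ E] (a b : ℝ) (e : E) (n : ℕ) :
    ∀ (F : Type) [NormedAddCommGroup F] [NormedSpace ℝ F] [CompleteSpace F] (φ : E → F),
      ContDiff ℝ n φ → ContDiff ℝ n (avg a b e φ) := by
  induction n with
  | zero =>
    intro F _ _ _ φ h
    rw [Nat.cast_zero, contDiff_zero] at h ⊢
    exact avg_continuous a b e h
  | succ n ih =>
    intro F _ _ _ φ h
    have h1 : ContDiff ℝ 1 φ := h.of_le (by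
      rw [Nat.cast_add, Nat.cast_one]
      exact le_add_self)
    rw [Nat.cast_add, Nat.cast_one, contDiff_succ_iff_fderiv] at h ⊢
    refine ⟨fun x => (avg_hasFDerivAt a b e h1 x).differentiableAt, fun hω => ?_, ?_⟩
    · exact absurd hω (by simp)
    · have h2 : fderiv ℝ (avg a b e φ) = avg a b e (fderiv ℝ φ) := by
        funext x
        exact (avg_hasFDerivAt a b e h1 x).fderiv
      rw [h2]
      exact ih _ _ h.2.2

section

variable {E F : Type} [NormedAddCommGroup E] [NormedSpace ℝ E] [FiniteDimensional ℝ E]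
  [NormedAddCommGroup F] [NormedSpace ℝ F] [CompleteSpace F]

lemma avg_contDiff (a b : ℝ) (e : E) {φ : E → F}
    (h : ContDiff ℝ ((⊤ : ℕ∞) : WithTop ℕ∞) φ) :
    ContDiff ℝ ((⊤ : ℕ∞) : WithTop ℕ∞) (avg a b e φ) := by
  rw [contDiff_infty] at h ⊢
  exact fun n => avg_contDiff_nat a b e n F φ (h n)

lemma avg_fderiv (a b : ℝ) (e : E) {φ : E → F} (h : ContDiff ℝ ((⊤ : ℕ∞) : WithTop ℕ∞) φ)
    (x : E) (v : E) : fderiv ℝ (avg a b e φ) x v = avg a b e (fun y => fderiv ℝ φ y v) x := by
  have h1 : ContDiff ℝ 1 φ := h.of_le (by exact_mod_cast le_top)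
  rw [(avg_hasFDerivAt a b e h1 x).fderiv]
  unfold avg
  have hc' : Continuous (fderiv ℝ φ) := h1.continuous_fderiv one_ne_zero
  have := ContinuousLinearMap.intervalIntegral_comp_comm
    (ContinuousLinearMap.apply ℝ F v) (a := a) (b := b) (μ := volume)
    (f := fun s => fderiv ℝ φ (x + s • e))
    ((hc'.comp (by fun_prop : Continuous fun s : ℝ => x + s • e)).intervalIntegrable _ _)
  simpa using this.symm

/-- Fundamental theorem of calculus in the direction `e`. -/
lemma avg_dir (a b : ℝ) (e : E) {φ : E → F} (h : ContDiff ℝ ((⊤ : ℕ∞) : WithTop ℕ∞) φ)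
    (x : E) : avg a b e (fun y => fderiv ℝ φ y e) x = φ (x + b • e) - φ (x + a • e) := by
  have h1 : ContDiff ℝ 1 φ := h.of_le (by exact_mod_cast le_top)
  have hc' : Continuous (fderiv ℝ φ) := h1.continuous_fderiv one_ne_zero
  have hd : Differentiable ℝ φ := h1.differentiable one_ne_zero
  unfold avg
  refine intervalIntegral.integral_eq_sub_of_hasDerivAt (f := fun s => φ (x + s • e))
    (fun s _ => ?_) ?_
  · have h2 : HasDerivAt (fun s : ℝ => x + s • e) e s := by
      simpa using ((hasDerivAt_id s).smul_const e).const_add x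
    exact ((hd _).hasFDerivAt).comp_hasDerivAt s h2
  · apply Continuous.intervalIntegrable
    exact (hc'.comp (by fun_prop)).clm_apply continuous_const

end

end L2P
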