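import Pool.Agent.Work.MP_ead3fc_ag.Defs
import Pool.Agent.Work.MP_0e9e72_an.SCVA

/-!
# MP_ead3fc_ag, module CAP: zero sets of holomorphic functions have capacity zero
-/

set_option autoImplicit false

open MeasureTheory Set Filter Topology
open scoped ENNReal

namespace L2P.CapAux

/-! ### One variable -/

/-- The first primitive of `S'²`, `S` the smooth transition function. -/
noncomputable def K1 (t : ℝ) : ℝ := ∫ s in (0 : ℝ)..t, (deriv Real.smoothTransition s) ^ 2

/-- The second primitive. -/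
noncomputable def J1 (t : ℝ) : ℝ := ∫ s in (0 : ℝ)..t, K1 s

/-- `t ↦ P (2 + log t / N)`, extended by zero. -/
noncomputable def lg (P : ℝ → ℝ) (N : ℝ) (t : ℝ) : ℝ :=
  if t ≤ 0 then 0 else P (2 + Real.log t / N)

theorem contDiff_S : ContDiff ℝ ((⊤ : ℕ∞) : WithTop ℕ∞) Real.smoothTransition :=
  Real.smoothTransition.contDiff

theorem contDiff_dS : ContDiff ℝ ((⊤ : ℕ∞) : WithTop ℕ∞) (deriv Real.smoothTransition) := by
  have h := contDiff_S
  rw [contDiff_infty_iff_deriv] at h
  exact h.2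

theorem dS_zero {t : ℝ} (ht : t ≤ 0) : deriv Real.smoothTransition t = 0 := by
  have h1 : ∀ s < (0 : ℝ), deriv Real.smoothTransition s = 0 := by
    intro s hs
    have : Real.smoothTransition =ᶠ[𝓝 s] fun _ => 0 := by
      filter_upwards [Iio_mem_nhds hs] with u hu
      exact Real.smoothTransition.zero_of_nonpos (le_of_lt hu)
    rw [this.deriv_eq]
    simp
  rcases lt_or_eq_of_le ht with h | h
  · exact h1 t h
  · subst h
    have hc : ContinuousWithinAt (deriv Real.smoothTransition) (Iio 0) 0 :=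
      contDiff_dS.continuous.continuousWithinAt
    have h2 : Tendsto (deriv Real.smoothTransition) (𝓝[<] 0) (𝓝 0) := by
      refine (tendsto_const_nhds (x := (0 : ℝ))).congr' ?_
      filter_upwards [self_mem_nhdsWithin] with u hu
      exact (h1 u hu).symm
    exact tendsto_nhds_unique hc h2

theorem contDiff_dS2 : ContDiff ℝ ((⊤ : ℕ∞) : WithTop ℕ∞)
    (fun t => (deriv Real.smoothTransition t) ^ 2) := contDiff_dS.pow 2

theorem hasDerivAt_K1 (t : ℝ) : HasDerivAt K1 ((deriv Real.smoothTransition t) ^ 2) t := by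
  have hc := contDiff_dS2.continuous
  exact intervalIntegral.integral_hasDerivAt_right (hc.intervalIntegrable _ _)
    hc.aestronglyMeasurable.stronglyMeasurableAtFilter hc.continuousAt

theorem continuous_K1 : Continuous K1 :=
  continuous_iff_continuousAt.2 fun t => (hasDerivAt_K1 t).continuousAt

theorem hasDerivAt_J1 (t : ℝ) : HasDerivAt J1 (K1 t) t := by
  have hc := continuous_K1
  exact intervalIntegral.integral_hasDerivAt_right (hc.intervalIntegrable _ _)
    hc.aestronglyMeasurable.stronglyMeasurableAtFilter hc.continuousAt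

theorem K1_zero {t : ℝ} (ht : t ≤ 0) : K1 t = 0 := by
  unfold K1
  rw [intervalIntegral.integral_symm, intervalIntegral.integral_congr (g := fun _ => (0 : ℝ))]
  · simp
  · intro s hs
    rw [uIcc_of_le ht] at hs
    simp [dS_zero hs.2]

theorem K1_nonneg (t : ℝ) : 0 ≤ K1 t := by
  rcases le_total t 0 with h | h
  · rw [K1_zero h]
  · exact intervalIntegral.integral_nonneg h fun s _ => sq_nonneg _

theorem J1_zero {t : ℝ} (ht : t ≤ 0) : J1 t = 0 := by
  unfold J1
  rw [intervalIntegral.integral_symm, intervalIntegral.integral_congr (g := fun _ => (0 : ℝ))]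
  · simp
  · intro s hs
    rw [uIcc_of_le ht] at hs
    simp [K1_zero hs.2]

theorem J1_mono : Monotone J1 :=
  monotone_of_deriv_nonneg (fun t => (hasDerivAt_J1 t).differentiableAt)
    fun t => by rw [(hasDerivAt_J1 t).deriv]; exact K1_nonneg t

theorem contDiff_J1 : ContDiff ℝ 2 J1 := by
  have hJ : deriv J1 = K1 := funext fun t => (hasDerivAt_J1 t).deriv
  have hK : deriv K1 = fun t => (deriv Real.smoothTransition t) ^ 2 :=
    funext fun t => (hasDerivAt_K1 t).deriv
  have h1 : ContDiff ℝ 1 K1 := by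
    rw [contDiff_one_iff_deriv, hK]
    exact ⟨fun t => (hasDerivAt_K1 t).differentiableAt, contDiff_dS2.continuous⟩
  rw [show (2 : WithTop ℕ∞) = 1 + 1 by norm_num, contDiff_succ_iff_deriv, hJ]
  exact ⟨fun t => (hasDerivAt_J1 t).differentiableAt, by simp, h1⟩

theorem lg_eventually_zero {P : ℝ → ℝ} (hP : ∀ t ≤ 0, P t = 0) {N : ℝ} (hN : 0 < N) {t : ℝ}
    (ht : t ≤ 0) : lg P N =ᶠ[𝓝 t] fun _ => 0 := by
  have h0 : t < Real.exp (-(2 * N)) := lt_of_le_of_lt ht (Real.exp_pos _)
  filter_upwards [Iio_mem_nhds h0] with u hu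
  unfold lg
  split_ifs with h
  · rfl
  · apply hP
    push Not at h
    have h1 : Real.log u < -(2 * N) := by
      rw [Real.log_lt_iff_lt_exp h]
      exact hu
    have h2 : Real.log u / N < -2 := by
      rw [div_lt_iff₀ hN]
      linarith
    linarith

theorem lg_eventually {P : ℝ → ℝ} {N : ℝ} {t : ℝ} (ht : 0 < t) :
    lg P N =ᶠ[𝓝 t] fun u => P (2 + Real.log u / N) := by
  filter_upwards [Ioi_mem_nhds ht] with u hu
  unfold lg
  rw [if_neg (not_le.2 hu)]

theorem contDiff_lg {n : WithTop ℕ∞} {P : ℝ → ℝ} (hc : ContDiff ℝ n P) (hP : ∀ t ≤ 0, P t = 0)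
    {N : ℝ} (hN : 0 < N) : ContDiff ℝ n (lg P N) := by
  rw [contDiff_iff_contDiffAt]
  intro t
  rcases le_or_gt t 0 with ht | ht
  · exact contDiffAt_const.congr_of_eventuallyEq (lg_eventually_zero hP hN ht)
  · refine ContDiffAt.congr_of_eventuallyEq ?_ (lg_eventually ht)
    refine hc.contDiffAt.comp t ?_
    exact contDiffAt_const.add ((Real.contDiffAt_log.2 ht.ne').div_const N)

theorem hasDerivAt_lg {P : ℝ → ℝ} {N : ℝ} {t p : ℝ} (ht : 0 < t)
    (hp : HasDerivAt P p (2 + Real.log t / N)) : HasDerivAt (lg P N) (p * (t⁻¹ / N)) t := by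
  refine HasDerivAt.congr_of_eventuallyEq ?_ (lg_eventually ht)
  exact hp.comp t (((Real.hasDerivAt_log ht.ne').div_const N).const_add 2)

/-- The ordinary differential equation satisfied by the potential of the cut-off. -/
theorem lg_ode {N : ℝ} (hN : 0 < N) {t : ℝ} (ht : 0 ≤ t) :
    t * deriv (deriv (lg J1 N)) t + deriv (lg J1 N) t =
      t * (deriv (lg Real.smoothTransition N) t) ^ 2 := by
  rcases eq_or_lt_of_le ht with h | h
  · subst h
    have h1 := lg_eventually_zero (P := J1) (fun t ht => J1_zero ht) hN le_rfl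
    rw [h1.deriv_eq]
    simp
  · have h1 : deriv (lg J1 N) =ᶠ[𝓝 t] fun u => K1 (2 + Real.log u / N) * (u⁻¹ / N) := by
      filter_upwards [Ioi_mem_nhds h] with u hu
      exact (hasDerivAt_lg hu (hasDerivAt_J1 _)).deriv
    have h2 : HasDerivAt (fun u : ℝ => K1 (2 + Real.log u / N) * (u⁻¹ / N))
        ((deriv Real.smoothTransition (2 + Real.log t / N)) ^ 2 * (t⁻¹ / N) * (t⁻¹ / N) +
          K1 (2 + Real.log t / N) * (-(t ^ 2)⁻¹ / N)) t := by
      refine HasDerivAt.mul ?_ ?_
      · exact (hasDerivAt_K1 _).comp t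
          (((Real.hasDerivAt_log h.ne').div_const N).const_add 2)
      · exact (hasDerivAt_inv h.ne').div_const N
    rw [h1.deriv_eq, h2.deriv, h1.eq_of_nhds,
      (hasDerivAt_lg h (Real.smoothTransition.contDiff (n := 1) |>.differentiable
        (by simp) _).hasDerivAt).deriv]
    field_simp
    ring

/-! ### Composition with the square of the modulus of a holomorphic function -/

section

variable {E : Type*} [NormedAddCommGroup E] [NormedSpace ℂ E] [FiniteDimensional ℂ E]

theorem contDiffAt_nsq {W : Set E} (hW : IsOpen W) {h : E → ℂ} (hh : DifferentiableOn ℂ h W)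
    {x : E} (hx : x ∈ W) : ContDiffAt ℝ ((⊤ : ℕ∞) : WithTop ℕ∞) (fun y => ‖h y‖ ^ 2) x :=
  ContDiffAt.norm_sq ℝ ((SCV.contDiffAt_of_differentiableOn hW hh hx (n := ⊤)).restrict_scalars ℝ)

omit [FiniteDimensional ℂ E] in
theorem fderiv_nsq {h : E → ℂ} {x : E} (hh : DifferentiableAt ℂ h x) (v : E) :
    fderiv ℝ (fun y => ‖h y‖ ^ 2) x v = 2 * inner ℝ (h x) (fderiv ℂ h x v) := by
  have h1 := (hh.hasFDerivAt.restrictScalars ℝ).norm_sq
  rw [h1.fderiv]
  simp
  ring

theorem fderiv_comp_nsq {W : Set E} (hW : IsOpen W) {h : E → ℂ} (hh : DifferentiableOn ℂ h W)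
    {g : ℝ → ℝ} (hg : Differentiable ℝ g) {x : E} (hx : x ∈ W) (v : E) :
    fderiv ℝ (fun y => g (‖h y‖ ^ 2)) x v =
      deriv g (‖h x‖ ^ 2) * (2 * inner ℝ (h x) (fderiv ℂ h x v)) := by
  have hd : DifferentiableAt ℂ h x := (hh x hx).differentiableAt (hW.mem_nhds hx)
  have h1 : HasFDerivAt (fun y => ‖h y‖ ^ 2) (fderiv ℝ (fun y => ‖h y‖ ^ 2) x) x :=
    ((contDiffAt_nsq hW hh hx).differentiableAt (by simp)).hasFDerivAt
  have h2 := (hg (‖h x‖ ^ 2)).hasDerivAt.comp_hasFDerivAt x h1
  have h3 : (g ∘ fun y => ‖h y‖ ^ 2) = fun y => g (‖h y‖ ^ 2) := rfl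
  rw [h3] at h2
  rw [h2.fderiv]
  simp only [smul_apply, smul_eq_mul, fderiv_nsq hd]

/-- Second derivative in a direction. -/
theorem fderiv2_comp_nsq {W : Set E} (hW : IsOpen W) {h : E → ℂ} (hh : DifferentiableOn ℂ h W)
    {g : ℝ → ℝ} (hg : Differentiable ℝ g) (hg2 : Differentiable ℝ (deriv g)) {x : E} (hx : x ∈ W)
    (v : E) :
    fderiv ℝ (fun y => fderiv ℝ (fun z => g (‖h z‖ ^ 2)) y v) x v =
      deriv (deriv g) (‖h x‖ ^ 2) * (2 * inner ℝ (h x) (fderiv ℂ h x v)) ^ 2 +
      deriv g (‖h x‖ ^ 2) * (2 * (‖fderiv ℂ h x v‖ ^ 2 +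
        inner ℝ (h x) (fderiv ℂ (fun y => fderiv ℂ h y v) x v))) := by
  have hd : DifferentiableAt ℂ h x := (hh x hx).differentiableAt (hW.mem_nhds hx)
  have : ProperSpace E := FiniteDimensional.proper ℂ E
  have hd2 : DifferentiableAt ℂ (fun y => fderiv ℂ h y v) x :=
    (SCV.differentiableOn_fderiv_apply hW hh v x hx).differentiableAt (hW.mem_nhds hx)
  have e1 : (fun y => fderiv ℝ (fun z => g (‖h z‖ ^ 2)) y v) =ᶠ[𝓝 x]
      fun y => deriv g (‖h y‖ ^ 2) * (2 * inner ℝ (h y) (fderiv ℂ h y v)) := by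
    filter_upwards [hW.mem_nhds hx] with y hy
    exact fderiv_comp_nsq hW hh hg hy v
  rw [e1.fderiv_eq]
  have h1 : HasFDerivAt (fun y => ‖h y‖ ^ 2) (fderiv ℝ (fun y => ‖h y‖ ^ 2) x) x :=
    ((contDiffAt_nsq hW hh hx).differentiableAt (by simp)).hasFDerivAt
  have h2 := (hg2 (‖h x‖ ^ 2)).hasDerivAt.comp_hasFDerivAt x h1
  have h3 : (deriv g ∘ fun y => ‖h y‖ ^ 2) = fun y => deriv g (‖h y‖ ^ 2) := rfl
  rw [h3] at h2
  have h4 := HasFDerivAt.inner ℝ (hd.hasFDerivAt.restrictScalars ℝ)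
    (hd2.hasFDerivAt.restrictScalars ℝ)
  have h5 := h2.mul (h4.const_mul 2)
  have h6 : HasFDerivAt (fun y => deriv g (‖h y‖ ^ 2) * (2 * inner ℝ (h y) (fderiv ℂ h y v))) _ x :=
    h5
  rw [h6.fderiv]
  simp only [add_apply, smul_apply, smul_eq_mul,
    fderiv_nsq hd, ContinuousLinearMap.comp_apply, ContinuousLinearMap.prod_apply,
    fderivInnerCLM_apply, ContinuousLinearMap.coe_restrictScalars', real_inner_self_eq_norm_sq]
  ring

/-- The Laplacian in a complex line: the potential of the cut-off. -/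
theorem laplace_comp_nsq {W : Set E} (hW : IsOpen W) {h : E → ℂ} (hh : DifferentiableOn ℂ h W)
    {g s : ℝ → ℝ} (hg : Differentiable ℝ g) (hg2 : Differentiable ℝ (deriv g))
    (hs : Differentiable ℝ s)
    (hode : ∀ t, 0 ≤ t → t * deriv (deriv g) t + deriv g t = t * (deriv s t) ^ 2)
    {x : E} (hx : x ∈ W) (v : E) :
    fderiv ℝ (fun y => fderiv ℝ (fun z => g (‖h z‖ ^ 2)) y v) x v +
      fderiv ℝ (fun y => fderiv ℝ (fun z => g (‖h z‖ ^ 2)) y (Complex.I • v)) x
        (Complex.I • v) =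
      (fderiv ℝ (fun z => s (‖h z‖ ^ 2)) x v) ^ 2 +
        (fderiv ℝ (fun z => s (‖h z‖ ^ 2)) x (Complex.I • v)) ^ 2 := by
  have : ProperSpace E := FiniteDimensional.proper ℂ E
  have hd2 : DifferentiableAt ℂ (fun y => fderiv ℂ h y v) x :=
    (SCV.differentiableOn_fderiv_apply hW hh v x hx).differentiableAt (hW.mem_nhds hx)
  rw [fderiv2_comp_nsq hW hh hg hg2 hx, fderiv2_comp_nsq hW hh hg hg2 hx,
    fderiv_comp_nsq hW hh hs hx, fderiv_comp_nsq hW hh hs hx]
  have e1 : (fun y => fderiv ℂ h y (Complex.I • v)) =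
      fun y => Complex.I * fderiv ℂ h y v := by
    funext y
    simp
  have e2 : fderiv ℂ (fun y => fderiv ℂ h y (Complex.I • v)) x (Complex.I • v) =
      - fderiv ℂ (fun y => fderiv ℂ h y v) x v := by
    rw [e1, fderiv_const_mul hd2]
    simp only [smul_apply, map_smul, smul_eq_mul]
    rw [← mul_assoc, Complex.I_mul_I]
    ring
  rw [e2]
  have e3 : fderiv ℂ h x (Complex.I • v) = Complex.I * fderiv ℂ h x v := by simp
  rw [e3]
  set a := fderiv ℂ h x v
  set c := fderiv ℂ (fun y => fderiv ℂ h y v) x v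
  have k1 : ‖Complex.I * a‖ = ‖a‖ := by simp
  have k2 : inner ℝ (h x) (-c) = - inner ℝ (h x) c := inner_neg_right _ _
  have k3 : (inner ℝ (h x) a) ^ 2 + (inner ℝ (h x) (Complex.I * a)) ^ 2 = ‖h x‖ ^ 2 * ‖a‖ ^ 2 := by
    rw [Complex.inner, Complex.inner, ← Complex.normSq_eq_norm_sq, ← Complex.normSq_eq_norm_sq,
      Complex.normSq_apply, Complex.normSq_apply]
    simp only [Complex.mul_re, Complex.conj_re, Complex.conj_im, Complex.mul_im, Complex.I_re,
      Complex.I_im]
    ring
  rw [k1, k2]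
  have k4 := hode (‖h x‖ ^ 2) (by positivity)
  set t := ‖h x‖ ^ 2
  linear_combination (4 * deriv (deriv g) t - 4 * (deriv s t) ^ 2) * k3 + 4 * ‖a‖ ^ 2 * k4

end

/-! ### Integration by parts -/

section

variable {E : Type*} [NormedAddCommGroup E] [NormedSpace ℝ E] [FiniteDimensional ℝ E]
  [MeasurableSpace E] [BorelSpace E] (μ : Measure E) [μ.IsAddHaarMeasure]

omit [NormedSpace ℝ E] [FiniteDimensional ℝ E] [MeasurableSpace E] [BorelSpace E] in
theorem continuous_mul_of {a b : E → ℝ} (ha : Continuous a)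
    (hb : ∀ x ∈ tsupport a, ContinuousAt b x) : Continuous fun x => a x * b x := by
  refine continuous_of_tsupport fun x hx => ?_
  exact ha.continuousAt.mul (hb x (tsupport_mul_subset_left hx))

omit [FiniteDimensional ℝ E] [MeasurableSpace E] [BorelSpace E] in
theorem continuousAt_fderiv_apply {b : E → ℝ} {x : E} (hb : ContDiffAt ℝ 1 b x) (v : E) :
    ContinuousAt (fun y => fderiv ℝ b y v) x := by
  have h1 : ContinuousAt (fderiv ℝ b) x := (hb.fderiv_right (m := 0) (by simp)).continuousAt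
  exact h1.clm_apply continuousAt_const

theorem ibp {a b : E → ℝ} (ha : ContDiff ℝ 1 a) (hac : HasCompactSupport a)
    (hb : ∀ x ∈ tsupport a, ContDiffAt ℝ 1 b x) (v : E) :
    ∫ x, a x * fderiv ℝ b x v ∂μ = - ∫ x, fderiv ℝ a x v * b x ∂μ := by
  have hsub : tsupport (fun x => fderiv ℝ a x v) ⊆ tsupport a := tsupport_fderiv_apply_subset ℝ v
  have hca' : Continuous fun x => fderiv ℝ a x v :=
    (ha.continuous_fderiv (by simp)).clm_apply continuous_const
  apply integral_mul_fderiv_eq_neg_fderiv_mul_of_integrable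
  · refine Continuous.integrable_of_hasCompactSupport ?_ ?_
    · exact continuous_mul_of hca' fun x hx => (hb x (hsub hx)).continuousAt
    · exact (hac.fderiv_apply ℝ v).mul_right
  · refine Continuous.integrable_of_hasCompactSupport ?_ hac.mul_right
    exact continuous_mul_of ha.continuous fun x hx => continuousAt_fderiv_apply (hb x hx) v
  · refine Continuous.integrable_of_hasCompactSupport ?_ hac.mul_right
    exact continuous_mul_of ha.continuous fun x hx => (hb x hx).continuousAt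
  · exact fun x _ => (ha.differentiable (by simp)) x
  · exact fun x hx => (hb x hx).differentiableAt (by simp)

/-- Integration by parts twice. -/
theorem ibp2 {a b : E → ℝ} (ha : ContDiff ℝ 2 a) (hac : HasCompactSupport a)
    (hb : ∀ x ∈ tsupport a, ContDiffAt ℝ 2 b x) (v : E) :
    ∫ x, a x * fderiv ℝ (fun y => fderiv ℝ b y v) x v ∂μ =
      ∫ x, fderiv ℝ (fun y => fderiv ℝ a y v) x v * b x ∂μ := by
  have hsub : tsupport (fun x => fderiv ℝ a x v) ⊆ tsupport a := tsupport_fderiv_apply_subset ℝ v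
  have ha' : ContDiff ℝ 1 fun x => fderiv ℝ a x v :=
    (ha.fderiv_right (m := 1) (by norm_num)).clm_apply contDiff_const
  have h1 := ibp μ (ha.of_le (by norm_num)) hac
    (b := fun y => fderiv ℝ b y v) (fun x hx =>
      ((hb x hx).fderiv_right (m := 1) (by norm_num)).clm_apply contDiffAt_const) v
  have h2 := ibp μ ha' (hac.fderiv_apply ℝ v) (b := b) (fun x hx =>
      (hb x (hsub hx)).of_le (by norm_num)) v
  rw [h1, h2, neg_neg]

end

/-! ### The cut-off functions -/

section

variable {n : ℕ} {V W : Set (Fin n → ℂ)} {h : (Fin n → ℂ) → ℂ} {φ : (Fin n → ℂ) → ℝ}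

/-- The cut-off function. -/
noncomputable def chi (h : (Fin n → ℂ) → ℂ) (i : ℕ) (x : Fin n → ℂ) : ℝ :=
  lg Real.smoothTransition (i + 1) (‖h x‖ ^ 2)

/-- Its potential. -/
noncomputable def pot (h : (Fin n → ℂ) → ℂ) (i : ℕ) (x : Fin n → ℂ) : ℝ :=
  lg J1 (i + 1) (‖h x‖ ^ 2)

theorem contDiffAt_chi (hW : IsOpen W) (hh : DifferentiableOn ℂ h W) (i : ℕ) {x : Fin n → ℂ}
    (hx : x ∈ W) : ContDiffAt ℝ ((⊤ : ℕ∞) : WithTop ℕ∞) (chi h i) x := by
  have h1 : ContDiff ℝ ((⊤ : ℕ∞) : WithTop ℕ∞) (lg Real.smoothTransition (i + 1)) :=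
    contDiff_lg contDiff_S (fun t ht => Real.smoothTransition.zero_of_nonpos ht) (by positivity)
  exact h1.contDiffAt.comp x (contDiffAt_nsq hW hh hx)

theorem contDiffAt_pot (hW : IsOpen W) (hh : DifferentiableOn ℂ h W) (i : ℕ) {x : Fin n → ℂ}
    (hx : x ∈ W) : ContDiffAt ℝ 2 (pot h i) x := by
  have h1 : ContDiff ℝ 2 (lg J1 (i + 1)) :=
    contDiff_lg contDiff_J1 (fun t ht => J1_zero ht) (by positivity)
  exact h1.contDiffAt.comp x ((contDiffAt_nsq hW hh hx).of_le (WithTop.coe_le_coe.2 (le_top : (2 : ℕ∞) ≤ ⊤)))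

theorem chi_nonneg (i : ℕ) (x : Fin n → ℂ) : 0 ≤ chi h i x := by
  unfold chi lg
  split_ifs
  · exact le_rfl
  · exact Real.smoothTransition.nonneg _

theorem chi_le_one (i : ℕ) (x : Fin n → ℂ) : chi h i x ≤ 1 := by
  unfold chi lg
  split_ifs
  · exact zero_le_one
  · exact Real.smoothTransition.le_one _

theorem pot_nonneg (i : ℕ) (x : Fin n → ℂ) : 0 ≤ pot h i x := by
  unfold pot lg
  split_ifs
  · exact le_rfl
  · rcases le_total (2 + Real.log (‖h x‖ ^ 2) / (i + 1)) 0 with h1 | h1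
    · rw [J1_zero h1]
    · rw [← J1_zero (le_refl (0 : ℝ))]
      exact J1_mono h1

theorem pot_le (i : ℕ) {x : Fin n → ℂ} (hx : ‖h x‖ ≤ 1) : pot h i x ≤ J1 2 := by
  have h0 : 0 ≤ J1 2 := by
    rw [← J1_zero (le_refl (0 : ℝ))]
    exact J1_mono (by norm_num)
  unfold pot lg
  split_ifs with h1
  · exact h0
  · apply J1_mono
    have h2 : Real.log (‖h x‖ ^ 2) ≤ 0 :=
      Real.log_nonpos (by positivity) (pow_le_one₀ (norm_nonneg _) hx)
    have h3 : Real.log (‖h x‖ ^ 2) / (i + 1) ≤ 0 := div_nonpos_of_nonpos_of_nonneg h2 (by positivity)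
    linarith

theorem tendsto_lg {P : ℝ → ℝ} (hP : Continuous P) {t : ℝ} (ht : 0 < t) :
    Tendsto (fun i : ℕ => lg P (i + 1) t) atTop (𝓝 (P 2)) := by
  have h1 : ∀ i : ℕ, lg P (i + 1) t = P (2 + Real.log t / (i + 1)) := by
    intro i
    unfold lg
    rw [if_neg (not_le.2 ht)]
  simp only [h1]
  have h2 : Tendsto (fun i : ℕ => 2 + Real.log t / ((i : ℝ) + 1)) atTop (𝓝 (2 + 0)) := by
    refine tendsto_const_nhds.add ?_
    exact tendsto_const_nhds.div_atTop (tendsto_natCast_atTop_atTop.atTop_add tendsto_const_nhds)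
  rw [add_zero] at h2
  exact (hP.tendsto 2).comp h2

theorem tendsto_chi {x : Fin n → ℂ} (hx : h x ≠ 0) :
    Tendsto (fun i => chi h i x) atTop (𝓝 1) := by
  have h1 := tendsto_lg Real.smoothTransition.continuous (t := ‖h x‖ ^ 2) (by positivity)
  rwa [Real.smoothTransition.one_of_one_le (by norm_num)] at h1

theorem tendsto_pot {x : Fin n → ℂ} (hx : h x ≠ 0) :
    Tendsto (fun i => pot h i x) atTop (𝓝 (J1 2)) :=
  tendsto_lg contDiff_J1.continuous (t := ‖h x‖ ^ 2) (by positivity)

theorem isTest_cut (hW : IsOpen W) (hVW : V ⊆ W) (hh : DifferentiableOn ℂ h W)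
    (hφ : IsTest V φ) (i : ℕ) : IsTest (V \ {z | h z = 0}) fun x => φ x * chi h i x := by
  refine ⟨?_, hφ.cpt.mul_right, ?_⟩
  · rw [contDiff_iff_contDiffAt]
    intro x
    by_cases hx : x ∈ tsupport φ
    · exact hφ.smooth.contDiffAt.mul (contDiffAt_chi hW hh i (hVW (hφ.sub hx)))
    · have h1 := notMem_tsupport_iff_eventuallyEq.1 hx
      refine (contDiffAt_const (c := (0 : ℝ))).congr_of_eventuallyEq ?_
      filter_upwards [h1] with y hy
      rw [hy]
      simp
  · intro x hx
    have hx1 : x ∈ tsupport φ := tsupport_mul_subset_left hx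
    refine ⟨hφ.sub hx1, fun h0 => ?_⟩
    have h0' : h x = 0 := h0
    apply absurd hx
    rw [notMem_tsupport_iff_eventuallyEq]
    have hc : ContinuousAt (fun y => ‖h y‖ ^ 2) x :=
      (contDiffAt_nsq hW hh (hVW (hφ.sub hx1))).continuousAt
    have h2 := lg_eventually_zero (P := Real.smoothTransition)
      (fun t ht => Real.smoothTransition.zero_of_nonpos ht) (N := (i : ℝ) + 1) (by positivity)
      (t := ‖h x‖ ^ 2) (by simp [h0'])
    filter_upwards [hc.eventually h2] with y hy
    change φ y * lg Real.smoothTransition (i + 1) (‖h y‖ ^ 2) = 0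
    rw [hy, mul_zero]

theorem fderiv_cut (hW : IsOpen W) (hVW : V ⊆ W) (hh : DifferentiableOn ℂ h W)
    (hφ : IsTest V φ) (i : ℕ) (x v : Fin n → ℂ) :
    fderiv ℝ (fun x => φ x * chi h i x) x v - fderiv ℝ φ x v =
      fderiv ℝ φ x v * (chi h i x - 1) + φ x * fderiv ℝ (chi h i) x v := by
  by_cases hx : x ∈ tsupport φ
  · have h1 := (hφ.smooth.differentiable (by simp) x).hasFDerivAt.mul
      ((contDiffAt_chi hW hh i (hVW (hφ.sub hx))).differentiableAt (by simp)).hasFDerivAt
    have h2 : HasFDerivAt (fun x => φ x * chi h i x) _ x := h1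
    rw [h2.fderiv]
    simp only [add_apply, smul_apply, smul_eq_mul]
    ring
  · have h1 := notMem_tsupport_iff_eventuallyEq.1 hx
    have h2 : (fun x => φ x * chi h i x) =ᶠ[𝓝 x] fun _ => 0 := by
      filter_upwards [h1] with y hy
      rw [hy]
      simp
    have h3 : φ =ᶠ[𝓝 x] fun _ => 0 := h1
    rw [h2.fderiv_eq, h3.fderiv_eq, h3.eq_of_nhds]
    simp

/-- The energy integrand. -/
noncomputable def nrg (h : (Fin n → ℂ) → ℂ) (φ : (Fin n → ℂ) → ℝ) (v : Fin n → ℂ) (i : ℕ)
    (x : Fin n → ℂ) : ℝ :=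
  φ x ^ 2 * (fderiv ℝ (chi h i) x v ^ 2 + fderiv ℝ (chi h i) x (Complex.I • v) ^ 2)

theorem continuous_nrg (hW : IsOpen W) (hVW : V ⊆ W) (hh : DifferentiableOn ℂ h W)
    (hφ : IsTest V φ) (v : Fin n → ℂ) (i : ℕ) : Continuous (nrg h φ v i) := by
  unfold nrg
  refine continuous_mul_of (hφ.smooth.continuous.pow 2) fun x hx => ?_
  have hx1 : x ∈ tsupport φ := by
    have : (fun x => φ x ^ 2) = fun x => φ x * φ x := funext fun x => sq _
    rw [this] at hx
    exact tsupport_mul_subset_left hx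
  have h1 : ContDiffAt ℝ 1 (chi h i) x := (contDiffAt_chi hW hh i (hVW (hφ.sub hx1))).of_le
    (WithTop.coe_le_coe.2 (le_top : (1 : ℕ∞) ≤ ⊤))
  exact ((continuousAt_fderiv_apply h1 v).pow 2).add ((continuousAt_fderiv_apply h1 _).pow 2)

theorem compact_nrg (hφ : IsTest V φ) (v : Fin n → ℂ) (i : ℕ) :
    HasCompactSupport (nrg h φ v i) := by
  have : nrg h φ v i = fun x => φ x * (φ x * (fderiv ℝ (chi h i) x v ^ 2 +
      fderiv ℝ (chi h i) x (Complex.I • v) ^ 2)) := by
    funext x
    unfold nrg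
    ring
  rw [this]
  exact hφ.cpt.mul_right

/-- The energy tends to zero. -/
theorem tendsto_nrg (hW : IsOpen W) (hVW : V ⊆ W) (hh : DifferentiableOn ℂ h W)
    (hnull : volume (V ∩ {z | h z = 0}) = 0)
    (hφ : IsTest V φ) (hle : ∀ x ∈ tsupport φ, ‖h x‖ ≤ 1) (v : Fin n → ℂ) :
    Tendsto (fun i => ∫ x, nrg h φ v i x) atTop (𝓝 0) := by
  set a : (Fin n → ℂ) → ℝ := fun x => φ x ^ 2 with ha
  have hsm : ContDiff ℝ ((⊤ : ℕ∞) : WithTop ℕ∞) a := hφ.smooth.pow 2
  have ha2 : ContDiff ℝ 2 a := hsm.of_le (WithTop.coe_le_coe.2 (le_top : (2 : ℕ∞) ≤ ⊤))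
  have haφ : tsupport a ⊆ tsupport φ := by
    have : a = fun x => φ x * φ x := funext fun x => sq _
    rw [this]
    exact tsupport_mul_subset_left
  have hac : HasCompactSupport a := hφ.cpt.of_isClosed_subset (isClosed_tsupport _) haφ
  set La : (Fin n → ℂ) → ℝ := fun x => fderiv ℝ (fun y => fderiv ℝ a y v) x v +
    fderiv ℝ (fun y => fderiv ℝ a y (Complex.I • v)) x (Complex.I • v) with hLa
  have hsub1 : ∀ w, tsupport (fun x => fderiv ℝ (fun y => fderiv ℝ a y w) x w) ⊆ tsupport a :=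
    fun w => (tsupport_fderiv_apply_subset ℝ w).trans (tsupport_fderiv_apply_subset ℝ w)
  have hc1 : ∀ w, ContDiff ℝ 1 fun y => fderiv ℝ a y w := fun w =>
    (ha2.fderiv_right (m := 1) (by norm_num)).clm_apply contDiff_const
  have hc2 : ∀ w, Continuous fun x => fderiv ℝ (fun y => fderiv ℝ a y w) x w := fun w =>
    ((hc1 w).continuous_fderiv (by simp)).clm_apply continuous_const
  have hcomp : ∀ w, HasCompactSupport fun x => fderiv ℝ (fun y => fderiv ℝ a y w) x w :=
    fun w => (hac.fderiv_apply ℝ w).fderiv_apply ℝ w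
  have hpot : ∀ i, ∀ x ∈ tsupport a, ContDiffAt ℝ 2 (pot h i) x := fun i x hx =>
    contDiffAt_pot hW hh i (hVW (hφ.sub (haφ hx)))
  have hcpot : ∀ i w, Continuous fun x => fderiv ℝ (fun y => fderiv ℝ a y w) x w * pot h i x :=
    fun i w => continuous_mul_of (hc2 w) fun x hx => (hpot i x (hsub1 w hx)).continuousAt
  -- the energy as an integral against the potential
  have key : ∀ i, ∫ x, nrg h φ v i x = ∫ x, La x * pot h i x := by
    intro i
    have hN : (0 : ℝ) < i + 1 := by positivity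
    have e1 : ∀ x, nrg h φ v i x =
        a x * fderiv ℝ (fun y => fderiv ℝ (pot h i) y v) x v +
          a x * fderiv ℝ (fun y => fderiv ℝ (pot h i) y (Complex.I • v)) x (Complex.I • v) := by
      intro x
      by_cases hx : x ∈ tsupport φ
      · have hg : ContDiff ℝ 2 (lg J1 ((i : ℝ) + 1)) :=
          contDiff_lg contDiff_J1 (fun t ht => J1_zero ht) hN
        have hg1 : ContDiff ℝ (1 + 1) (lg J1 ((i : ℝ) + 1)) := by
          norm_num
          exact hg
        rw [contDiff_succ_iff_deriv] at hg1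
        have hs : ContDiff ℝ ((⊤ : ℕ∞) : WithTop ℕ∞) (lg Real.smoothTransition (i + 1)) :=
          contDiff_lg contDiff_S (fun t ht => Real.smoothTransition.zero_of_nonpos ht) hN
        have h1 := laplace_comp_nsq hW hh hg1.1 (hg1.2.2.differentiable (by simp))
          (hs.differentiable (by simp)) (fun t ht => lg_ode hN ht) (hVW (hφ.sub hx)) v
        unfold nrg
        rw [← mul_add]
        congr 1
        exact h1.symm
      · have h1 : φ x = 0 := image_eq_zero_of_notMem_tsupport hx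
        simp [nrg, ha, h1]
    have i1 : ∀ w, Integrable (fun x => a x *
        fderiv ℝ (fun y => fderiv ℝ (pot h i) y w) x w) := by
      intro w
      refine Continuous.integrable_of_hasCompactSupport ?_ hac.mul_right
      refine continuous_mul_of ha2.continuous fun x hx => ?_
      exact continuousAt_fderiv_apply (b := fun y => fderiv ℝ (pot h i) y w)
        (((hpot i x hx).fderiv_right (m := 1) (by norm_num)).clm_apply contDiffAt_const) w
    have i2 : ∀ w, Integrable (fun x => fderiv ℝ (fun y => fderiv ℝ a y w) x w * pot h i x) :=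
      fun w => (hcpot i w).integrable_of_hasCompactSupport (hcomp w).mul_right
    simp only [e1]
    rw [integral_add (i1 _) (i1 _), ibp2 volume ha2 hac (hpot i), ibp2 volume ha2 hac (hpot i),
      ← integral_add (i2 _) (i2 _)]
    refine integral_congr_ae (Eventually.of_forall fun x => ?_)
    simp only [hLa]
    ring
  simp only [key]
  have hLac : Continuous La := (hc2 _).add (hc2 _)
  have hLas : HasCompactSupport La := (hcomp _).add (hcomp _)
  have hLat : ∀ x, x ∉ tsupport φ → La x = 0 := by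
    intro x hx
    have h1 : ∀ w, fderiv ℝ (fun y => fderiv ℝ a y w) x w = 0 := fun w =>
      image_eq_zero_of_notMem_tsupport (f := fun x => fderiv ℝ (fun y => fderiv ℝ a y w) x w)
        fun hh => hx (haφ (hsub1 w hh))
    simp only [hLa, h1, add_zero]
  have hzero : ∫ x, La x * J1 2 = 0 := by
    have h1 : ∀ w, ∫ x, fderiv ℝ (fun y => fderiv ℝ a y w) x w = 0 := by
      intro w
      have h2 := ibp volume (hc1 w) (hac.fderiv_apply ℝ w) (b := fun _ => (1 : ℝ))
        (fun x _ => contDiffAt_const) w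
      simp at h2
      exact h2
    rw [integral_mul_const]
    simp only [hLa]
    rw [integral_add ((hc2 _).integrable_of_hasCompactSupport (hcomp _))
      ((hc2 _).integrable_of_hasCompactSupport (hcomp _)), h1, h1]
    simp
  rw [← hzero]
  refine tendsto_integral_of_dominated_convergence (fun x => |La x| * J1 2) ?_ ?_ ?_ ?_
  · intro i
    have : (fun x => La x * pot h i x) = fun x =>
        fderiv ℝ (fun y => fderiv ℝ a y v) x v * pot h i x +
        fderiv ℝ (fun y => fderiv ℝ a y (Complex.I • v)) x (Complex.I • v) * pot h i x := by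
      funext x
      simp only [hLa]
      ring
    rw [this]
    exact ((hcpot i _).add (hcpot i _)).aestronglyMeasurable
  · exact (hLac.integrable_of_hasCompactSupport hLas).abs.mul_const _
  · intro i
    refine Eventually.of_forall fun x => ?_
    rw [Real.norm_eq_abs, abs_mul]
    by_cases hx : x ∈ tsupport φ
    · refine mul_le_mul_of_nonneg_left ?_ (abs_nonneg _)
      rw [abs_of_nonneg (pot_nonneg _ _)]
      exact pot_le i (hle x hx)
    · rw [hLat x hx]
      simp
  · have h1 : ∀ᵐ x, x ∉ V ∩ {z | h z = 0} := measure_eq_zero_iff_ae_notMem.1 hnull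
    filter_upwards [h1] with x hx
    by_cases hxV : x ∈ tsupport φ
    · exact (tendsto_pot fun h0 => hx ⟨hφ.sub hxV, h0⟩).const_mul _
    · rw [hLat x hxV]
      simp

/-- The first term tends to zero. -/
theorem tendsto_first (hW : IsOpen W) (hVW : V ⊆ W) (hh : DifferentiableOn ℂ h W)
    (hnull : volume (V ∩ {z | h z = 0}) = 0) (hφ : IsTest V φ) (v : Fin n → ℂ) :
    Tendsto (fun i => ∫ x, (fderiv ℝ φ x v * (chi h i x - 1)) ^ 2) atTop (𝓝 0) := by
  have hsub : tsupport (fun x => fderiv ℝ φ x v) ⊆ tsupport φ := tsupport_fderiv_apply_subset ℝ v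
  have hc : Continuous fun x => fderiv ℝ φ x v :=
    (hφ.smooth.continuous_fderiv (by simp)).clm_apply continuous_const
  have hz : ∫ x : Fin n → ℂ, (0 : ℝ) = 0 := by simp
  rw [← hz]
  refine tendsto_integral_of_dominated_convergence (fun x => (fderiv ℝ φ x v) ^ 2) ?_ ?_ ?_ ?_
  · intro i
    refine Continuous.aestronglyMeasurable (Continuous.pow ?_ 2)
    exact continuous_mul_of hc fun x hx =>
      (contDiffAt_chi hW hh i (hVW (hφ.sub (hsub hx)))).continuousAt.sub continuousAt_const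
  · refine (hc.pow 2).integrable_of_hasCompactSupport ?_
    have : (fun x => (fderiv ℝ φ x v) ^ 2) = fun x => fderiv ℝ φ x v * fderiv ℝ φ x v :=
      funext fun x => sq _
    change HasCompactSupport fun x => (fderiv ℝ φ x v) ^ 2
    rw [this]
    exact (hφ.cpt.fderiv_apply ℝ v).mul_right
  · intro i
    refine Eventually.of_forall fun x => ?_
    rw [Real.norm_eq_abs, abs_of_nonneg (sq_nonneg _), mul_pow]
    refine mul_le_of_le_one_right (sq_nonneg _) ?_
    have h1 := chi_nonneg (h := h) i x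
    have h2 := chi_le_one (h := h) i x
    rw [sq_le_one_iff_abs_le_one, abs_le]
    constructor <;> linarith
  · have h1 : ∀ᵐ x, x ∉ V ∩ {z | h z = 0} := measure_eq_zero_iff_ae_notMem.1 hnull
    filter_upwards [h1] with x hx
    by_cases hxV : x ∈ tsupport φ
    · have h2 := ((tendsto_chi (h := h) (x := x) fun h0 => hx ⟨hφ.sub hxV, h0⟩).sub_const
        1).const_mul (fderiv ℝ φ x v)
      have h3 := h2.pow 2
      simpa using h3
    · have h2 : fderiv ℝ φ x v = 0 :=
        image_eq_zero_of_notMem_tsupport (f := fun x => fderiv ℝ φ x v) fun hh => hxV (hsub hh)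
      simp [h2]

/-- CAP for functions bounded by one. -/
theorem cap_one (hW : IsOpen W) (hVW : V ⊆ W) (hh : DifferentiableOn ℂ h W)
    (hnull : volume (V ∩ {z | h z = 0}) = 0)
    (hφ : IsTest V φ) (hle : ∀ x ∈ tsupport φ, ‖h x‖ ≤ 1) (v : Fin n → ℂ) :
    Tendsto (fun i => ∫⁻ x, ‖fderiv ℝ (fun x => φ x * chi h i x) x v - fderiv ℝ φ x v‖ₑ ^ 2)
      atTop (𝓝 0) := by
  have hsub : tsupport (fun x => fderiv ℝ φ x v) ⊆ tsupport φ := tsupport_fderiv_apply_subset ℝ v
  have hc : Continuous fun x => fderiv ℝ φ x v :=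
    (hφ.smooth.continuous_fderiv (by simp)).clm_apply continuous_const
  have i1 : ∀ i, Integrable fun x => (fderiv ℝ φ x v * (chi h i x - 1)) ^ 2 := by
    intro i
    refine Continuous.integrable_of_hasCompactSupport (Continuous.pow ?_ 2) ?_
    · exact continuous_mul_of hc fun x hx =>
        (contDiffAt_chi hW hh i (hVW (hφ.sub (hsub hx)))).continuousAt.sub continuousAt_const
    · have : (fun x => (fderiv ℝ φ x v * (chi h i x - 1)) ^ 2) =
          fun x => fderiv ℝ φ x v * (fderiv ℝ φ x v * (chi h i x - 1) ^ 2) := by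
        funext x
        ring
      rw [this]
      exact (hφ.cpt.fderiv_apply ℝ v).mul_right
  have i2 : ∀ i, Integrable (nrg h φ v i) := fun i =>
    (continuous_nrg hW hVW hh hφ v i).integrable_of_hasCompactSupport (compact_nrg hφ v i)
  have hb : ∀ i, ∫⁻ x, ‖fderiv ℝ (fun x => φ x * chi h i x) x v - fderiv ℝ φ x v‖ₑ ^ 2 ≤
      ENNReal.ofReal (2 * (∫ x, (fderiv ℝ φ x v * (chi h i x - 1)) ^ 2) +
        2 * ∫ x, nrg h φ v i x) := by
    intro i
    have i3 : Integrable fun x => 2 * (fderiv ℝ φ x v * (chi h i x - 1)) ^ 2 +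
        2 * nrg h φ v i x := ((i1 i).const_mul 2).add ((i2 i).const_mul 2)
    rw [← integral_const_mul, ← integral_const_mul, ← integral_add ((i1 i).const_mul 2)
      ((i2 i).const_mul 2), ofReal_integral_eq_lintegral_ofReal i3]
    · refine lintegral_mono fun x => ?_
      rw [fderiv_cut hW hVW hh hφ, Real.enorm_eq_ofReal_abs, ← ENNReal.ofReal_pow (abs_nonneg _),
        sq_abs]
      refine ENNReal.ofReal_le_ofReal ?_
      have h1 : φ x ^ 2 * fderiv ℝ (chi h i) x v ^ 2 ≤ nrg h φ v i x := by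
        unfold nrg
        rw [mul_add]
        have : 0 ≤ φ x ^ 2 * fderiv ℝ (chi h i) x (Complex.I • v) ^ 2 := by positivity
        linarith
      nlinarith [sq_nonneg (fderiv ℝ φ x v * (chi h i x - 1) - φ x * fderiv ℝ (chi h i) x v)]
    · refine Eventually.of_forall fun x => ?_
      have : 0 ≤ nrg h φ v i x := by
        unfold nrg
        positivity
      have h2 : 0 ≤ (fderiv ℝ φ x v * (chi h i x - 1)) ^ 2 := sq_nonneg _
      change 0 ≤ 2 * (fderiv ℝ φ x v * (chi h i x - 1)) ^ 2 + 2 * nrg h φ v i x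
      linarith
  have hlim : Tendsto (fun i => ENNReal.ofReal
      (2 * (∫ x, (fderiv ℝ φ x v * (chi h i x - 1)) ^ 2) + 2 * ∫ x, nrg h φ v i x)) atTop
      (𝓝 0) := by
    have h1 := ((tendsto_first hW hVW hh hnull hφ v).const_mul 2).add
      ((tendsto_nrg hW hVW hh hnull hφ hle v).const_mul 2)
    have h2 := ENNReal.tendsto_ofReal h1
    simpa using h2
  exact tendsto_of_tendsto_of_tendsto_of_le_of_le tendsto_const_nhds hlim
    (fun i => bot_le) hb

end

end L2P.CapAux

namespace L2P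

open CapAux

/-- CAP: zero sets of holomorphic functions have capacity zero. -/
theorem cap : S_CAP := by
  intro n V W h hV hW hVW hh hnull φ hφ
  -- scaling
  obtain ⟨M, hM0, hM⟩ : ∃ M : ℝ, 0 < M ∧ ∀ x ∈ tsupport φ, ‖h x‖ ≤ M := by
    have hcont : ContinuousOn h (tsupport φ) := hh.continuousOn.mono (hφ.sub.trans hVW)
    obtain ⟨C, hC⟩ := IsCompact.exists_bound_of_continuousOn hφ.cpt hcont
    exact ⟨max C 1, by positivity, fun x hx => (hC x hx).trans (le_max_left _ _)⟩
  set k : (Fin n → ℂ) → ℂ := fun x => ((M : ℂ))⁻¹ * h x with hk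
  have hM' : ((M : ℂ))⁻¹ ≠ 0 := by
    rw [Ne, inv_eq_zero]
    exact_mod_cast hM0.ne'
  have hk0 : {z | k z = 0} = {z | h z = 0} := by
    ext z
    simp only [hk, Set.mem_ofPred_eq, mul_eq_zero, hM', false_or]
  have hkd : DifferentiableOn ℂ k W := hh.const_mul _
  refine ⟨fun i x => φ x * chi k i x, fun i => ?_, fun v => ?_⟩
  · rw [← hk0]
    exact isTest_cut hW hVW hkd hφ i
  · refine cap_one hW hVW hkd (by rw [hk0]; exact hnull) hφ (fun x hx => ?_) v
    simp only [hk, norm_mul, norm_inv, Complex.norm_real, Real.norm_eq_abs, abs_of_pos hM0]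
    rw [inv_mul_le_iff₀ hM0, mul_one]
    exact hM x hx

end L2P
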