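import Pool.Agent.Work.MP_ead3fc_ag.Step

/-!
# Invariance, boxes and the flat iteration
-/

set_option autoImplicit false
set_option linter.unusedSectionVars false

open MeasureTheory Set Filter Topology
open scoped ENNReal Interval

namespace L2P

section

variable {E : Type} [NormedAddCommGroup E] [NormedSpace ℝ E] [FiniteDimensional ℝ E]
  [MeasurableSpace E] [BorelSpace E] {μ : Measure E} [μ.IsAddHaarMeasure]
  {Ω U : Set E} {D : Dir E} {d : ℕ} {b : Module.Basis (Fin d) ℝ E} {r : Fin d}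

lemma P_full (hU : D.Box U) {f : E → ℂ} (h0 : ∀ x, x ∉ U → f x = 0) {x : E} (hx : x ∈ U) :
    D.P U f x = ∫ σ, chi D.p D.q (D.c x + σ) • f (x + σ • D.e) := by
  unfold Dir.P lin kP
  rw [indicator_of_mem hx]
  refine setIntegral_eq_integral_of_forall_compl_eq_zero fun σ hσ => ?_
  rw [h0, smul_zero]
  intro hh
  apply hσ
  have h1 := hU.lt x hx
  have h2 := hU.lt _ hh
  rw [D.c_add] at h2
  unfold Dir.L
  constructor <;> linarith [h1.1, h1.2, h2.1, h2.2]

lemma inv_self (hU : D.Box U) {f : E → ℂ} (h0 : ∀ x, x ∉ U → f x = 0) {x : E} {t : ℝ}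
    (hx : x ∈ U) (hx' : x + t • D.e ∈ U) : D.P U f (x + t • D.e) = D.P U f x := by
  rw [P_full hU h0 hx, P_full hU h0 hx',
    ← integral_add_left_eq_self (fun σ => chi D.p D.q (D.c x + σ) • f (x + σ • D.e)) t]
  congr 1
  funext σ
  rw [D.c_add, add_assoc, add_smul, ← add_assoc x]

lemma inv_other (hU : D.Box U) {f : E → ℂ} (h0 : ∀ x, x ∉ U → f x = 0) {w : E}
    (hw : D.c w = 0) (hf : ∀ x ∈ U, ∀ t : ℝ, x + t • w ∈ U → f (x + t • w) = f x) {x : E} {t : ℝ}
    (hx : x ∈ U) (hx' : x + t • w ∈ U) : D.P U f (x + t • w) = D.P U f x := by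
  rw [P_full hU h0 hx, P_full hU h0 hx']
  have hc : D.c (x + t • w) = D.c x := by rw [map_add, map_smul, hw, smul_zero, add_zero]
  congr 1
  funext σ
  rw [hc]
  have e1 : x + t • w + σ • D.e = x + σ • D.e + t • w := by abel
  by_cases h1 : x + σ • D.e ∈ U
  · have h2 := hU.lt _ h1
    rw [D.c_add] at h2
    have h3 : x + t • w + σ • D.e ∈ U := hU.mem _ hx' σ (by rw [hc]; exact h2.1)
      (by rw [hc]; exact h2.2)
    rw [e1] at h3 ⊢
    rw [hf _ h1 t h3]
  · have h3 : x + t • w + σ • D.e ∉ U := by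
      intro h4
      apply h1
      have h2 := hU.lt _ h4
      rw [D.c_add, hc] at h2
      exact hU.mem _ hx σ h2.1 h2.2
    rw [h0 _ h1, h0 _ h3]

lemma K_zero (D : Dir E) (U : Set E) : D.K U (0 : E → ℂ) = 0 := by
  unfold Dir.K lin
  funext x
  simp [indicator]

lemma P_zero (D : Dir E) (U : Set E) : D.P U (0 : E → ℂ) = 0 := by
  unfold Dir.P lin
  funext x
  simp [indicator]

/-- The direction of an index. -/
noncomputable def mkDir (b : Module.Basis (Fin d) ℝ E) (lo hi : Fin d → ℝ) (r : Fin d) (p q : ℝ)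
    (h1 : lo r < p) (h2 : p < q) (h3 : q < hi r) : Dir E where
  c := LinearMap.toContinuousLinearMap (b.coord r)
  e := b r
  α := lo r
  β := hi r
  p := p
  q := q
  ce := by simp
  h1 := h1
  h2 := h2
  h3 := h3

lemma mkDir_c (b : Module.Basis (Fin d) ℝ E) (lo hi : Fin d → ℝ) (r : Fin d) (p q : ℝ)
    (h1 : lo r < p) (h2 : p < q) (h3 : q < hi r) (x : E) :
    (mkDir b lo hi r p q h1 h2 h3).c x = b.repr x r := rfl

lemma mkDir_of (b : Module.Basis (Fin d) ℝ E) (lo hi : Fin d → ℝ) (r : Fin d) (p q : ℝ)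
    (h1 : lo r < p) (h2 : p < q) (h3 : q < hi r) : (mkDir b lo hi r p q h1 h2 h3).Of b r :=
  ⟨rfl, fun _ => rfl⟩

lemma repr_cont (b : Module.Basis (Fin d) ℝ E) (i : Fin d) : Continuous fun x => b.repr x i :=
  (LinearMap.toContinuousLinearMap (b.coord i)).continuous

lemma bbox_open (b : Module.Basis (Fin d) ℝ E) (lo hi : Fin d → ℝ) : IsOpen (bbox b lo hi) := by
  unfold bbox
  simp only [ofPred_forall, ofPred_and]
  exact isOpen_iInter_of_finite fun i => (isOpen_lt continuous_const (repr_cont b i)).inter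
    (isOpen_lt (repr_cont b i) continuous_const)

lemma bbox_bounded (b : Module.Basis (Fin d) ℝ E) (lo hi : Fin d → ℝ) :
    Bornology.IsBounded (bbox b lo hi) := by
  set e := b.equivFun.symm.toContinuousLinearEquiv with he
  have h1 : IsCompact (e '' Icc lo hi) := isCompact_Icc.image e.continuous
  refine h1.isBounded.subset fun x hx => ⟨b.equivFun x, ⟨fun i => (hx i).1.le,
    fun i => (hx i).2.le⟩, ?_⟩
  rw [he]
  exact b.equivFun.symm_apply_apply x

lemma mkDir_box (b : Module.Basis (Fin d) ℝ E) (lo hi : Fin d → ℝ) (r : Fin d) (p q : ℝ)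
    (h1 : lo r < p) (h2 : p < q) (h3 : q < hi r) :
    (mkDir b lo hi r p q h1 h2 h3).Box (bbox b lo hi) := by
  refine ⟨bbox_open b lo hi, bbox_bounded b lo hi, fun x hx => hx r, ?_⟩
  intro x hx s h4 h5 i
  change lo i < b.repr (x + s • b r) i ∧ b.repr (x + s • b r) i < hi i
  rw [map_add, map_smul, b.repr_self, Finsupp.add_apply, Finsupp.smul_apply, Finsupp.single_apply]
  by_cases hi' : r = i
  · subst hi'
    rw [if_pos rfl, smul_eq_mul, mul_one]
    exact ⟨h4, h5⟩
  · rw [if_neg hi', smul_zero, add_zero]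
    exact hx i

/-- A function on the box which is invariant in all directions is constant. -/
lemma const_of_inv (b : Module.Basis (Fin d) ℝ E) (lo hi : Fin d → ℝ) {f : E → ℂ}
    (hf : ∀ i, ∀ x ∈ bbox b lo hi, ∀ t : ℝ, x + t • b i ∈ bbox b lo hi → f (x + t • b i) = f x)
    {x y : E} (hx : x ∈ bbox b lo hi) (hy : y ∈ bbox b lo hi) : f y = f x := by
  classical
  have key : ∀ S : Finset (Fin d), x + ∑ i ∈ S, (b.repr y i - b.repr x i) • b i ∈ bbox b lo hi ∧
      f (x + ∑ i ∈ S, (b.repr y i - b.repr x i) • b i) = f x := by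
    intro S
    induction S using Finset.induction_on with
    | empty => simp [hx]
    | insert i S hi' ih =>
      have h1 : x + ∑ j ∈ insert i S, (b.repr y j - b.repr x j) • b j =
          (x + ∑ j ∈ S, (b.repr y j - b.repr x j) • b j) + (b.repr y i - b.repr x i) • b i := by
        rw [Finset.sum_insert hi']; abel
      have h2 : x + ∑ j ∈ insert i S, (b.repr y j - b.repr x j) • b j ∈ bbox b lo hi := by
        intro k
        have h3 : b.repr (x + ∑ j ∈ insert i S, (b.repr y j - b.repr x j) • b j) k =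
            if k ∈ insert i S then b.repr y k else b.repr x k := by
          rw [map_add, map_sum, Finsupp.add_apply, Finsupp.finsetSum_apply]
          simp only [map_smul, b.repr_self, Finsupp.smul_apply, Finsupp.single_apply, smul_eq_mul,
            mul_ite, mul_one, mul_zero]
          rw [Finset.sum_ite_eq']
          split_ifs <;> ring
        rw [h3]
        split_ifs
        · exact hy k
        · exact hx k
      refine ⟨h2, ?_⟩
      rw [h1] at h2 ⊢
      rw [hf i _ ih.1 _ h2, ih.2]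
  have h1 := (key Finset.univ).2
  have h2 : x + ∑ i, (b.repr y i - b.repr x i) • b i = y := by
    simp only [sub_smul]
    rw [Finset.sum_sub_distrib, b.sum_repr, b.sum_repr]; abel
  rwa [h2] at h1

lemma Dw_trans {κ1 κ2 f g h : Finset (Fin d) → E → ℂ}
    (h1 : Dw μ b Ω κ1 (fun J x => f J x - g J x)) (h2 : Dw μ b Ω κ2 (fun J x => g J x - h J x))
    (k1 : ∀ J, Loc μ Ω (κ1 J)) (k2 : ∀ J, Loc μ Ω (κ2 J))
    (i1 : ∀ J φ, IsTest Ω φ → Integrable (fun x => φ x • (f J x - g J x)) μ)
    (i2 : ∀ J φ, IsTest Ω φ → Integrable (fun x => φ x • (g J x - h J x)) μ) :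
    Dw μ b Ω (fun J x => κ1 J x + κ2 J x) (fun J x => f J x - h J x) := by
  intro J φ hφ
  have e1 : ∀ j ∈ J, sg j J • ∫ x, fderiv ℝ φ x (b j) • (κ1 (J.erase j) x + κ2 (J.erase j) x) ∂μ =
      sg j J • ∫ x, fderiv ℝ φ x (b j) • κ1 (J.erase j) x ∂μ +
      sg j J • ∫ x, fderiv ℝ φ x (b j) • κ2 (J.erase j) x ∂μ := by
    intro j _
    rw [← smul_add, ← integral_add ((k1 _).int (hφ.deriv _)) ((k2 _).int (hφ.deriv _))]
    simp only [smul_add]
  rw [Finset.sum_congr rfl e1, Finset.sum_add_distrib, h1 J φ hφ, h2 J φ hφ, ← neg_add,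
    ← integral_add (i1 J φ hφ) (i2 J φ hφ)]
  congr 2
  funext x
  rw [← smul_add, sub_add_sub_cancel]

lemma Good.add {g h : E → ℂ} (hg : Good μ U g) (hh : Good μ U h) :
    Good μ U (fun x => g x + h x) := by
  refine ⟨hg.meas.add hh.meas, fun x hx => by rw [hg.zero x hx, hh.zero x hx, add_zero], ?_⟩
  have h5 : ∀ x, ‖g x + h x‖ₑ ^ 2 ≤ 2 * ‖g x‖ₑ ^ 2 + 2 * ‖h x‖ₑ ^ 2 := by
    intro x
    have h6 := enorm_add_le (g x) (h x)
    calc ‖g x + h x‖ₑ ^ 2 ≤ (‖g x‖ₑ + ‖h x‖ₑ) ^ 2 := by gcongr
      _ ≤ _ := by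
        have h7 := ENNReal.rpow_add_le_mul_rpow_add_rpow ‖g x‖ₑ ‖h x‖ₑ (p := 2) (by norm_num)
        have h8 : (2:ℝ≥0∞) ^ ((2:ℝ) - 1) = 2 := by
          rw [show (2:ℝ) - 1 = 1 by norm_num, ENNReal.rpow_one]
        rw [h8] at h7
        rw [← mul_add]
        exact_mod_cast h7
  refine lt_of_le_of_lt (lintegral_mono h5) ?_
  rw [lintegral_add_left ((hg.meas.measurable.enorm.pow_const 2).const_mul _),
    lintegral_const_mul' _ _ (by norm_num), lintegral_const_mul' _ _ (by norm_num)]
  exact ENNReal.add_lt_top.2 ⟨ENNReal.mul_lt_top (by norm_num) hg.l2,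
    ENNReal.mul_lt_top (by norm_num) hh.l2⟩

/-- The flat Poincaré lemma. -/
lemma flat_all (b : Module.Basis (Fin d) ℝ E) (lo hi : Fin d → ℝ) (hlh : ∀ i, lo i < hi i)
    (T : Finset (Fin d)) : ∀ f : Finset (Fin d) → E → ℂ, (∀ J, Good μ (bbox b lo hi) (f J)) →
      Cl μ b (bbox b lo hi) f → (∀ J : Finset (Fin d), ¬ J ⊆ T → f J = 0) →
      (∀ i ∉ T, ∀ x ∈ bbox b lo hi, ∀ t : ℝ, x + t • b i ∈ bbox b lo hi →
        f ∅ (x + t • b i) = f ∅ x) →
      ∃ (c : ℂ) (κ : Finset (Fin d) → E → ℂ), (∀ J, Good μ (bbox b lo hi) (κ J)) ∧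
        (∀ J : Finset (Fin d), ¬ J ⊆ T → κ J = 0) ∧
        Dw μ b (bbox b lo hi) κ (fun J x => f J x - if J = ∅ then c else 0) := by
  classical
  induction T using Finset.induction_on with
  | empty =>
    intro f hf hcl h0 hinv
    set x0 : E := ∑ i, ((lo i + hi i) / 2) • b i with hx0
    have hx0U : x0 ∈ bbox b lo hi := by
      intro i
      have h1 : b.repr x0 i = (lo i + hi i) / 2 := by
        rw [hx0, b.repr_sum_self]
      rw [h1]
      constructor <;> linarith [hlh i]
    refine ⟨f ∅ x0, fun _ => 0, fun J => good_zero μ _, fun _ _ => rfl, ?_⟩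
    intro J φ hφ
    have h1 : ∀ x, φ x • (f J x - if J = ∅ then f ∅ x0 else 0) = 0 := by
      intro x
      by_cases hx : x ∈ bbox b lo hi
      · by_cases hJ : J = ∅
        · subst hJ
          rw [if_pos rfl, const_of_inv b lo hi (fun i => hinv i (Finset.notMem_empty i)) hx0U hx,
            sub_self, smul_zero]
        · rw [if_neg hJ, h0 J (fun h => hJ (Finset.subset_empty.1 h))]
          simp
      · rw [zero_of_notMem hφ hx, zero_smul]
    simp [h1]
  | insert r T hr ih =>
    intro f hf hcl h0 hinv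
    have hlr := hlh r
    set D := mkDir b lo hi r (lo r + (hi r - lo r) / 3) (lo r + (hi r - lo r) / 2) (by linarith)
      (by linarith) (by linarith) with hD
    have hDo : D.Of b r := mkDir_of _ _ _ _ _ _ _ _ _
    have hDb : D.Box (bbox b lo hi) := mkDir_box _ _ _ _ _ _ _ _ _
    obtain ⟨k1, k2, k3, k4⟩ := step_flat hDo hDb hf hcl
    have hins : ∀ J : Finset (Fin d), r ∉ J → ¬ J ⊆ T → ¬ J ⊆ insert r T := by
      intro J hJ hJT h
      apply hJT
      intro i hi'
      rcases Finset.mem_insert.1 (h hi') with h' | h'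
      · exact absurd (h' ▸ hi') hJ
      · exact h'
    obtain ⟨c, κ, m1, m2, m3⟩ := ih (pro D (bbox b lo hi) r f) k2 k3 (by
        intro J hJ
        unfold pro
        split_ifs with hrJ
        · rfl
        · rw [h0 J (hins J hrJ hJ), P_zero]) (by
        intro i hi' x hx t hxt
        unfold pro
        rw [if_neg (Finset.notMem_empty r)]
        by_cases hir : i = r
        · subst hir
          have := inv_self hDb (hf ∅).zero (x := x) (t := t) hx (by rw [hDo.he]; exact hxt)
          rwa [hDo.he] at this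
        · exact inv_other hDb (hf ∅).zero (hDo.c_ne hir) (hinv i (by
            rw [Finset.mem_insert, not_or]; exact ⟨hir, hi'⟩)) hx hxt)
    refine ⟨c, fun J x => kap D (bbox b lo hi) r f J x + κ J x, ?_, ?_, ?_⟩
    · exact fun J => (k1 J).add (m1 J)
    · intro J hJ
      have h5 : κ J = 0 := m2 J (fun h => hJ (h.trans (Finset.subset_insert _ _)))
      have h6 : kap D (bbox b lo hi) r f J = 0 := by
        unfold kap
        split_ifs with hrJ
        · rfl
        · have h7 : f (insert r J) = 0 := h0 _ (fun h => hJ ((Finset.subset_insert r J).trans h))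
          rw [h7, K_zero]
          funext x
          simp
      funext x
      simp only [h5, h6, Pi.zero_apply, add_zero]
    · refine Dw_trans k4 m3 (fun J => (k1 J).loc _) (fun J => (m1 J).loc _) ?_ ?_
      · intro J φ hφ
        simp only [smul_sub]
        exact (((hf J).loc _).int hφ).sub (((k2 J).loc _).int hφ)
      · intro J φ hφ
        simp only [smul_sub]
        refine (((k2 J).loc _).int hφ).sub ?_
        have h9 : Integrable φ μ := hφ.smooth.continuous.integrable_of_hasCompactSupport hφ.cpt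
        exact h9.smul_const _

end

end L2P
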