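import Pool.Agent.Work.MP_ead3fc_ag.Sing
import Pool.Agent.Work.MP_ead3fc_ag.Flat

/-!
# The real variable theorem
-/

set_option autoImplicit false
set_option linter.unusedSectionVars false

open MeasureTheory Set Filter Topology
open scoped ENNReal Interval

namespace L2P

section

variable {E : Type} [NormedAddCommGroup E] [NormedSpace ℝ E] [FiniteDimensional ℝ E]
  [MeasurableSpace E] [BorelSpace E] {μ : Measure E} [μ.IsAddHaarMeasure]
  {Ω U : Set E} {d : ℕ} {b : Module.Basis (Fin d) ℝ E}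

/-- Cauchy-Schwarz for the pairing. -/
lemma pair_bound {a : E → ℝ} {g : E → ℂ} (ha : Measurable a) (hg : StronglyMeasurable g) :
    ‖∫ x, a x • g x ∂μ‖ₑ ≤ (∫⁻ x, ‖a x‖ₑ ^ 2 ∂μ) ^ (1 / (2:ℝ)) *
      (∫⁻ x, ‖g x‖ₑ ^ 2 ∂μ) ^ (1 / (2:ℝ)) := by
  refine (enorm_integral_le_lintegral_enorm _).trans ?_
  have h1 := ENNReal.lintegral_mul_le_Lp_mul_Lq μ (Real.HolderConjugate.two_two)
    (f := fun x => ‖a x‖ₑ) (g := fun x => ‖g x‖ₑ) ha.enorm.aemeasurable
    hg.measurable.enorm.aemeasurable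
  refine le_trans (le_of_eq ?_) (h1.trans (le_of_eq ?_))
  · exact lintegral_congr fun x => by rw [enorm_smul]; rfl
  · simp

lemma pair_tendsto {ψ : ℕ → E → ℝ} {φ : E → ℝ} {v : E} {g : E → ℂ} (hg : Good μ U g)
    (hφ : IsTest U φ) (hψ : ∀ i, IsTest U (ψ i))
    (h : Tendsto (fun i => ∫⁻ x, ‖fderiv ℝ (ψ i) x v - fderiv ℝ φ x v‖ₑ ^ 2 ∂μ) atTop (𝓝 0)) :
    Tendsto (fun i => ∫ x, fderiv ℝ (ψ i) x v • g x ∂μ) atTop
      (𝓝 (∫ x, fderiv ℝ φ x v • g x ∂μ)) := by
  rw [tendsto_iff_edist_tendsto_0]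
  have hle : ∀ i, edist (∫ x, fderiv ℝ (ψ i) x v • g x ∂μ) (∫ x, fderiv ℝ φ x v • g x ∂μ) ≤
      (∫⁻ x, ‖fderiv ℝ (ψ i) x v - fderiv ℝ φ x v‖ₑ ^ 2 ∂μ) ^ (1 / (2:ℝ)) *
      (∫⁻ x, ‖g x‖ₑ ^ 2 ∂μ) ^ (1 / (2:ℝ)) := by
    intro i
    rw [edist_eq_enorm_sub, ← integral_sub ((hg.loc U).int ((hψ i).deriv v))
      ((hg.loc U).int (hφ.deriv v))]
    simp only [← sub_smul]
    exact pair_bound (((hψ i).deriv v).smooth.continuous.sub
      (hφ.deriv v).smooth.continuous).measurable hg.meas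
  refine tendsto_of_tendsto_of_tendsto_of_le_of_le tendsto_const_nhds ?_ (fun _ => bot_le) hle
  have h1 : Tendsto (fun i => (∫⁻ x, ‖fderiv ℝ (ψ i) x v - fderiv ℝ φ x v‖ₑ ^ 2 ∂μ) ^ (1 / (2:ℝ)))
      atTop (𝓝 0) := by
    have := (ENNReal.continuous_rpow_const (y := 1 / (2:ℝ))).continuousAt.tendsto.comp h
    simpa [Function.comp_def] using this
  have h2 : (∫⁻ x, ‖g x‖ₑ ^ 2 ∂μ) ^ (1 / (2:ℝ)) ≠ ∞ :=
    ENNReal.rpow_ne_top_of_nonneg (by norm_num) hg.l2.ne
  have h3 := ENNReal.Tendsto.mul_const h1 (Or.inr h2)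
  rwa [zero_mul] at h3

end

theorem core : S_CORE := by
  classical
  intro E _ _ _ _ _ μ _ d b lo hi A r q δ f hrq hlh hA hδ hstrip hseg hext hfm hf0 hfg hfs hfl hcl
  set U := bbox b lo hi with hUdef
  set Ω := U \ A with hΩdef
  have hUo : IsOpen U := bbox_open b lo hi
  have hΩo : IsOpen Ω := hUo.sdiff hA
  have hΩU : Ω ⊆ U := sdiff_subset
  have hlr := hlh r
  set m := min δ (hi r - lo r) with hm
  have hm0 : 0 < m := lt_min hδ (by linarith)
  have hmδ : m ≤ δ := min_le_left _ _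
  have hml : m ≤ hi r - lo r := min_le_right _ _
  set D := mkDir b lo hi r (lo r + m / 3) (lo r + m / 2) (by linarith) (by linarith)
    (by linarith) with hD
  have hDo : D.Of b r := mkDir_of _ _ _ _ _ _ _ _ _
  have hDb : D.Box U := mkDir_box _ _ _ _ _ _ _ _ _
  have hDc : ∀ x, D.c x = b.repr x r := fun x => rfl
  have hDq : D.q = lo r + m / 2 := rfl
  have hDβ : D.β = hi r := rfl
  have h0U : ∀ J, ∀ x, x ∉ U → f J x = 0 := fun J x hx => hf0 J x (fun h => hx (hΩU h))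
  have hgood : ∀ J, r ∈ J ∨ q ∈ J → Good μ U (f J) := fun J hJ => ⟨hfm J, h0U J, hfg J hJ⟩
  have hs : ∀ J, Good μ U ({x | D.c x ≤ D.q}.indicator (f J)) := by
    intro J
    refine ⟨(hfm J).indicator D.strip_meas, fun x hx => ?_, ?_⟩
    · by_cases h' : x ∈ {x | D.c x ≤ D.q}
      · rw [indicator_of_mem h', h0U J x hx]
      · rw [indicator_of_notMem h']
    · have h1 : ∀ x, ‖({x | D.c x ≤ D.q}.indicator (f J)) x‖ₑ ^ 2 =
          {x | D.c x ≤ D.q}.indicator (fun x => ‖f J x‖ₑ ^ 2) x := by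
        intro x
        by_cases h' : x ∈ {x | D.c x ≤ D.q}
        · rw [indicator_of_mem h', indicator_of_mem h']
        · rw [indicator_of_notMem h', indicator_of_notMem h']; simp
      simp only [h1]
      rw [lintegral_indicator D.strip_meas]
      refine lt_of_le_of_lt (lintegral_mono_set ?_) (hfs J)
      intro x hx
      rw [mem_ofPred_eq] at hx ⊢
      rw [hDc, hDq] at hx
      linarith
  have hV : U ∩ {x | D.c x < lo r + m} ⊆ Ω := by
    intro x hx
    refine ⟨hx.1, hstrip x hx.1 ?_⟩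
    have := hx.2
    rw [mem_ofPred_eq, hDc] at this
    linarith
  obtain ⟨k1, k2, k3, k4⟩ := step_sing (r := r) (r1 := q) (η := lo r + m) (f := f) hDo hDb hrq hΩo
    hΩU (by rw [hDq]; linarith) (by rw [hDβ]; linarith) hV hf0
    (fun J => ⟨hfm J, fun C hC hC' => hfl J C hC hC'⟩) hgood hs hcl (by
      intro K hK φ hφ
      obtain ⟨ψ, hψ, hψ2⟩ := hext φ hφ
      have h1 : Tendsto (fun i => ∑ j ∈ K, sg j K • ∫ x, fderiv ℝ (ψ i) x (b j) •
          f (K.erase j) x ∂μ) atTop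
          (𝓝 (∑ j ∈ K, sg j K • ∫ x, fderiv ℝ φ x (b j) • f (K.erase j) x ∂μ)) := by
        refine tendsto_finsetSum _ fun j hj => ?_
        exact (pair_tendsto (hK j hj) hφ (fun i => (hψ i).mono hΩU) (hψ2 (b j))).const_smul _
      have h2 : (fun i => ∑ j ∈ K, sg j K • ∫ x, fderiv ℝ (ψ i) x (b j) •
          f (K.erase j) x ∂μ) = fun _ => 0 := by
        funext i
        exact hcl K (ψ i) (hψ i)
      rw [h2] at h1
      exact tendsto_nhds_unique h1 tendsto_const_nhds) (by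
      intro x hx
      obtain ⟨s, t, h1, h2⟩ := hseg x hx
      refine ⟨s, t, ?_, h2⟩
      have h3 := h2 1 (by simp)
      rw [one_smul] at h3
      have h4 := (h3.1 r).2
      rw [hDc]
      rcases min_choice δ (hi r - lo r) with h5 | h5
      · rw [hm, h5]; exact h1
      · rw [hm, h5]; linarith)
  obtain ⟨c, κ, m1, m2, m3⟩ := flat_all (μ := μ) b lo hi hlh (Finset.univ.erase r)
    (pro D U r f) k2 k3 (by
      intro J hJ
      have hrJ : r ∈ J := by
        by_contra hcon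
        exact hJ fun i hi' => Finset.mem_erase.2 ⟨fun h => hcon (h ▸ hi'), Finset.mem_univ _⟩
      unfold pro
      rw [if_pos hrJ]) (by
      intro i hi' x hx t hxt
      have hir : i = r := by
        by_contra hcon
        exact hi' (Finset.mem_erase.2 ⟨hcon, Finset.mem_univ _⟩)
      subst hir
      unfold pro
      rw [if_neg (Finset.notMem_empty i)]
      have := inv_self hDb (h0U ∅) (x := x) (t := t) hx (by rw [hDo.he]; exact hxt)
      rwa [hDo.he] at this)
  refine ⟨c, fun J x => kap D U r f J x + κ J x, fun J => (k1 J).add (m1 J), ?_, ?_⟩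
  · intro J hJ
    have h1 : κ J = 0 := m2 J (fun h => Finset.notMem_erase r _ (h hJ))
    have h2 : kap D U r f J = 0 := by
      unfold kap
      rw [if_pos hJ]
    funext x
    simp only [h1, h2, Pi.zero_apply, add_zero]
  · refine Dw_trans k4 (fun J φ hφ => m3 J φ (hφ.mono hΩU)) (fun J => (k1 J).loc _)
      (fun J => (m1 J).loc _) ?_ ?_
    · intro J φ hφ
      simp only [smul_sub]
      have h1 : Loc μ Ω (f J) := ⟨hfm J, fun C hC hC' => hfl J C hC hC'⟩
      exact (h1.int hφ).sub (((k2 J).loc _).int hφ)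
    · intro J φ hφ
      simp only [smul_sub]
      refine (((k2 J).loc _).int hφ).sub ?_
      have h9 : Integrable φ μ := hφ.smooth.continuous.integrable_of_hasCompactSupport hφ.cpt
      exact h9.smul_const _

end L2P
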