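import Pool.Agent.Work.MP_ead3fc_ag.Defs

/-!
# MP_ead3fc_ag: zero sets of holomorphic functions in boxes

Proof of `S_GEO`.
-/

set_option autoImplicit false

open MeasureTheory Set Filter Topology
open scoped ENNReal

namespace L2P

theorem cbox_eq {n : ℕ} (a b : Fin n → ℂ) :
    cbox a b = Set.pi univ fun j => (Ioo (a j).re (b j).re) ×ℂ (Ioo (a j).im (b j).im) := by
  ext z
  simp only [cbox, Set.mem_ofPred_eq, Set.mem_pi, Set.mem_univ, forall_true_left,
    Complex.mem_reProdIm, Set.mem_Ioo]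
  exact forall_congr' fun j => by tauto

theorem isOpen_cbox {n : ℕ} (a b : Fin n → ℂ) : IsOpen (cbox a b) := by
  rw [cbox_eq]
  exact isOpen_set_pi Set.finite_univ fun j _ => isOpen_Ioo.reProdIm isOpen_Ioo

theorem closure_cbox {n : ℕ} {a b : Fin n → ℂ} (hne : (cbox a b).Nonempty) :
    closure (cbox a b) =
      Set.pi univ fun j => (Icc (a j).re (b j).re) ×ℂ (Icc (a j).im (b j).im) := by
  obtain ⟨z, hz⟩ := hne
  rw [cbox_eq, closure_pi_set]
  refine Set.pi_congr rfl fun j _ => ?_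
  obtain ⟨h1, h2, h3, h4⟩ := hz j
  rw [Complex.closure_reProdIm, closure_Ioo (h1.trans h2).ne, closure_Ioo (h3.trans h4).ne]

theorem mem_closure_cbox {n : ℕ} {a b : Fin n → ℂ} (hne : (cbox a b).Nonempty) (z : Fin n → ℂ) :
    z ∈ closure (cbox a b) ↔ ∀ j, ((a j).re ≤ (z j).re ∧ (z j).re ≤ (b j).re) ∧
      (a j).im ≤ (z j).im ∧ (z j).im ≤ (b j).im := by
  rw [closure_cbox hne]
  simp only [Set.mem_pi, Set.mem_univ, forall_true_left, Complex.mem_reProdIm, Set.mem_Icc]

/-- The zero set of `h` in a slice of the closed box is finite. -/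
theorem slice_finite {m : ℕ} {a b : Fin (m + 1) → ℂ} {W : Set (Fin (m + 1) → ℂ)}
    {h : (Fin (m + 1) → ℂ) → ℂ} (hW : IsOpen W) (hcl : closure (cbox a b) ⊆ W)
    (hh : DifferentiableOn ℂ h W)
    (hleft : ∀ z ∈ closure (cbox a b), (z 0).re = (a 0).re → h z ≠ 0)
    {z : Fin (m + 1) → ℂ} (hz : z ∈ cbox a b) :
    {ξ : ℂ | ξ ∈ (Icc (a 0).re (b 0).re) ×ℂ (Icc (a 0).im (b 0).im) ∧
      h (Function.update z 0 ξ) = 0}.Finite := by
  set R : Set ℂ := (Icc (a 0).re (b 0).re) ×ℂ (Icc (a 0).im (b 0).im) with hR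
  have hmem : ∀ ξ ∈ R, Function.update z 0 ξ ∈ closure (cbox a b) := by
    intro ξ hξ
    rw [mem_closure_cbox ⟨z, hz⟩]
    intro j
    rw [hR, Complex.mem_reProdIm] at hξ
    refine Fin.cases ?_ (fun i => ?_) j
    · simpa using hξ
    · obtain ⟨h1, h2, h3, h4⟩ := hz i.succ
      simp only [Function.update_of_ne (Fin.succ_ne_zero i)]
      exact ⟨⟨h1.le, h2.le⟩, h3.le, h4.le⟩
  have hsl : ∀ ξ : ℂ, Function.update z 0 ξ =
      z + ContinuousLinearMap.single ℂ (fun _ : Fin (m + 1) => ℂ) 0 (ξ - z 0) := by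
    intro ξ
    ext j
    refine Fin.cases ?_ (fun i => ?_) j
    · simp
    · simp
  have hdiff : Differentiable ℂ fun ξ : ℂ => Function.update z 0 ξ := by
    have : (fun ξ : ℂ => Function.update z 0 ξ) = fun ξ : ℂ =>
        z + ContinuousLinearMap.single ℂ (fun _ : Fin (m + 1) => ℂ) 0 (ξ - z 0) := funext hsl
    rw [this]
    fun_prop
  set V : Set ℂ := (fun ξ : ℂ => Function.update z 0 ξ) ⁻¹' W with hV
  have hVo : IsOpen V := hW.preimage hdiff.continuous
  have hg : DifferentiableOn ℂ (fun ξ : ℂ => h (Function.update z 0 ξ)) V :=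
    hh.comp hdiff.differentiableOn fun ξ hξ => hξ
  have hRV : R ⊆ V := fun ξ hξ => hcl (hmem ξ hξ)
  have hana : AnalyticOnNhd ℂ (fun ξ : ℂ => h (Function.update z 0 ξ)) R :=
    fun ξ hξ => hg.analyticAt (hVo.mem_nhds (hRV hξ))
  have hRc : IsCompact R := isCompact_Icc.reProdIm isCompact_Icc
  obtain ⟨h1, h2, h3, h4⟩ := hz 0
  have hx0 : (⟨(a 0).re, (z 0).im⟩ : ℂ) ∈ R := by
    rw [hR, Complex.mem_reProdIm]
    exact ⟨⟨le_refl _, (h1.trans h2).le⟩, h3.le, h4.le⟩
  have hRconv : Convex ℝ R := by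
    have h5 : R = convexHull ℝ R := by
      rw [hR, Complex.convexHull_reProdIm, (convex_Icc _ _).convexHull_eq, (convex_Icc _ _).convexHull_eq]
    rw [h5]
    exact convex_convexHull ℝ R
  have hRconn : IsConnected R := ⟨⟨_, hx0⟩, hRconv.isPreconnected⟩
  have hne0 : h (Function.update z 0 (⟨(a 0).re, (z 0).im⟩ : ℂ)) ≠ 0 :=
    hleft _ (hmem _ hx0) (by simp)
  have hcod := hana.preimage_zero_mem_codiscreteWithin hne0 hx0 hRconn
  refine (hRc.finite_sdiff_of_mem_codiscreteWithin hcod).subset fun ξ hξ => ?_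
  exact ⟨hξ.1, by simpa using hξ.2⟩

/-- GEO. -/
theorem geo : S_GEO := by
  intro m a b W h hW hcl hne hh hleft
  have hcont : ContinuousOn h (cbox a b) :=
    (hh.mono (subset_closure.trans hcl)).continuousOn
  refine ⟨?_, ?_, ?_⟩
  · -- the zero set is null
    have hmeas : MeasurableSet (cbox a b ∩ {z | h z = 0}) := by
      have h1 : IsOpen (cbox a b ∩ h ⁻¹' {0}ᶜ) :=
        hcont.isOpen_inter_preimage (isOpen_cbox a b) isOpen_compl_singleton
      have h2 : cbox a b ∩ {z | h z = 0} = cbox a b \ (cbox a b ∩ h ⁻¹' {0}ᶜ) := by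
        ext z
        simp only [Set.mem_inter_iff, Set.mem_ofPred_eq, Set.mem_sdiff, Set.mem_preimage,
          Set.mem_compl_iff, Set.mem_singleton_iff, not_and, not_not]
        tauto
      rw [h2]
      exact (isOpen_cbox a b).measurableSet.diff h1.measurableSet
    set e := MeasurableEquiv.piFinSuccAbove (fun _ : Fin (m + 1) => ℂ) 0 with he
    have hmp : MeasurePreserving e.symm (volume.prod volume) volume :=
      (volume_preserving_piFinSuccAbove (fun _ : Fin (m + 1) => ℂ) 0).symm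
    rw [← hmp.measure_preimage hmeas.nullMeasurableSet,
      Measure.prod_apply_symm (e.symm.measurable hmeas), lintegral_eq_zero_iff']
    · refine Filter.Eventually.of_forall fun w => ?_
      simp only [Pi.zero_apply]
      by_cases hex : ∃ ξ, e.symm (ξ, w) ∈ cbox a b
      · obtain ⟨ξ₀, hξ₀⟩ := hex
        have hfin := slice_finite hW hcl hh hleft hξ₀
        refine (hfin.subset fun ξ hξ => ?_).measure_zero volume
        have hup : Function.update (e.symm (ξ₀, w)) 0 ξ = e.symm (ξ, w) := by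
          ext j
          refine Fin.cases ?_ (fun i => ?_) j
          · simp [he, MeasurableEquiv.piFinSuccAbove]
          · simp [he, MeasurableEquiv.piFinSuccAbove]
        have hξ' : e.symm (ξ, w) ∈ cbox a b ∩ {z | h z = 0} := hξ
        have hξ0 := hξ'.1 0
        have h0 : e.symm (ξ, w) 0 = ξ := by simp [he, MeasurableEquiv.piFinSuccAbove]
        rw [h0] at hξ0
        refine ⟨?_, ?_⟩
        · rw [Complex.mem_reProdIm]
          exact ⟨⟨hξ0.1.le, hξ0.2.1.le⟩, hξ0.2.2.1.le, hξ0.2.2.2.le⟩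
        · rw [hup]
          exact hξ'.2
      · have : (fun ξ => (ξ, w)) ⁻¹' (e.symm ⁻¹' (cbox a b ∩ {z | h z = 0})) = ∅ := by
          rw [Set.eq_empty_iff_forall_notMem]
          intro ξ hξ
          exact hex ⟨ξ, hξ.1⟩
        rw [this, measure_empty]
    · exact (measurable_measure_prodMk_right (e.symm.measurable hmeas)).aemeasurable
  · -- away from the left side
    have hbdd : Bornology.IsBounded (closure (cbox a b)) := by
      rw [closure_cbox hne]
      exact (isCompact_univ_pi fun j => isCompact_Icc.reProdIm isCompact_Icc).isBounded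
    have hcc : IsCompact (closure (cbox a b)) :=
      Metric.isCompact_of_isClosed_isBounded isClosed_closure hbdd
    have hcont' : ContinuousOn h (closure (cbox a b)) := (hh.mono hcl).continuousOn
    set Z : Set (Fin (m + 1) → ℂ) := closure (cbox a b) ∩ h ⁻¹' {0} with hZ
    have hZc : IsCompact Z := by
      refine hcc.of_isClosed_subset ?_ Set.inter_subset_left
      exact hcont'.preimage_isClosed_of_isClosed isClosed_closure isClosed_singleton
    rcases Set.eq_empty_or_nonempty Z with hempty | hnonempty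
    · refine ⟨1, one_pos, fun z hz _ h0 => ?_⟩
      have : z ∈ Z := ⟨hz, h0⟩
      rw [hempty] at this
      exact this
    · obtain ⟨z₀, hz₀, hmin⟩ := hZc.exists_isMinOn hnonempty
        (f := fun z : Fin (m + 1) → ℂ => (z 0).re) (by fun_prop)
      have hge := (((mem_closure_cbox hne z₀).1 hz₀.1) 0).1.1
      have hgt : (a 0).re < (z₀ 0).re := by
        refine lt_of_le_of_ne hge fun heq => ?_
        exact hleft z₀ hz₀.1 heq.symm hz₀.2
      refine ⟨((z₀ 0).re - (a 0).re) / 2, by linarith, fun z hz hz0 h0 => ?_⟩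
      have h1 : (z₀ 0).re ≤ (z 0).re := hmin (show z ∈ Z from ⟨hz, h0⟩)
      linarith
  · -- avoidance
    intro z hz δ hδ
    obtain ⟨h1, h2, h3, h4⟩ := hz 0
    set Z : Set ℂ := {ξ : ℂ | ξ ∈ (Icc (a 0).re (b 0).re) ×ℂ (Icc (a 0).im (b 0).im) ∧
      h (Function.update z 0 ξ) = 0} with hZ
    have hfin : Z.Finite := slice_finite hW hcl hh hleft hz
    obtain ⟨x₀, hx₀a, hx₀b⟩ : ∃ x₀ : ℝ, (a 0).re < x₀ ∧ x₀ < min ((a 0).re + δ) (z 0).re := by
      refine exists_between (lt_min (by linarith) h1)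
    have hx₀δ : x₀ < (a 0).re + δ := hx₀b.trans_le (min_le_left _ _)
    have hx₀z : x₀ < (z 0).re := hx₀b.trans_le (min_le_right _ _)
    -- bad heights
    set f : ℂ → ℝ := fun ξ => (z 0).im +
      (ξ.im - (z 0).im) / ((ξ.re - (z 0).re) / (x₀ - (z 0).re)) with hf
    have hbad : (f '' Z).Finite := hfin.image f
    obtain ⟨y, hy, hyn⟩ : ∃ y ∈ Ioo (a 0).im (b 0).im, y ∉ f '' Z := by
      by_contra hcon
      push Not at hcon
      exact (Set.Ioo_infinite (h3.trans h4)) (hbad.subset fun y hy => hcon y hy)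
    refine ⟨⟨x₀ - (z 0).re, y - (z 0).im⟩, ?_, fun t ht0 ht1 => ?_⟩
    · simpa using hx₀δ
    set ζ : ℂ := ⟨x₀ - (z 0).re, y - (z 0).im⟩ with hζ
    have hupd : z + t • (Pi.single 0 ζ : Fin (m + 1) → ℂ) =
        Function.update z 0 (z 0 + t • ζ) := by
      ext j
      refine Fin.cases ?_ (fun i => ?_) j
      · simp
      · simp
    have hre : (z 0 + t • ζ).re = (z 0).re + t * (x₀ - (z 0).re) := by simp [hζ]
    have him : (z 0 + t • ζ).im = (z 0).im + t * (y - (z 0).im) := by simp [hζ]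
    have hb : x₀ < (b 0).re := hx₀z.trans h2
    have hre1 : (a 0).re < (z 0 + t • ζ).re := by rw [hre]; nlinarith
    have hre2 : (z 0 + t • ζ).re < (b 0).re := by rw [hre]; nlinarith
    have him1 : (a 0).im < (z 0 + t • ζ).im := by rw [him]; nlinarith [hy.1]
    have him2 : (z 0 + t • ζ).im < (b 0).im := by rw [him]; nlinarith [hy.2]
    rw [hupd]
    refine ⟨fun j => ?_, fun h0 => hyn ⟨z 0 + t • ζ, ⟨?_, h0⟩, ?_⟩⟩
    · refine Fin.cases ?_ (fun i => ?_) j
      · simp only [Function.update_self]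
        exact ⟨hre1, hre2, him1, him2⟩
      · rw [Function.update_of_ne (Fin.succ_ne_zero i)]
        exact hz i.succ
    · rw [Complex.mem_reProdIm]
      exact ⟨⟨hre1.le, hre2.le⟩, him1.le, him2.le⟩
    · simp only [hf]
      rw [hre, him]
      have hx : x₀ - (z 0).re ≠ 0 := by linarith
      field_simp
      ring

end L2P
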