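import Pool.Agent.Work.MP_ead3fc_ag.Defs

/-!
# MP_ead3fc_ag: the metric induced by a map of corank at most one

Proof of `S_METRIC`.
-/

set_option autoImplicit false

open MeasureTheory Set Filter Topology
open scoped ENNReal

namespace L2P

/-- Cauchy's estimate for directional derivatives, uniform on a compact set. -/
theorem exists_dir_bound {ι : Type*} [Fintype ι] {H : Type*} [NormedAddCommGroup H]
    [NormedSpace ℂ H] {K W : Set (ι → ℂ)} {F : (ι → ℂ) → H} (hK : IsCompact K) (hW : IsOpen W)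
    (hKW : K ⊆ W) (hF : DifferentiableOn ℂ F W) :
    ∃ C : ℝ, 0 ≤ C ∧ ∀ z ∈ K, ∀ v : ι → ℂ, ‖v‖ ≤ 1 → ‖fderiv ℂ F z v‖ ≤ C := by
  obtain ⟨δ, hδ, hδW⟩ := hK.exists_cthickening_subset_open hW hKW
  have hcpt : IsCompact (Metric.cthickening δ K) := hK.cthickening
  have hcont : ContinuousOn F (Metric.cthickening δ K) := (hF.mono hδW).continuousOn
  obtain ⟨M, hM⟩ := hcpt.exists_bound_of_continuousOn hcont
  refine ⟨max M 0 / δ, by positivity, fun z hz v hv => ?_⟩
  have hmem : ∀ t : ℂ, ‖t‖ ≤ δ → z + t • v ∈ Metric.cthickening δ K := by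
    intro t ht
    refine Metric.mem_cthickening_of_dist_le _ z δ K hz ?_
    rw [dist_eq_norm, add_sub_cancel_left, norm_smul]
    calc ‖t‖ * ‖v‖ ≤ ‖t‖ * 1 := by gcongr
      _ ≤ δ := by simpa using ht
  have hline : ∀ t : ℂ, HasDerivAt (fun t : ℂ => z + t • v) v t := by
    intro t
    simpa using ((hasDerivAt_id t).smul_const v).const_add z
  have hd : ∀ t : ℂ, ‖t‖ ≤ δ → HasDerivAt (fun t : ℂ => F (z + t • v))
      (fderiv ℂ F (z + t • v) v) t := by
    intro t ht
    have h1 : DifferentiableAt ℂ F (z + t • v) :=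
      hF.differentiableAt (hW.mem_nhds (hδW (hmem t ht)))
    exact h1.hasFDerivAt.comp_hasDerivAt t (hline t)
  have hdc : DiffContOnCl ℂ (fun t : ℂ => F (z + t • v)) (Metric.ball 0 δ) := by
    refine DifferentiableOn.diffContOnCl fun t ht => ?_
    rw [closure_ball _ hδ.ne', mem_closedBall_zero_iff] at ht
    exact (hd t ht).differentiableAt.differentiableWithinAt
  have h := Complex.norm_deriv_le_of_forall_mem_sphere_norm_le (C := max M 0) hδ hdc
    (fun t ht => by
      rw [mem_sphere_zero_iff_norm] at ht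
      exact (hM _ (hmem t ht.le)).trans (le_max_left _ _))
  have h0 := (hd 0 (by simpa using hδ.le)).deriv
  rw [h0] at h
  simpa using h

/-- Lower bound for Gram determinants. -/
theorem le_det_gram {n : ℕ} {H : Type*} [NormedAddCommGroup H] [InnerProductSpace ℂ H]
    (w : Fin n → H) (c : ℝ) (hc : 0 ≤ c)
    (h : ∀ x : Fin n → ℂ, c * ∑ i, ‖x i‖ ^ 2 ≤ ‖∑ i, x i • w i‖ ^ 2) :
    c ^ n ≤ ‖(Matrix.gram ℂ w).det‖ := by
  have hA := Matrix.isHermitian_gram ℂ w
  have hev : ∀ i, c ≤ hA.eigenvalues i := by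
    intro i
    rw [hA.eigenvalues_eq i, Matrix.star_dotProduct_gram_mulVec]
    have h1 := h (fun j => hA.eigenvectorBasis i j)
    have h2 : ∑ j, ‖hA.eigenvectorBasis i j‖ ^ 2 = 1 := by
      rw [← EuclideanSpace.norm_sq_eq, hA.eigenvectorBasis.orthonormal.1 i, one_pow]
    rw [h2, mul_one] at h1
    rw [inner_self_eq_norm_sq (𝕜 := ℂ)]
    exact h1
  rw [hA.det_eq_prod_eigenvalues, norm_prod]
  calc c ^ n = ∏ _i : Fin n, c := by simp
    _ ≤ ∏ i, ‖(hA.eigenvalues i : ℂ)‖ := by
      refine Finset.prod_le_prod (fun _ _ => hc) fun i _ => ?_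
      rw [Complex.norm_real]
      exact (hev i).trans (le_abs_self _)

/-- Upper bound for Gram determinants. -/
theorem det_gram_le {n : ℕ} {H : Type*} [NormedAddCommGroup H] [InnerProductSpace ℂ H]
    (w : Fin n → H) (c : ℝ) (hc : 0 ≤ c) (h : ∀ i, ‖w i‖ ≤ c) :
    ‖(Matrix.gram ℂ w).det‖ ≤ n.factorial * (c ^ 2) ^ n := by
  have h1 := Matrix.det_le (A := Matrix.gram ℂ w)
    (abv := (NormedField.toAbsoluteValue ℂ : AbsoluteValue ℂ ℝ)) (x := c ^ 2) (fun i j => by
      have : ‖inner ℂ (w i) (w j)‖ ≤ c ^ 2 := by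
        calc ‖inner ℂ (w i) (w j)‖ ≤ ‖w i‖ * ‖w j‖ := norm_inner_le_norm _ _
          _ ≤ c * c := by gcongr <;> apply h
          _ = c ^ 2 := by ring
      exact this)
  have h2 : ‖(Matrix.gram ℂ w).det‖ ≤ (Fintype.card (Fin n)).factorial •
      (c ^ 2) ^ Fintype.card (Fin n) := h1
  simpa [nsmul_eq_mul] using h2

/-- METRIC. -/
theorem metric : S_METRIC := by
  intro m N K W F L hK hW hKW hF hL
  obtain ⟨C₁, hC₁, hdir⟩ := exists_dir_bound hK hW hKW hF
  have hsingle : ∀ j : Fin (m + 1), ‖(Pi.single j 1 : Fin (m + 1) → ℂ)‖ ≤ 1 := by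
    intro j
    rw [pi_norm_le_iff_of_nonneg zero_le_one]
    intro i
    by_cases hij : i = j
    · subst hij; simp
    · simp [Pi.single_eq_of_ne hij]
  have hL' : ∀ z ∈ W, ∀ v : Fin (m + 1) → ℂ, ∀ j : Fin m, L (fderiv ℂ F z v) j = v j.succ := by
    intro z hz v j
    have h1 : HasFDerivAt (fun z => L (F z) j)
        ((ContinuousLinearMap.proj (R := ℂ) (φ := fun _ : Fin m => ℂ) j).comp
          (L.comp (fderiv ℂ F z))) z :=
      (ContinuousLinearMap.proj (R := ℂ) (φ := fun _ : Fin m => ℂ) j).hasFDerivAt.comp z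
        (L.hasFDerivAt.comp z (hF.differentiableAt (hW.mem_nhds hz)).hasFDerivAt)
    have h2 : HasFDerivAt (fun z : Fin (m + 1) → ℂ => L (F z) j)
        (ContinuousLinearMap.proj (R := ℂ) (φ := fun _ : Fin (m + 1) => ℂ) j.succ) z := by
      refine HasFDerivAt.congr_of_eventuallyEq
        (ContinuousLinearMap.proj (R := ℂ) (φ := fun _ : Fin (m + 1) => ℂ) j.succ).hasFDerivAt ?_
      filter_upwards [hW.mem_nhds hz] with y hy
      rw [hL y hy j]
      rfl
    have h3 := h1.unique h2
    have h4 := congrArg (fun T => T v) h3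
    simpa using h4
  set C₂ : ℝ := 1 + ‖L‖ + m * (‖L‖ * C₁) with hC₂
  have hmL : 0 ≤ (m : ℝ) * (‖L‖ * C₁) := by positivity
  have hC₂1 : 1 ≤ C₂ := by rw [hC₂]; linarith [norm_nonneg L]
  have hLb : ∀ z ∈ K, ∀ v : Fin (m + 1) → ℂ, ∀ j : Fin m,
      ‖v j.succ‖ ≤ ‖L‖ * ‖fderiv ℂ F z v‖ := by
    intro z hz v j
    rw [← hL' z (hKW hz) v j]
    exact (norm_le_pi_norm _ j).trans (L.le_opNorm _)
  have hmain : ∀ z ∈ K, ∀ v : Fin (m + 1) → ℂ,
      (∀ j : Fin m, ‖v j.succ‖ ≤ C₂ * ‖fderiv ℂ F z v‖) ∧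
        ‖fderiv ℂ F z (Pi.single 0 1)‖ * ‖v 0‖ ≤ C₂ * ‖fderiv ℂ F z v‖ := by
    intro z hz v
    constructor
    · intro j
      refine (hLb z hz v j).trans ?_
      gcongr
      rw [hC₂]
      linarith
    · have hv : v = v 0 • (Pi.single 0 1 : Fin (m + 1) → ℂ) +
          ∑ j : Fin m, v j.succ • (Pi.single j.succ 1 : Fin (m + 1) → ℂ) := by
        have := pi_eq_sum_univ' v
        rw [Fin.sum_univ_succ] at this
        convert this using 2
      have h1 : fderiv ℂ F z v = v 0 • fderiv ℂ F z (Pi.single 0 1) +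
          ∑ j : Fin m, v j.succ • fderiv ℂ F z (Pi.single j.succ 1) := by
        conv_lhs => rw [hv]
        rw [map_add, map_smul, map_sum]
        simp only [map_smul]
      have h2 : v 0 • fderiv ℂ F z (Pi.single 0 1) = fderiv ℂ F z v -
          ∑ j : Fin m, v j.succ • fderiv ℂ F z (Pi.single j.succ 1) := by
        rw [h1]; abel
      calc ‖fderiv ℂ F z (Pi.single 0 1)‖ * ‖v 0‖
          = ‖v 0 • fderiv ℂ F z (Pi.single 0 1)‖ := by rw [norm_smul, mul_comm]
        _ ≤ ‖fderiv ℂ F z v‖ +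
            ‖∑ j : Fin m, v j.succ • fderiv ℂ F z (Pi.single j.succ 1)‖ := by
          rw [h2]; exact norm_sub_le _ _
        _ ≤ ‖fderiv ℂ F z v‖ + ∑ _j : Fin m, (‖L‖ * ‖fderiv ℂ F z v‖) * C₁ := by
          gcongr
          refine (norm_sum_le _ _).trans (Finset.sum_le_sum fun j _ => ?_)
          rw [norm_smul]
          gcongr
          · exact hLb z hz v j
          · exact hdir z hz _ (hsingle _)
        _ ≤ C₂ * ‖fderiv ℂ F z v‖ := by
          rw [Finset.sum_const, Finset.card_univ, Fintype.card_fin, nsmul_eq_mul, hC₂]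
          nlinarith [mul_nonneg (norm_nonneg L) (norm_nonneg (fderiv ℂ F z v))]
  -- Gram determinants
  set c₃ : ℝ := 1 / ((m + 1) * C₂ ^ 2) with hc₃
  have hc₃pos : 0 < c₃ := by rw [hc₃]; positivity
  set M : ℝ := max 1 C₁ with hM
  have hM1 : 1 ≤ M := le_max_left _ _
  have hgram : ∀ z ∈ K, ‖gramDet F z‖ ≤
        ((m + 1).factorial * (M ^ 2) ^ (m + 1)) * ‖fderiv ℂ F z (Pi.single 0 1)‖ ^ 2 ∧
      ‖fderiv ℂ F z (Pi.single 0 1)‖ ^ 2 ≤ (1 / c₃ ^ (m + 1)) * ‖gramDet F z‖ := by
    intro z hz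
    set ρ : ℝ := ‖fderiv ℂ F z (Pi.single 0 1)‖ with hρ
    rcases eq_or_lt_of_le (norm_nonneg (fderiv ℂ F z (Pi.single 0 1))) with h0 | hpos
    · rw [← hρ] at h0
      have h00 : fderiv ℂ F z (Pi.single 0 1) = 0 := by
        rw [← norm_eq_zero, ← hρ, ← h0]
      have hg : gramDet F z = 0 := by
        unfold gramDet
        refine Matrix.det_eq_zero_of_row_eq_zero 0 fun j => ?_
        simp [h00]
      rw [hg, ← h0]
      simp
    · rw [← hρ] at hpos
      -- scaled frame
      set w : Fin (m + 1) → EuclideanSpace ℂ (Fin N) := fun i =>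
        (if i = 0 then ((ρ⁻¹ : ℝ) : ℂ) else 1) • fderiv ℂ F z (Pi.single i 1) with hw
      have hdet : gramDet F z = ((ρ ^ 2 : ℝ) : ℂ) * (Matrix.gram ℂ w).det := by
        set d : Fin (m + 1) → ℂ := fun i => if i = 0 then ((ρ : ℝ) : ℂ) else 1 with hd
        have hdd : ∏ i, d i = (ρ : ℂ) := by
          rw [Fin.prod_univ_succ]
          simp [hd, Fin.succ_ne_zero]
        have hmat : (Matrix.of fun i j : Fin (m + 1) =>
            inner ℂ (fderiv ℂ F z (Pi.single i 1)) (fderiv ℂ F z (Pi.single j 1))) =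
            Matrix.diagonal d * Matrix.gram ℂ w * Matrix.diagonal d := by
          have hdw : ∀ i, d i • w i = fderiv ℂ F z (Pi.single i 1) := by
            intro i
            by_cases hi : i = 0
            · simp only [hd, hw, hi, if_true, smul_smul]
              rw [← Complex.ofReal_mul, mul_inv_cancel₀ hpos.ne']
              simp
            · simp [hd, hw, hi]
          have hdc : ∀ i, (starRingEnd ℂ) (d i) = d i := by
            intro i
            by_cases hi : i = 0 <;> simp [hd, hi]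
          ext i j
          rw [Matrix.mul_diagonal, Matrix.diagonal_mul, Matrix.gram_apply, Matrix.of_apply,
            ← hdw i, ← hdw j, inner_smul_left, inner_smul_right, hdc]
          ring
        unfold gramDet
        rw [hmat, Matrix.det_mul, Matrix.det_mul, Matrix.det_diagonal, hdd]
        push_cast
        ring
      have hwn : ∀ i, ‖w i‖ ≤ M := by
        intro i
        by_cases hi : i = 0
        · subst hi
          simp only [hw, if_true, norm_smul, Complex.norm_real]
          rw [← hρ, norm_inv, Real.norm_of_nonneg hpos.le, inv_mul_cancel₀ hpos.ne']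
          exact hM1
        · simp only [hw, hi, if_false, one_smul]
          exact (hdir z hz _ (hsingle _)).trans (le_max_right _ _)
      have hup := det_gram_le w M (by linarith) hwn
      have hlow : c₃ ^ (m + 1) ≤ ‖(Matrix.gram ℂ w).det‖ := by
        refine le_det_gram w c₃ hc₃pos.le fun x => ?_
        set v : Fin (m + 1) → ℂ := fun i => (if i = 0 then ((ρ⁻¹ : ℝ) : ℂ) else 1) * x i with hv
        have hsum : ∑ i, x i • w i = fderiv ℂ F z v := by
          have h1 : v = ∑ i, (x i * (if i = 0 then ((ρ⁻¹ : ℝ) : ℂ) else 1)) •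
              (Pi.single i 1 : Fin (m + 1) → ℂ) := by
            have h2 := pi_eq_sum_univ' v
            refine h2.trans (Finset.sum_congr rfl fun i _ => ?_)
            ext j
            by_cases hij : j = i
            · subst hij
              simp only [hv, Pi.smul_apply, Pi.single_eq_same, smul_eq_mul, mul_one]
              ring
            · simp [Ne.symm hij]
          conv_rhs => rw [h1]
          rw [map_sum]
          refine Finset.sum_congr rfl fun i _ => ?_
          rw [map_smul, hw, smul_smul]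
        rw [hsum]
        obtain ⟨ha, hb⟩ := hmain z hz v
        have hx : ∀ i, ‖x i‖ ≤ C₂ * ‖fderiv ℂ F z v‖ := by
          intro i
          refine Fin.cases ?_ (fun j => ?_) i
          · refine le_trans (le_of_eq ?_) hb
            simp only [hv, if_true, norm_mul, Complex.norm_real]
            rw [← hρ, norm_inv, Real.norm_of_nonneg hpos.le, ← mul_assoc,
              mul_inv_cancel₀ hpos.ne', one_mul]
          · refine le_trans (le_of_eq ?_) (ha j)
            simp [hv, Fin.succ_ne_zero]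
        have hx2 : ∑ i, ‖x i‖ ^ 2 ≤ (m + 1) * (C₂ * ‖fderiv ℂ F z v‖) ^ 2 := by
          calc ∑ i, ‖x i‖ ^ 2 ≤ ∑ _i : Fin (m + 1), (C₂ * ‖fderiv ℂ F z v‖) ^ 2 := by
                refine Finset.sum_le_sum fun i _ => ?_
                gcongr
                exact hx i
            _ = (m + 1) * (C₂ * ‖fderiv ℂ F z v‖) ^ 2 := by simp
        calc c₃ * ∑ i, ‖x i‖ ^ 2 ≤ c₃ * ((m + 1) * (C₂ * ‖fderiv ℂ F z v‖) ^ 2) := by
              gcongr
          _ = ‖fderiv ℂ F z v‖ ^ 2 := by
            rw [hc₃]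
            have : (0 : ℝ) < C₂ := by linarith
            field_simp
      have hnorm : ‖gramDet F z‖ = ρ ^ 2 * ‖(Matrix.gram ℂ w).det‖ := by
        rw [hdet, norm_mul, Complex.norm_real, Real.norm_of_nonneg (by positivity)]
      rw [hnorm]
      constructor
      · calc ρ ^ 2 * ‖(Matrix.gram ℂ w).det‖
            ≤ ρ ^ 2 * ((m + 1).factorial * (M ^ 2) ^ (m + 1)) := by gcongr
          _ = _ := by ring
      · calc ρ ^ 2 = (1 / c₃ ^ (m + 1)) * (ρ ^ 2 * c₃ ^ (m + 1)) := by field_simp
          _ ≤ (1 / c₃ ^ (m + 1)) * (ρ ^ 2 * ‖(Matrix.gram ℂ w).det‖) := by gcongr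
  refine ⟨max (max C₁ C₂) (max ((m + 1).factorial * (M ^ 2) ^ (m + 1)) (1 / c₃ ^ (m + 1))),
    ?_, ?_⟩
  · exact hC₂1.trans ((le_max_right _ _).trans (le_max_left _ _))
  intro z hz
  refine ⟨fun j => ?_, fun v => ⟨fun j => ?_, ?_⟩, ?_, ?_⟩
  · exact (hdir z hz _ (hsingle j)).trans ((le_max_left _ _).trans (le_max_left _ _))
  · refine ((hmain z hz v).1 j).trans ?_
    gcongr
    exact (le_max_right _ _).trans (le_max_left _ _)
  · refine ((hmain z hz v).2).trans ?_
    gcongr
    exact (le_max_right _ _).trans (le_max_left _ _)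
  · refine ((hgram z hz).1).trans ?_
    gcongr
    exact (le_max_left _ _).trans (le_max_right _ _)
  · refine ((hgram z hz).2).trans ?_
    gcongr
    exact (le_max_right _ _).trans (le_max_right _ _)

end L2P
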