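import Pool.Agent.Work.MP_ead3fc_ag.Trans
import Pool.Agent.Work.MP_ead3fc_ag.Core
import Pool.Agent.Work.MP_ead3fc_ag.Cap
import Pool.Agent.Work.MP_ead3fc_ag.Geo
import Pool.Agent.Work.MP_ead3fc_ag.Metric

/-!
# The geometric data and the application of the real variable theorem
-/

set_option autoImplicit false
set_option linter.unusedSectionVars false

open MeasureTheory Set Filter Topology
open scoped ENNReal

namespace L2P

/-- The geometric data. -/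
structure Chart (m N : ℕ) where
  a : Fin (m + 1) → ℂ
  b : Fin (m + 1) → ℂ
  W : Set (Fin (m + 1) → ℂ)
  F : (Fin (m + 1) → ℂ) → EuclideanSpace ℂ (Fin N)
  L : EuclideanSpace ℂ (Fin N) →L[ℂ] (Fin m → ℂ)
  h : (Fin (m + 1) → ℂ) → ℂ
  A : Set (Fin (m + 1) → ℂ)
  ne : (cbox a b).Nonempty
  hW : IsOpen W
  hUW : closure (cbox a b) ⊆ W
  hF : DifferentiableOn ℂ F W
  hL : ∀ z ∈ W, ∀ j : Fin m, L (F z) j = z j.succ
  hh : DifferentiableOn ℂ h W
  hA : IsClosed A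
  hAh : ∀ z ∈ closure (cbox a b), z ∈ A → h z = 0
  hside : ∀ z ∈ closure (cbox a b), (z 0).re = (a 0).re → h z ≠ 0
  himm : ∀ z ∈ closure (cbox a b), z ∉ A → Function.Injective (fderiv ℂ F z)

namespace Chart

variable {m N : ℕ} (X : Chart m N)

/-- The box. -/
def U : Set (Fin (m + 1) → ℂ) := cbox X.a X.b

/-- The regular part. -/
def Ω : Set (Fin (m + 1) → ℂ) := cbox X.a X.b \ X.A

lemma compact : IsCompact (closure X.U) := by
  unfold U
  rw [closure_cbox X.ne]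
  exact isCompact_univ_pi fun j => isCompact_Icc.reProdIm isCompact_Icc

lemma U_open : IsOpen X.U := isOpen_cbox _ _

lemma Ω_open : IsOpen X.Ω := X.U_open.sdiff X.hA

lemma Ω_sub : X.Ω ⊆ X.U := sdiff_subset

lemma rho_cont : ContinuousOn (rho X.F) X.W := by
  have h1 : ContDiffOn ℂ ((⊤ : ℕ∞) : WithTop ℕ∞) X.F X.W := fun z hz =>
    ((SCV.contDiffAt_of_differentiableOn X.hW X.hF hz (n := ⊤))).contDiffWithinAt
  have h2 : ContinuousOn (fderiv ℂ X.F) X.W := h1.continuousOn_fderiv_of_isOpen X.hW (by simp)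
  unfold rho
  exact (h2.clm_apply continuousOn_const).norm

lemma rho_pos {z : Fin (m + 1) → ℂ} (hz : z ∈ closure X.U) (hzA : z ∉ X.A) : 0 < rho X.F z := by
  unfold rho
  rw [norm_pos_iff]
  intro h
  have h1 := X.himm z hz hzA (h.trans (map_zero (fderiv ℂ X.F z)).symm)
  have h2 := congrFun h1 0
  simp at h2

lemma exists_est : ∃ C : ℝ, ∀ z ∈ X.Ω, Est X.F C z := by
  obtain ⟨C, hC, h⟩ := metric m N (closure X.U) X.W X.F X.L X.compact X.hW X.hUW X.hF X.hL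
  refine ⟨C, fun z hz => ?_⟩
  have hz' : z ∈ closure X.U := subset_closure (X.Ω_sub hz)
  obtain ⟨h1, h2, h3, h4⟩ := h z hz'
  exact ⟨hC, X.rho_pos hz' hz.2, h1, fun v j => (h2 v).1 j, fun v => (h2 v).2, h3, h4⟩

lemma lower {K : Set (Fin (m + 1) → ℂ)} (hK : IsCompact K) (hKU : K ⊆ closure X.U)
    (hKA : ∀ z ∈ K, z ∉ X.A) : ∃ c : ℝ, 0 < c ∧ ∀ z ∈ K, c ≤ rho X.F z := by
  rcases K.eq_empty_or_nonempty with he | hne
  · exact ⟨1, one_pos, fun z hz => by rw [he] at hz; exact absurd hz (notMem_empty _)⟩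
  · obtain ⟨z0, hz0, hmin⟩ := hK.exists_isMinOn hne
      (X.rho_cont.mono (hKU.trans X.hUW))
    exact ⟨rho X.F z0, X.rho_pos (hKU hz0) (hKA z0 hz0), fun z hz => hmin hz⟩

/-- Index of `x_1`. -/
def r (m : ℕ) : Fin ((m + 1) * 2) := ix 0 0

/-- Index of `x_2`. -/
def q (m : ℕ) : Fin ((m + 1) * 2) := ix 0 1

lemma r_ne_q (m : ℕ) : r m ≠ q m := fun h => absurd (ix_inj h).2 (by decide)

/-- The real variable theorem for the geometric data. -/
lemma app : ∃ δ : ℝ, 0 < δ ∧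
    (∃ c : ℝ, 0 < c ∧ ∀ z ∈ X.Ω, (z 0).re < (X.a 0).re + δ → c ≤ rho X.F z) ∧
    ∀ f : Finset (Fin ((m + 1) * 2)) → (Fin (m + 1) → ℂ) → ℂ, (∀ J, StronglyMeasurable (f J)) →
      (∀ J, ∀ x ∉ X.Ω, f J x = 0) → (∀ J, r m ∈ J ∨ q m ∈ J → ∫⁻ x, ‖f J x‖ₑ ^ 2 < ∞) →
      (∀ J, ∫⁻ x in {x | (x 0).re < (X.a 0).re + δ}, ‖f J x‖ₑ ^ 2 < ∞) →
      (∀ J, ∀ C : Set (Fin (m + 1) → ℂ), IsCompact C → C ⊆ X.Ω → ∫⁻ x in C, ‖f J x‖ₑ ^ 2 < ∞) →
      Cl volume (rb (m + 1)) X.Ω f →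
      ∃ (c : ℂ) (κ : Finset (Fin ((m + 1) * 2)) → (Fin (m + 1) → ℂ) → ℂ),
        (∀ J, Good volume X.U (κ J)) ∧ (∀ J, r m ∈ J → κ J = 0) ∧
        Dw volume (rb (m + 1)) X.Ω κ (fun J x => f J x - if J = ∅ then c else 0) := by
  obtain ⟨hnull, ⟨δ, hδ, hδ2⟩, hseg⟩ := geo m X.a X.b X.W X.h X.hW X.hUW X.ne X.hh X.hside
  refine ⟨δ, hδ, ?_, ?_⟩
  · have hK : IsCompact (closure X.U ∩ {z | (z 0).re ≤ (X.a 0).re + δ}) :=
      X.compact.inter_right (isClosed_le (by fun_prop) continuous_const)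
    obtain ⟨c, hc, hc2⟩ := X.lower hK inter_subset_left
      (fun z hz hzA => hδ2 z hz.1 hz.2 (X.hAh z hz.1 hzA))
    exact ⟨c, hc, fun z hz hz2 => hc2 z ⟨subset_closure (X.Ω_sub hz), hz2.le⟩⟩
  · intro f h1 h2 h3 h4 h5 h6
    have hbox := bbox_rb X.a X.b
    have hcore := core (Fin (m + 1) → ℂ) volume ((m + 1) * 2) (rb (m + 1))
      (fun i => (rb (m + 1)).repr X.a i) (fun i => (rb (m + 1)).repr X.b i) X.A (r m) (q m) δ f
      (r_ne_q m)
    rw [hbox] at hcore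
    have hrepr : ∀ x : Fin (m + 1) → ℂ, (rb (m + 1)).repr x (r m) = (x 0).re := fun x =>
      repr_ix0 x 0
    simp only [hrepr] at hcore
    refine hcore ?_ X.hA hδ ?_ ?_ ?_ h1 h2 h3 h4 h5 h6
    · intro i
      obtain ⟨z, hz⟩ := X.ne
      rw [← hbox] at hz
      exact (hz i).1.trans (hz i).2
    · intro x hx hx2 hxA
      exact hδ2 x (subset_closure hx) hx2.le (X.hAh x (subset_closure hx) hxA)
    · intro x hx
      obtain ⟨ζ, hζ1, hζ2⟩ := hseg x hx.1 δ hδ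
      have hv : ζ.re • rb (m + 1) (r m) + ζ.im • rb (m + 1) (q m) =
          (Pi.single 0 ζ : Fin (m + 1) → ℂ) := by
        unfold r q
        rw [rb_ix0, rb_ix1]
        funext j
        refine Fin.cases ?_ (fun j => ?_) j
        · simp only [Pi.add_apply, Pi.smul_apply, Pi.single_eq_same]
          apply Complex.ext <;> simp
        · simp
      refine ⟨ζ.re, ζ.im, ?_, ?_⟩
      · rw [hv]
        simpa using hζ1
      · intro τ hτ
        rw [hv]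
        rcases hτ.1.eq_or_lt with h0 | h0
        · rw [← h0, zero_smul, add_zero]
          exact hx
        · obtain ⟨h7, h8⟩ := hζ2 τ h0 hτ.2
          exact ⟨h7, fun hA => h8 (X.hAh _ (subset_closure h7) hA)⟩
    · intro φ hφ
      obtain ⟨ψ, hψ, hψ2⟩ := cap (m + 1) (cbox X.a X.b) X.W X.h X.U_open X.hW
        (subset_closure.trans X.hUW) X.hh hnull φ hφ
      refine ⟨ψ, fun i => (hψ i).mono fun x hx => ⟨hx.1, fun hA => hx.2 ?_⟩, hψ2⟩
      exact X.hAh x (subset_closure hx.1) hA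

end Chart

end L2P
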