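import Pool.Agent.Work.MP_ead3fc_ag.Defs
import Pool.Agent.Work.MP_ead3fc_ag.Alt

/-!
# The real basis of `ℂ^n` and pointwise estimates
-/

set_option autoImplicit false
set_option linter.unusedSectionVars false

open MeasureTheory Set Filter Topology
open scoped ENNReal

namespace L2P

/-- The real basis of `ℂ^n`. -/
noncomputable def rb (n : ℕ) : Module.Basis (Fin (n * 2)) ℝ (Fin n → ℂ) :=
  (Pi.basis fun _ : Fin n => Complex.basisOneI).reindex
    ((Equiv.sigmaEquivProd (Fin n) (Fin 2)).trans finProdFinEquiv)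

/-- Index of a real coordinate. -/
def ix {n : ℕ} (j : Fin n) (e : Fin 2) : Fin (n * 2) := finProdFinEquiv (j, e)

section
variable {n : ℕ}

lemma rb_ix (j : Fin n) (e : Fin 2) : rb n (ix j e) = Pi.single j (Complex.basisOneI e) := by
  unfold rb ix
  rw [Module.Basis.reindex_apply]
  simp only [Equiv.symm_trans_apply, Equiv.symm_apply_apply]
  simp [Equiv.sigmaEquivProd, Pi.basis_apply]

lemma rb_ix0 (j : Fin n) : rb n (ix j 0) = Pi.single j 1 := by
  rw [rb_ix]; simp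

lemma rb_ix1 (j : Fin n) : rb n (ix j 1) = Pi.single j Complex.I := by
  rw [rb_ix]; simp

lemma repr_ix (x : Fin n → ℂ) (j : Fin n) (e : Fin 2) :
    (rb n).repr x (ix j e) = Complex.basisOneI.repr (x j) e := by
  unfold rb ix
  rw [Module.Basis.repr_reindex_apply]
  simp only [Equiv.symm_trans_apply, Equiv.symm_apply_apply]
  simp [Equiv.sigmaEquivProd, Pi.basis_repr]

lemma repr_ix0 (x : Fin n → ℂ) (j : Fin n) : (rb n).repr x (ix j 0) = (x j).re := by
  rw [repr_ix]; simp [Complex.coe_basisOneI_repr]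

lemma repr_ix1 (x : Fin n → ℂ) (j : Fin n) : (rb n).repr x (ix j 1) = (x j).im := by
  rw [repr_ix]; simp [Complex.coe_basisOneI_repr]

lemma ix_surj (i : Fin (n * 2)) : ∃ j : Fin n, i = ix j 0 ∨ i = ix j 1 := by
  obtain ⟨⟨j, e⟩, rfl⟩ := (finProdFinEquiv (m := n) (n := 2)).surjective i
  refine ⟨j, ?_⟩
  fin_cases e
  · exact Or.inl rfl
  · exact Or.inr rfl

lemma ix_inj {j j' : Fin n} {e e' : Fin 2} (h : ix j e = ix j' e') : j = j' ∧ e = e' := by
  have := finProdFinEquiv.injective h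
  exact Prod.mk.injEq _ _ _ _ ▸ this

lemma bbox_rb (a b : Fin n → ℂ) :
    bbox (rb n) (fun i => (rb n).repr a i) (fun i => (rb n).repr b i) = cbox a b := by
  ext x
  constructor
  · intro h j
    have h0 := h (ix j 0)
    have h1 := h (ix j 1)
    simp only [repr_ix0, repr_ix1] at h0 h1
    exact ⟨h0.1, h0.2, h1.1, h1.2⟩
  · intro h i
    obtain ⟨j, hj | hj⟩ := ix_surj i
    · rw [hj]; simp only [repr_ix0]; exact ⟨(h j).1, (h j).2.1⟩
    · rw [hj]; simp only [repr_ix1]; exact (h j).2.2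

end

lemma prod_bound0 {k : ℕ} (u : Fin k → ℝ) {B : ℝ} (h0 : ∀ i, 0 ≤ u i) (h : ∀ i, u i ≤ B) :
    ∏ i, u i ≤ B ^ k := by
  have := Finset.prod_le_prod (s := Finset.univ) (fun i _ => h0 i) (fun i _ => h i)
  simpa using this

lemma prod_bound1 {k : ℕ} (u : Fin k → ℝ) {B B' : ℝ} (hB : 1 ≤ B) (hB' : 0 ≤ B')
    (h0 : ∀ i, 0 ≤ u i) (i0 : Fin k) (h : ∀ i, i ≠ i0 → u i ≤ B) (h1 : u i0 ≤ B') :
    ∏ i, u i ≤ B' * B ^ k := by
  rw [← Finset.mul_prod_erase _ _ (Finset.mem_univ i0)]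
  have h2 : ∏ i ∈ Finset.univ.erase i0, u i ≤ B ^ (Finset.univ.erase i0).card := by
    have := Finset.prod_le_prod (s := Finset.univ.erase i0) (fun i _ => h0 i)
      (fun i hi => h i (Finset.mem_erase.1 hi).1)
    rwa [Finset.prod_const] at this
  have h3 : B ^ (Finset.univ.erase i0).card ≤ B ^ k := by
    refine pow_le_pow_right₀ hB ?_
    rw [Finset.card_erase_of_mem (Finset.mem_univ _), Finset.card_univ, Fintype.card_fin]
    omega
  exact mul_le_mul h1 (h2.trans h3) (Finset.prod_nonneg fun i _ => h0 i) hB'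

section

variable {m N k : ℕ} {F : (Fin (m + 1) → ℂ) → EuclideanSpace ℂ (Fin N)} {x : Fin (m + 1) → ℂ}
  {C : ℝ}

/-- `ρ`. -/
noncomputable def rho (F : (Fin (m + 1) → ℂ) → EuclideanSpace ℂ (Fin N))
    (x : Fin (m + 1) → ℂ) : ℝ := ‖fderiv ℂ F x (Pi.single 0 1)‖

/-- The metric estimates at a point. -/
structure Est (F : (Fin (m + 1) → ℂ) → EuclideanSpace ℂ (Fin N)) (C : ℝ) (x : Fin (m + 1) → ℂ) :
    Prop where
  one : 1 ≤ C
  pos : 0 < rho F x
  dir : ∀ j, ‖fderiv ℂ F x (Pi.single j 1)‖ ≤ C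
  succ : ∀ v, ∀ j : Fin m, ‖v j.succ‖ ≤ C * ‖fderiv ℂ F x v‖
  zero : ∀ v, rho F x * ‖v 0‖ ≤ C * ‖fderiv ℂ F x v‖
  up : ‖gramDet F x‖ ≤ C * rho F x ^ 2
  low : rho F x ^ 2 ≤ C * ‖gramDet F x‖

lemma Est.rho_le (h : Est F C x) : rho F x ≤ C := h.dir 0

/-- norm of the image of a basis vector -/
lemma norm_rb (j : Fin (m + 1)) (e : Fin 2) :
    ‖fderiv ℂ F x (rb (m + 1) (ix j e))‖ = ‖fderiv ℂ F x (Pi.single j 1)‖ := by
  have h1 : rb (m + 1) (ix j e) = (Complex.basisOneI e) • (Pi.single j (1:ℂ) : Fin (m+1) → ℂ) := by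
    rw [rb_ix, ← Pi.single_smul]
    simp
  rw [h1, map_smul, norm_smul]
  have h2 : ‖Complex.basisOneI e‖ = 1 := by
    fin_cases e <;> simp
  rw [h2, one_mul]

/-- length bound of a basis vector -/
noncomputable def tb (F : (Fin (m + 1) → ℂ) → EuclideanSpace ℂ (Fin N)) (C : ℝ)
    (x : Fin (m + 1) → ℂ) (i : Fin ((m + 1) * 2)) : ℝ :=
  if i = ix 0 0 ∨ i = ix 0 1 then rho F x else C

lemma Est.tb_pos (h : Est F C x) (i : Fin ((m + 1) * 2)) : 0 < tb F C x i := by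
  unfold tb
  split_ifs
  · exact h.pos
  · linarith [h.one]

lemma Est.tb_le (h : Est F C x) (i : Fin ((m + 1) * 2)) : tb F C x i ≤ C := by
  unfold tb
  split_ifs
  · exact h.rho_le
  · exact le_rfl

lemma Est.norm_le_tb (h : Est F C x) (i : Fin ((m + 1) * 2)) :
    ‖fderiv ℂ F x (rb (m + 1) i)‖ ≤ tb F C x i := by
  unfold tb
  split_ifs with hi
  · rcases hi with hi | hi <;> rw [hi, norm_rb] <;> exact le_rfl
  · obtain ⟨j, hj | hj⟩ := ix_surj i
    · rw [hj, norm_rb]; exact h.dir j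
    · rw [hj, norm_rb]; exact h.dir j

lemma Est.coef_aux (h : Est F C x) (w : (Fin (m + 1) → ℂ) [⋀^Fin k]→L[ℝ] ℂ)
    (J : Finset (Fin ((m + 1) * 2))) (hJ : J.card = k) :
    ‖coef (rb (m + 1)) w J‖ₑ ≤
      ENNReal.ofReal (∏ i, tb F C x (J.orderEmbOfFin hJ i)) * normAt F x w := by
  have h1 : coef (rb (m + 1)) w J = (∏ i, tb F C x (J.orderEmbOfFin hJ i)) •
      w (fun i => (tb F C x (J.orderEmbOfFin hJ i))⁻¹ • rb (m + 1) (J.orderEmbOfFin hJ i)) := by
    unfold coef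
    rw [dif_pos hJ]
    have := w.toMultilinearMap.map_smul_univ (fun i => tb F C x (J.orderEmbOfFin hJ i))
      (fun i => (tb F C x (J.orderEmbOfFin hJ i))⁻¹ • rb (m + 1) (J.orderEmbOfFin hJ i))
    refine Eq.trans ?_ this
    refine congrArg w ?_
    funext i
    rw [smul_smul, mul_inv_cancel₀ (h.tb_pos _).ne', one_smul]
  rw [h1, enorm_smul]
  have h2 : 0 ≤ ∏ i, tb F C x (J.orderEmbOfFin hJ i) :=
    Finset.prod_nonneg fun i _ => (h.tb_pos _).le
  rw [Real.enorm_of_nonneg h2]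
  gcongr
  unfold normAt
  refine le_iSup (fun v : {v : Fin k → Fin (m + 1) → ℂ // ∀ i, ‖fderiv ℂ F x (v i)‖ ≤ 1} =>
    ‖w v.1‖ₑ) ⟨_, fun i => ?_⟩
  have h3 := h.norm_le_tb (J.orderEmbOfFin hJ i)
  have h4 := h.tb_pos (J.orderEmbOfFin hJ i)
  have h5 : fderiv ℂ F x ((tb F C x (J.orderEmbOfFin hJ i))⁻¹ • rb (m + 1) (J.orderEmbOfFin hJ i)) =
      (tb F C x (J.orderEmbOfFin hJ i))⁻¹ • fderiv ℂ F x (rb (m + 1) (J.orderEmbOfFin hJ i)) :=
    (fderiv ℂ F x).map_smul_of_tower _ _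
  rw [h5, norm_smul, norm_inv, Real.norm_of_nonneg h4.le, inv_mul_le_iff₀ h4, mul_one]
  exact h3

lemma Est.coef_le (h : Est F C x) (w : (Fin (m + 1) → ℂ) [⋀^Fin k]→L[ℝ] ℂ)
    (J : Finset (Fin ((m + 1) * 2))) :
    ‖coef (rb (m + 1)) w J‖ₑ ≤ ENNReal.ofReal (C ^ k) * normAt F x w := by
  by_cases hJ : J.card = k
  · refine (h.coef_aux w J hJ).trans ?_
    gcongr
    exact prod_bound0 _ (fun i => (h.tb_pos _).le) fun i => h.tb_le _
  · unfold coef
    rw [dif_neg hJ]; simp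

lemma Est.coef_le' (h : Est F C x) (w : (Fin (m + 1) → ℂ) [⋀^Fin k]→L[ℝ] ℂ)
    {J : Finset (Fin ((m + 1) * 2))} (hr : ix 0 0 ∈ J ∨ ix 0 1 ∈ J) :
    ‖coef (rb (m + 1)) w J‖ₑ ≤ ENNReal.ofReal (rho F x * C ^ k) * normAt F x w := by
  by_cases hJ : J.card = k
  · refine (h.coef_aux w J hJ).trans ?_
    gcongr
    have hex : ∃ i0, J.orderEmbOfFin hJ i0 = ix 0 0 ∨ J.orderEmbOfFin hJ i0 = ix 0 1 := by
      rcases hr with hr | hr
      · have : ix 0 0 ∈ Set.range (J.orderEmbOfFin hJ) := by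
          rw [Finset.range_orderEmbOfFin]; exact hr
        obtain ⟨i, hi⟩ := this
        exact ⟨i, Or.inl hi⟩
      · have : ix 0 1 ∈ Set.range (J.orderEmbOfFin hJ) := by
          rw [Finset.range_orderEmbOfFin]; exact hr
        obtain ⟨i, hi⟩ := this
        exact ⟨i, Or.inr hi⟩
    obtain ⟨i0, hi0⟩ := hex
    refine prod_bound1 _ h.one h.pos.le (fun i => (h.tb_pos _).le) i0 (fun i _ => h.tb_le _) ?_
    unfold tb
    rw [if_pos hi0]
  · unfold coef
    rw [dif_neg hJ]; simp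

lemma Est.repr_le (h : Est F C x) {v : Fin (m + 1) → ℂ} (hv : ‖fderiv ℂ F x v‖ ≤ 1)
    (i : Fin ((m + 1) * 2)) : |(rb (m + 1)).repr v i| ≤
      if i = ix 0 0 ∨ i = ix 0 1 then C / rho F x else C := by
  have hC0 : 0 < C := by linarith [h.one]
  obtain ⟨j, hj⟩ := ix_surj i
  have h1 : |(rb (m + 1)).repr v i| ≤ ‖v j‖ := by
    rcases hj with hj | hj
    · rw [hj, repr_ix0]; exact Complex.abs_re_le_norm _
    · rw [hj, repr_ix1]; exact Complex.abs_im_le_norm _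
  refine h1.trans ?_
  have h2 : ∀ t : ℝ, t ≤ C * ‖fderiv ℂ F x v‖ → t ≤ C := fun t ht =>
    ht.trans (by nlinarith [norm_nonneg (fderiv ℂ F x v)])
  refine Fin.cases ?_ ?_ j (motive := fun j => i = ix j 0 ∨ i = ix j 1 → ‖v j‖ ≤
    if i = ix 0 0 ∨ i = ix 0 1 then C / rho F x else C) hj
  · intro hj
    rw [if_pos hj, le_div_iff₀ h.pos, mul_comm]
    exact h2 _ (h.zero v)
  · intro j hj
    have : ¬ (i = ix 0 0 ∨ i = ix 0 1) := by
      rintro (h3 | h3) <;> rcases hj with h4 | h4 <;> rw [h3] at h4 <;>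
        exact absurd (ix_inj h4).1 (Fin.succ_ne_zero j).symm
    rw [if_neg this]
    exact h2 _ (h.succ v j)

lemma Est.normAt_le (h : Est F C x) (κ : Finset (Fin ((m + 1) * 2)) → ℂ)
    (hκ : ∀ J, ix 0 0 ∈ J → κ J = 0) (mk : (Finset (Fin ((m + 1) * 2)) → ℂ) →
      (Fin (m + 1) → ℂ) [⋀^Fin k]→L[ℝ] ℂ)
    (hmk : ∀ (κ : Finset (Fin ((m + 1) * 2)) → ℂ) (v : Fin k → Fin (m + 1) → ℂ), ‖mk κ v‖ ≤
        ∑ J : Finset (Fin ((m + 1) * 2)), if h : J.card = k then
          ∑ σ : Equiv.Perm (Fin k), ‖κ J‖ * ∏ i, |(rb (m + 1)).repr (v (σ i))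
            (J.orderEmbOfFin h i)| else 0) :
    normAt F x (mk κ) ≤
      ENNReal.ofReal (((k.factorial : ℝ) * C ^ (k + 1)) / rho F x * ∑ J, ‖κ J‖) := by
  have hC0 : 0 < C := by linarith [h.one]
  have hCρ : 1 ≤ C / rho F x := by rw [le_div_iff₀ h.pos, one_mul]; exact h.rho_le
  unfold normAt
  refine iSup_le fun v => ?_
  rw [← ofReal_norm]
  refine ENNReal.ofReal_le_ofReal ((hmk κ v.1).trans ?_)
  rw [Finset.mul_sum]
  refine Finset.sum_le_sum fun J _ => ?_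
  have h0 : 0 ≤ ((k.factorial : ℝ) * C ^ (k + 1)) / rho F x * ‖κ J‖ := by
    have := h.pos
    positivity
  split_ifs with hJ
  swap
  · exact h0
  by_cases hr : ix 0 0 ∈ J
  · rw [hκ J hr]; simp
  have hprod : ∀ σ : Equiv.Perm (Fin k), ∏ i, |(rb (m + 1)).repr (v.1 (σ i))
      (J.orderEmbOfFin hJ i)| ≤ C ^ (k + 1) / rho F x := by
    intro σ
    have hle := fun i => h.repr_le (v.2 (σ i)) (J.orderEmbOfFin hJ i)
    have hr' : ∀ i, J.orderEmbOfFin hJ i ≠ ix 0 0 := fun i hh =>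
      hr (hh ▸ Finset.orderEmbOfFin_mem J hJ i)
    by_cases hq : ∃ i0, J.orderEmbOfFin hJ i0 = ix 0 1
    · obtain ⟨i0, hi0⟩ := hq
      have := prod_bound1 (fun i => |(rb (m + 1)).repr (v.1 (σ i)) (J.orderEmbOfFin hJ i)|) h.one
        (B' := C / rho F x) (by positivity) (fun i => abs_nonneg _) i0 (fun i hi => by
          refine (hle i).trans ?_
          rw [if_neg]
          rintro (h1 | h1)
          · exact hr' i h1
          · exact hi ((J.orderEmbOfFin hJ).injective (h1.trans hi0.symm))) (by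
          refine (hle i0).trans ?_
          rw [if_pos (Or.inr hi0)])
      refine this.trans (le_of_eq ?_)
      rw [pow_succ]; ring
    · push Not at hq
      have := prod_bound0 (fun i => |(rb (m + 1)).repr (v.1 (σ i)) (J.orderEmbOfFin hJ i)|)
        (B := C) (fun i => abs_nonneg _) (fun i => by
          refine (hle i).trans ?_
          rw [if_neg]
          rintro (h1 | h1)
          · exact hr' i h1
          · exact hq i h1)
      refine this.trans ?_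
      rw [pow_succ, mul_div_assoc]
      exact le_mul_of_one_le_right (by positivity) hCρ
  calc ∑ σ : Equiv.Perm (Fin k), ‖κ J‖ * ∏ i, |(rb (m + 1)).repr (v.1 (σ i))
        (J.orderEmbOfFin hJ i)| ≤ ∑ _σ : Equiv.Perm (Fin k), ‖κ J‖ * (C ^ (k + 1) / rho F x) := by
        refine Finset.sum_le_sum fun σ _ => ?_
        gcongr
        exact hprod σ
    _ = _ := by
        rw [Finset.sum_const, Finset.card_univ, Fintype.card_perm, Fintype.card_fin, nsmul_eq_mul]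
        ring

end

end L2P
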