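import Mathlib

/-!
# MP_ead3fc_ag: L² Poincaré lemma at points of corank at most one

Public definitions (test functions, weak exterior derivative, L² forms for the metric induced by a
holomorphic map) and the statements `S_...` of the modules.
-/

set_option autoImplicit false

open MeasureTheory Set Filter Topology
open scoped ENNReal

namespace L2P

/-! ### Public definitions -/

/-- Smooth real functions with compact support contained in `Ω`. -/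
structure IsTest {E : Type*} [NormedAddCommGroup E] [NormedSpace ℝ E] (Ω : Set E) (φ : E → ℝ) :
    Prop where
  smooth : ContDiff ℝ ((⊤ : ℕ∞) : WithTop ℕ∞) φ
  cpt : HasCompactSupport φ
  sub : tsupport φ ⊆ Ω

/-- Complex valued differential `k`-forms on `ℂ^n` (no regularity). -/
abbrev Form (n k : ℕ) : Type := (Fin n → ℂ) → (Fin n → ℂ) [⋀^Fin k]→L[ℝ] ℂ

/-- `d η = ω` on `Ω` in the sense of distributions: `∫ (φ ω + dφ ∧ η) = 0` for all real test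
functions `φ` with compact support in `Ω`. -/
def WeakD {n k : ℕ} (Ω : Set (Fin n → ℂ)) (η : Form n k) (ω : Form n (k + 1)) : Prop :=
  ∀ φ : (Fin n → ℂ) → ℝ, IsTest Ω φ →
    ∫ x, (φ x • ω x + ContinuousAlternatingMap.alternatizeUncurryFin
      ((fderiv ℝ φ x).smulRight (η x))) = 0

/-- The Gram determinant of the partial derivatives of `F`: its absolute value is the volume
density of the metric `F^* (Euclidean metric)` with respect to Lebesgue measure. -/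
noncomputable def gramDet {n N : ℕ} (F : (Fin n → ℂ) → EuclideanSpace ℂ (Fin N))
    (x : Fin n → ℂ) : ℂ :=
  (Matrix.of fun i j : Fin n => inner ℂ (fderiv ℂ F x (Pi.single i 1))
    (fderiv ℂ F x (Pi.single j 1))).det

/-- The norm of an alternating form with respect to the metric `F^* (Euclidean metric)` at `x`:
supremum over all tuples of vectors of length at most one. -/
noncomputable def normAt {n N k : ℕ} (F : (Fin n → ℂ) → EuclideanSpace ℂ (Fin N))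
    (x : Fin n → ℂ) (w : (Fin n → ℂ) [⋀^Fin k]→L[ℝ] ℂ) : ℝ≥0∞ :=
  ⨆ v : {v : Fin k → Fin n → ℂ // ∀ i, ‖fderiv ℂ F x (v i)‖ ≤ 1}, ‖w v.1‖ₑ

/-- Square integrable forms on `Ω` for the metric `F^* (Euclidean metric)`. -/
structure IsL2 {n N k : ℕ} (F : (Fin n → ℂ) → EuclideanSpace ℂ (Fin N)) (Ω : Set (Fin n → ℂ))
    (ω : Form n k) : Prop where
  meas : AEStronglyMeasurable ω (volume.restrict Ω)
  fin : ∫⁻ x in Ω, normAt F x (ω x) ^ 2 * ‖gramDet F x‖ₑ < ∞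

/-- Open boxes in `ℂ^n`. -/
def cbox {n : ℕ} (a b : Fin n → ℂ) : Set (Fin n → ℂ) :=
  {z | ∀ j, (a j).re < (z j).re ∧ (z j).re < (b j).re ∧ (a j).im < (z j).im ∧
    (z j).im < (b j).im}

/-! ### Module statements -/

/-- CAP: zero sets of holomorphic functions have capacity zero. -/
def S_CAP : Prop :=
  ∀ (n : ℕ) (V W : Set (Fin n → ℂ)) (h : (Fin n → ℂ) → ℂ), IsOpen V → IsOpen W → V ⊆ W →
    DifferentiableOn ℂ h W → volume (V ∩ {z | h z = 0}) = 0 →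
    ∀ φ : (Fin n → ℂ) → ℝ, IsTest V φ →
      ∃ ψ : ℕ → (Fin n → ℂ) → ℝ, (∀ i, IsTest (V \ {z | h z = 0}) (ψ i)) ∧
        ∀ v : Fin n → ℂ, Tendsto (fun i => ∫⁻ x, ‖fderiv ℝ (ψ i) x v - fderiv ℝ φ x v‖ₑ ^ 2)
          atTop (𝓝 0)

/-- GEO: the zero set of `h` in the box: null, away from the side, and avoidable by segments in
the first variable. -/
def S_GEO : Prop :=
  ∀ (m : ℕ) (a b : Fin (m + 1) → ℂ) (W : Set (Fin (m + 1) → ℂ)) (h : (Fin (m + 1) → ℂ) → ℂ),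
    IsOpen W → closure (cbox a b) ⊆ W → (cbox a b).Nonempty → DifferentiableOn ℂ h W →
    (∀ z ∈ closure (cbox a b), (z 0).re = (a 0).re → h z ≠ 0) →
    volume (cbox a b ∩ {z | h z = 0}) = 0 ∧
    (∃ δ : ℝ, 0 < δ ∧ ∀ z ∈ closure (cbox a b), (z 0).re ≤ (a 0).re + δ → h z ≠ 0) ∧
    (∀ z ∈ cbox a b, ∀ δ : ℝ, 0 < δ → ∃ ζ : ℂ, (z 0 + ζ).re < (a 0).re + δ ∧
      ∀ t : ℝ, 0 < t → t ≤ 1 → z + t • (Pi.single 0 ζ : Fin (m + 1) → ℂ) ∈ cbox a b ∧
        h (z + t • (Pi.single 0 ζ : Fin (m + 1) → ℂ)) ≠ 0)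

/-- METRIC: the metric is quasi-isometric to `ρ² |dz_0|² + |dz'|²`. -/
def S_METRIC : Prop :=
  ∀ (m N : ℕ) (K W : Set (Fin (m + 1) → ℂ)) (F : (Fin (m + 1) → ℂ) → EuclideanSpace ℂ (Fin N))
    (L : EuclideanSpace ℂ (Fin N) →L[ℂ] (Fin m → ℂ)), IsCompact K → IsOpen W → K ⊆ W →
    DifferentiableOn ℂ F W → (∀ z ∈ W, ∀ j : Fin m, L (F z) j = z j.succ) →
    ∃ C : ℝ, 1 ≤ C ∧ ∀ z ∈ K,
      (∀ j, ‖fderiv ℂ F z (Pi.single j 1)‖ ≤ C) ∧
      (∀ v, (∀ j : Fin m, ‖v j.succ‖ ≤ C * ‖fderiv ℂ F z v‖) ∧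
        ‖fderiv ℂ F z (Pi.single 0 1)‖ * ‖v 0‖ ≤ C * ‖fderiv ℂ F z v‖) ∧
      ‖gramDet F z‖ ≤ C * ‖fderiv ℂ F z (Pi.single 0 1)‖ ^ 2 ∧
      ‖fderiv ℂ F z (Pi.single 0 1)‖ ^ 2 ≤ C * ‖gramDet F z‖

section

variable {E : Type*} [NormedAddCommGroup E] [NormedSpace ℝ E] {d : ℕ}

/-- Sign of the position of `j` in `K`. -/
def sg (j : Fin d) (K : Finset (Fin d)) : ℝ := (-1) ^ (K.filter (· < j)).card

/-- Coefficients of an alternating form in a basis, indexed by all finite sets (zero if the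
cardinality is wrong). -/
noncomputable def coef {q : ℕ} (b : Module.Basis (Fin d) ℝ E) (w : E [⋀^Fin q]→L[ℝ] ℂ)
    (J : Finset (Fin d)) : ℂ :=
  if h : J.card = q then w (fun i => b (J.orderEmbOfFin h i)) else 0

end

/-- ALT: coefficients of alternating forms. -/
def S_ALT : Prop :=
  ∀ (E : Type) [NormedAddCommGroup E] [NormedSpace ℝ E] [FiniteDimensional ℝ E] (d q : ℕ)
    (b : Module.Basis (Fin d) ℝ E),
    (∀ (l : E →L[ℝ] ℝ) (w : E [⋀^Fin q]→L[ℝ] ℂ) (J : Finset (Fin d)), J.card = q + 1 →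
      coef b (ContinuousAlternatingMap.alternatizeUncurryFin (l.smulRight w)) J =
        ∑ j ∈ J, (sg j J * l (b j)) • coef b w (J.erase j)) ∧
    (∀ w w' : E [⋀^Fin q]→L[ℝ] ℂ, (∀ J, coef b w J = coef b w' J) → w = w') ∧
    (∃ mk : (Finset (Fin d) → ℂ) →L[ℝ] E [⋀^Fin q]→L[ℝ] ℂ,
      (∀ (k : Finset (Fin d) → ℂ) (J : Finset (Fin d)), J.card = q → coef b (mk k) J = k J) ∧
      ∀ (k : Finset (Fin d) → ℂ) (v : Fin q → E), ‖mk k v‖ ≤
        ∑ J : Finset (Fin d), if h : J.card = q then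
          ∑ σ : Equiv.Perm (Fin q), ‖k J‖ * ∏ i, |b.repr (v (σ i)) (J.orderEmbOfFin h i)| else 0)

section

variable {E : Type*} [NormedAddCommGroup E] [NormedSpace ℝ E] [MeasurableSpace E] {d : ℕ}

/-- Open boxes in the coordinates of a basis. -/
def bbox (b : Module.Basis (Fin d) ℝ E) (lo hi : Fin d → ℝ) : Set E :=
  {x | ∀ i, lo i < b.repr x i ∧ b.repr x i < hi i}

/-- Weakly closed families of coefficients. -/
def Cl (μ : Measure E) (b : Module.Basis (Fin d) ℝ E) (Ω : Set E)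
    (f : Finset (Fin d) → E → ℂ) : Prop :=
  ∀ (K : Finset (Fin d)) (φ : E → ℝ), IsTest Ω φ →
    ∑ j ∈ K, sg j K • ∫ x, fderiv ℝ φ x (b j) • f (K.erase j) x ∂μ = 0

/-- `d κ = f`, weakly, for families of coefficients. -/
def Dw (μ : Measure E) (b : Module.Basis (Fin d) ℝ E) (Ω : Set E)
    (κ f : Finset (Fin d) → E → ℂ) : Prop :=
  ∀ (J : Finset (Fin d)) (φ : E → ℝ), IsTest Ω φ →
    ∑ j ∈ J, sg j J • ∫ x, fderiv ℝ φ x (b j) • κ (J.erase j) x ∂μ = - ∫ x, φ x • f J x ∂μ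

/-- Square integrable functions vanishing off `Ω`. -/
structure Good (μ : Measure E) (Ω : Set E) (f : E → ℂ) : Prop where
  meas : StronglyMeasurable f
  zero : ∀ x, x ∉ Ω → f x = 0
  l2 : ∫⁻ x, ‖f x‖ₑ ^ 2 ∂μ < ∞

end

/-- CORE: the real variable theorem. -/
def S_CORE : Prop :=
  ∀ (E : Type) [NormedAddCommGroup E] [NormedSpace ℝ E] [FiniteDimensional ℝ E]
    [MeasurableSpace E] [BorelSpace E] (μ : Measure E) [μ.IsAddHaarMeasure] (d : ℕ)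
    (b : Module.Basis (Fin d) ℝ E) (lo hi : Fin d → ℝ) (A : Set E) (r q : Fin d) (δ : ℝ)
    (f : Finset (Fin d) → E → ℂ), r ≠ q → (∀ i, lo i < hi i) → IsClosed A → 0 < δ →
    (∀ x ∈ bbox b lo hi, b.repr x r < lo r + δ → x ∉ A) →
    (∀ x ∈ bbox b lo hi \ A, ∃ s t : ℝ, b.repr (x + (s • b r + t • b q)) r < lo r + δ ∧
      ∀ τ ∈ Icc (0 : ℝ) 1, x + τ • (s • b r + t • b q) ∈ bbox b lo hi \ A) →
    (∀ φ : E → ℝ, IsTest (bbox b lo hi) φ → ∃ ψ : ℕ → E → ℝ,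
      (∀ i, IsTest (bbox b lo hi \ A) (ψ i)) ∧ ∀ v : E,
        Tendsto (fun i => ∫⁻ x, ‖fderiv ℝ (ψ i) x v - fderiv ℝ φ x v‖ₑ ^ 2 ∂μ) atTop (𝓝 0)) →
    (∀ J, StronglyMeasurable (f J)) → (∀ J, ∀ x ∉ bbox b lo hi \ A, f J x = 0) →
    (∀ J, r ∈ J ∨ q ∈ J → ∫⁻ x, ‖f J x‖ₑ ^ 2 ∂μ < ∞) →
    (∀ J, ∫⁻ x in {x | b.repr x r < lo r + δ}, ‖f J x‖ₑ ^ 2 ∂μ < ∞) →
    (∀ J, ∀ C : Set E, IsCompact C → C ⊆ bbox b lo hi \ A → ∫⁻ x in C, ‖f J x‖ₑ ^ 2 ∂μ < ∞) →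
    Cl μ b (bbox b lo hi \ A) f →
    ∃ (c : ℂ) (κ : Finset (Fin d) → E → ℂ), (∀ J, Good μ (bbox b lo hi) (κ J)) ∧
      (∀ J, r ∈ J → κ J = 0) ∧
      Dw μ b (bbox b lo hi \ A) κ (fun J x => f J x - if J = ∅ then c else 0)

end L2P
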