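import Pool.Agent.Work.MP_ead3fc_ag.Defs

/-!
# Second stage: smooth forms
-/

set_option autoImplicit false

open MeasureTheory Set Filter Topology
open scoped ENNReal

namespace L2P

/-- REG: a weak square integrable primitive of a smooth form can be replaced by a smooth one.
`Ω` is open, `F` is a holomorphic immersion on `Ω` with bounded derivative. -/
def S_REG : Prop :=
  ∀ (n N k : ℕ) (Ω : Set (Fin n → ℂ)) (F : (Fin n → ℂ) → EuclideanSpace ℂ (Fin N))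
    (ω : Form n (k + 1)) (η : Form n k) (C : ℝ), IsOpen Ω → DifferentiableOn ℂ F Ω →
    (∀ z ∈ Ω, ‖fderiv ℂ F z‖ ≤ C) → (∀ z ∈ Ω, Function.Injective (fderiv ℂ F z)) →
    ContDiffOn ℝ ((⊤ : ℕ∞) : WithTop ℕ∞) ω Ω → IsL2 F Ω ω → IsL2 F Ω η → WeakD Ω η ω →
    ∃ η' : Form n k, ContDiffOn ℝ ((⊤ : ℕ∞) : WithTop ℕ∞) η' Ω ∧ IsL2 F Ω η' ∧
      ∀ x ∈ Ω, extDeriv η' x = ω x

/-- WOS: smooth closed forms are weakly closed. -/
def S_WOS : Prop :=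
  ∀ (n k : ℕ) (Ω : Set (Fin n → ℂ)) (ω : Form n k), IsOpen Ω →
    ContDiffOn ℝ ((⊤ : ℕ∞) : WithTop ℕ∞) ω Ω → (∀ x ∈ Ω, extDeriv ω x = 0) →
    WeakD Ω ω 0

end L2P
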