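import Pool.Agent.Work.MP_ead3fc_ag.Ker

/-!
# The homotopy identity
-/

set_option autoImplicit false
set_option linter.unusedSectionVars false

open MeasureTheory Set Filter Topology
open scoped ENNReal Interval

namespace L2P

section

variable {E : Type} [NormedAddCommGroup E] [NormedSpace ℝ E]

/-- Derivatives of test functions are test functions. -/
lemma IsTest.deriv {Ω : Set E} {φ : E → ℝ} (h : IsTest Ω φ) (v : E) :
    IsTest Ω (fun y => fderiv ℝ φ y v) := by
  refine ⟨?_, h.cpt.fderiv_apply ℝ v, (tsupport_fderiv_apply_subset ℝ v).trans h.sub⟩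
  have h1 : ContDiff ℝ ((⊤ : ℕ∞) : WithTop ℕ∞) (fderiv ℝ φ) := h.smooth.fderiv_right (by simp)
  exact h1.clm_apply contDiff_const

end

section

variable {E : Type} [NormedAddCommGroup E] [NormedSpace ℝ E] [FiniteDimensional ℝ E]
  [MeasurableSpace E] [BorelSpace E] {μ : Measure E} [μ.IsAddHaarMeasure]

/-- Locally square integrable on `Ω`. -/
structure Loc (μ : Measure E) (Ω : Set E) (f : E → ℂ) : Prop where
  meas : StronglyMeasurable f
  l2 : ∀ C : Set E, IsCompact C → C ⊆ Ω → ∫⁻ x in C, ‖f x‖ₑ ^ 2 ∂μ < ∞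

variable {Ω U : Set E} {f : E → ℂ} {φ : E → ℝ}

lemma Good.loc (h : Good μ U f) (Ω : Set E) : Loc μ Ω f :=
  ⟨h.meas, fun _ _ _ => lt_of_le_of_lt (setLIntegral_le_lintegral _ _) h.l2⟩

lemma Loc.mono (h : Loc μ Ω f) {Ω' : Set E} (hΩ : Ω' ⊆ Ω) : Loc μ Ω' f :=
  ⟨h.meas, fun C hC hC' => h.l2 C hC (hC'.trans hΩ)⟩

lemma Loc.int (h : Loc μ Ω f) (hφ : IsTest Ω φ) : Integrable (fun x => φ x • f x) μ := by
  have h1 : IntegrableOn f (tsupport φ) μ :=
    integrableOn_of_l2 hφ.cpt.measure_lt_top h.meas (h.l2 _ hφ.cpt hφ.sub)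
  obtain ⟨M, hM⟩ := hφ.smooth.continuous.bounded_above_of_compact_support hφ.cpt
  have h2 : IntegrableOn (fun x => φ x • f x) (tsupport φ) μ :=
    Integrable.bdd_smul h1 M hφ.smooth.continuous.aestronglyMeasurable
      (Eventually.of_forall hM)
  rwa [integrableOn_iff_integrable_of_support_subset] at h2
  intro x hx
  by_contra hcon
  apply hx
  simp only
  rw [image_eq_zero_of_notMem_tsupport hcon, zero_smul]

variable {d : ℕ} {b : Module.Basis (Fin d) ℝ E} {r : Fin d} {D : Dir E}

/-- `D` is the direction of the index `r`. -/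
structure Dir.Of (D : Dir E) (b : Module.Basis (Fin d) ℝ E) (r : Fin d) : Prop where
  he : D.e = b r
  hc : ∀ x, D.c x = b.repr x r

lemma Dir.Of.c_ne (h : D.Of b r) {j : Fin d} (hj : j ≠ r) : D.c (b j) = 0 := by
  rw [h.hc, b.repr_self, Finsupp.single_apply, if_neg hj]

/-- The homotopy operator on families. -/
noncomputable def kap (D : Dir E) (U : Set E) (r : Fin d) (f : Finset (Fin d) → E → ℂ)
    (J : Finset (Fin d)) : E → ℂ :=
  if r ∈ J then 0 else fun x => sg r J • D.K U (f (insert r J)) x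

/-- The average on families. -/
noncomputable def pro (D : Dir E) (U : Set E) (r : Fin d) (f : Finset (Fin d) → E → ℂ)
    (J : Finset (Fin d)) : E → ℂ :=
  if r ∈ J then 0 else D.P U (f J)

variable {f : Finset (Fin d) → E → ℂ}

lemma hom_mem (hD : D.Of b r) (hU : D.Box U) {J : Finset (Fin d)} (hr : r ∈ J)
    (hf : Good μ U (f J)) (hφ : IsTest U φ) :
    ∑ j ∈ J, sg j J • ∫ x, fderiv ℝ φ x (b j) • kap D U r f (J.erase j) x ∂μ =
      - ∫ x, φ x • f J x ∂μ := by
  have hd := hφ.deriv (b r)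
  rw [Finset.sum_eq_single_of_mem r hr]
  · have h1 : ∀ x, kap D U r f (J.erase r) x = sg r J • D.K U (f J) x := by
      intro x
      unfold kap
      rw [if_neg (Finset.notMem_erase r J), Finset.insert_erase hr, sg_erase hr]
    simp only [h1, smul_comm _ (sg r J)]
    rw [integral_smul, smul_smul, sg_sq, one_smul,
      Dir.adj_K hf.meas (hf.integrable hU) hd.smooth.continuous hd.cpt
        (fun x hx => zero_of_notMem hd hx), ← integral_neg]
    refine integral_congr_ae (Eventually.of_forall fun x => ?_)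
    simp only
    by_cases hx : x ∈ U
    · have h2 := Dir.T_dir hU hφ hx
      rw [hD.he] at h2
      rw [h2, neg_smul]
    · rw [hf.zero x hx, smul_zero, smul_zero, neg_zero]
  · intro j hj hne
    have h1 : kap D U r f (J.erase j) = 0 := by
      unfold kap
      rw [if_pos (Finset.mem_erase.2 ⟨hne.symm, hr⟩)]
    rw [h1]
    simp

lemma hom_notMem (hD : D.Of b r) (hU : D.Box U) {J : Finset (Fin d)} (hr : r ∉ J)
    (hf : ∀ j ∈ J, Good μ U (f (insert r (J.erase j)))) (h0 : ∀ x, x ∉ U → f J x = 0)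
    (hi1 : Integrable (fun x => φ x • f J x) μ) (hi2 : Integrable (fun x => D.S φ x • f J x) μ)
    (hP : ∫ x, φ x • D.P U (f J) x ∂μ = ∫ x, D.S φ x • f J x ∂μ) (hφ : IsTest U φ)
    (hcl : ∑ j ∈ insert r J, sg j (insert r J) •
      ∫ x, fderiv ℝ (D.T φ) x (b j) • f ((insert r J).erase j) x ∂μ = 0) :
    ∑ j ∈ J, sg j J • ∫ x, fderiv ℝ φ x (b j) • kap D U r f (J.erase j) x ∂μ =
      - ∫ x, φ x • f J x ∂μ + ∫ x, φ x • D.P U (f J) x ∂μ := by
  -- each term
  have h1 : ∀ j ∈ J, sg j J • ∫ x, fderiv ℝ φ x (b j) • kap D U r f (J.erase j) x ∂μ =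
      - sg r J • (sg j (insert r J) •
        ∫ x, fderiv ℝ (D.T φ) x (b j) • f ((insert r J).erase j) x ∂μ) := by
    intro j hj
    have hne : j ≠ r := fun h => hr (h ▸ hj)
    have hd := hφ.deriv (b j)
    have h2 : ∀ x, kap D U r f (J.erase j) x =
        sg r (J.erase j) • D.K U (f (insert r (J.erase j))) x := by
      intro x
      unfold kap
      rw [if_neg (fun h => hr (Finset.mem_of_mem_erase h))]
    have h3 : (insert r J).erase j = insert r (J.erase j) := by
      rw [Finset.erase_insert_of_ne hne.symm]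
    simp only [h2, smul_comm _ (sg r (J.erase j))]
    rw [integral_smul, smul_smul, sg_swap hj hr, h3,
      Dir.adj_K (hf j hj).meas ((hf j hj).integrable hU) hd.smooth.continuous hd.cpt
        (fun x hx => zero_of_notMem hd hx), smul_smul, neg_mul]
    congr 1
    refine integral_congr_ae (Eventually.of_forall fun x => ?_)
    simp only
    rw [D.T_fderiv hφ.smooth, hD.c_ne hne, zero_mul, add_zero]
  rw [Finset.sum_congr rfl h1, ← Finset.smul_sum]
  rw [Finset.sum_insert hr, sg_insert hr, Finset.erase_insert hr] at hcl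
  have h4 : ∑ j ∈ J, sg j (insert r J) •
      ∫ x, fderiv ℝ (D.T φ) x (b j) • f ((insert r J).erase j) x ∂μ =
      - (sg r J • ∫ x, fderiv ℝ (D.T φ) x (b r) • f J x ∂μ) := by
    rw [eq_neg_iff_add_eq_zero, add_comm]
    exact hcl
  rw [h4, smul_neg, neg_smul, neg_neg, smul_smul, sg_sq, one_smul, hP, ← integral_neg]
  refine Eq.trans ?_ (integral_add (f := fun x => -(φ x • f J x)) hi1.neg hi2)
  refine integral_congr_ae (Eventually.of_forall fun x => ?_)
  simp only
  by_cases hx : x ∈ U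
  · have h5 := Dir.T_dir hU hφ hx
    have h6 := D.T_fderiv hφ.smooth x D.e
    rw [D.ce, one_mul, h5, hD.he] at h6
    rw [h6, add_smul, neg_smul]
  · rw [h0 x hx, smul_zero, smul_zero, smul_zero, neg_zero, add_zero]

end

end L2P
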