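import Pool.Agent.Work.MP_ead3fc_ag.Defs

/-!
# Signs
-/

set_option autoImplicit false

namespace L2P

variable {d : ℕ}

lemma sg_insert' {r : Fin d} {J : Finset (Fin d)} (hr : r ∉ J) (j : Fin d) :
    sg j (insert r J) = sg j J * (if r < j then -1 else 1) := by
  classical
  unfold sg
  rw [Finset.filter_insert]
  split_ifs with h
  · rw [Finset.card_insert_of_notMem (fun hh => hr (Finset.mem_filter.1 hh).1), pow_succ]
  · rw [mul_one]

lemma sg_erase' {r : Fin d} {J : Finset (Fin d)} (hr : r ∈ J) (j : Fin d) :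
    sg j (J.erase r) = sg j J * (if r < j then -1 else 1) := by
  have h := sg_insert' (Finset.notMem_erase r J) j
  rw [Finset.insert_erase hr] at h
  rw [h]
  split_ifs <;> ring

lemma sg_insert {r : Fin d} {J : Finset (Fin d)} (hr : r ∉ J) : sg r (insert r J) = sg r J := by
  rw [sg_insert' hr, if_neg (lt_irrefl _), mul_one]

lemma sg_erase {r : Fin d} {J : Finset (Fin d)} (hr : r ∈ J) : sg r (J.erase r) = sg r J := by
  rw [sg_erase' hr, if_neg (lt_irrefl _), mul_one]

lemma sg_sq (r : Fin d) (J : Finset (Fin d)) : sg r J * sg r J = 1 := by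
  unfold sg
  rw [← pow_add, ← two_mul, pow_mul]
  norm_num

lemma sg_swap {j r : Fin d} {J : Finset (Fin d)} (hj : j ∈ J) (hr : r ∉ J) :
    sg j J * sg r (J.erase j) = - (sg r J * sg j (insert r J)) := by
  rw [sg_erase' hj, sg_insert' hr]
  have hne : j ≠ r := fun h => hr (h ▸ hj)
  rcases lt_or_gt_of_ne hne with h | h
  · rw [if_pos h, if_neg (not_lt.2 h.le)]; ring
  · rw [if_pos h, if_neg (not_lt.2 h.le)]; ring

lemma sg_anti {j l : Fin d} {J : Finset (Fin d)} (hj : j ∈ J) (hl : l ∈ J) (hne : j ≠ l) :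
    sg j J * sg l (J.erase j) = - (sg l J * sg j (J.erase l)) := by
  rw [sg_erase' hj, sg_erase' hl]
  rcases lt_or_gt_of_ne hne with h | h
  · rw [if_pos h, if_neg (not_lt.2 h.le)]; ring
  · rw [if_pos h, if_neg (not_lt.2 h.le)]; ring

end L2P
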