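import Pool.Agent.Work.MP_ead3fc_ag.Adj
import Pool.Agent.Work.MP_ead3fc_ag.Sign

/-!
# The operators `K` and `P`
-/

set_option autoImplicit false
set_option linter.unusedSectionVars false

open MeasureTheory Set Filter Topology
open scoped ENNReal Interval

namespace L2P

section

variable {E : Type} [NormedAddCommGroup E] [NormedSpace ℝ E] [FiniteDimensional ℝ E]
  [MeasurableSpace E] [BorelSpace E] {μ : Measure E} [μ.IsAddHaarMeasure]

noncomputable def kK (D : Dir E) (σ t : ℝ) : ℝ := (if σ ≤ 0 then 1 else 0) - Hs D.p D.q t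

noncomputable def kP (D : Dir E) (_ t : ℝ) : ℝ := chi D.p D.q t

lemma kK_meas (D : Dir E) : Measurable (Function.uncurry (kK D)) := by
  have h1 : Measurable (fun z : ℝ × ℝ => (if z.1 ≤ 0 then (1:ℝ) else 0)) :=
    Measurable.ite (measurableSet_le measurable_fst measurable_const) measurable_const
      measurable_const
  have h2 : Measurable (fun z : ℝ × ℝ => Hs D.p D.q z.2) :=
    (Hs_contDiff _ _).continuous.measurable.comp measurable_snd
  exact h1.sub h2

lemma kP_meas (D : Dir E) : Measurable (Function.uncurry (kP D)) :=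
  (chi_contDiff _ _).continuous.measurable.comp measurable_snd

lemma kK_bdd (D : Dir E) (σ t : ℝ) : |kK D σ t| ≤ 1 := by
  unfold kK
  have h1 := Hs_nonneg D.p D.q t
  have h2 := Hs_le_one D.p D.q t
  split_ifs
  · rw [abs_le]; constructor <;> linarith
  · rw [abs_le]; constructor <;> linarith

/-- The operator `K`. -/
noncomputable def Dir.K (D : Dir E) (U : Set E) (f : E → ℂ) : E → ℂ := lin D U (kK D) f

/-- The operator `P`. -/
noncomputable def Dir.P (D : Dir E) (U : Set E) (f : E → ℂ) : E → ℂ := lin D U (kP D) f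

variable {D : Dir E} {U : Set E} {f : E → ℂ}

lemma Dir.K_good (hU : MeasurableSet U) (hf : StronglyMeasurable f)
    (hf2 : ∫⁻ x, ‖f x‖ₑ ^ 2 ∂μ < ∞) : Good μ U (D.K U f) :=
  lin_good hU (kK_meas D) (kK_bdd D) hf hf2

lemma Dir.P_good (hU : MeasurableSet U) (hf : StronglyMeasurable f)
    (hf2 : ∫⁻ x, ‖f x‖ₑ ^ 2 ∂μ < ∞) : Good μ U (D.P U f) := by
  obtain ⟨B, hB0, hB⟩ := chi_bdd D.h2
  exact lin_good hU (kP_meas D) (fun _ t => hB t) hf hf2

lemma interval_flip (φ : E → ℝ) (y e : E) (a b : ℝ) :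
    ∫ σ in a..b, φ (y - σ • e) = avg (-b) (-a) e φ y := by
  unfold avg
  rw [← intervalIntegral.integral_comp_neg]
  refine intervalIntegral.integral_congr fun σ _ => ?_
  simp only [neg_smul, sub_eq_add_neg]

lemma kernel_K (D : Dir E) {φ : E → ℝ} (hφ : Continuous φ) (y : E) :
    ∫ σ in Ioc (-D.L) D.L, kK D σ (D.c y) * φ (y - σ • D.e) = D.T φ y := by
  have hL := D.L_pos
  have hc : Continuous fun σ : ℝ => φ (y - σ • D.e) := hφ.comp (by fun_prop)
  rw [← intervalIntegral.integral_of_le (by linarith)]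
  have hi : ∀ a b : ℝ, IntervalIntegrable (fun σ => φ (y - σ • D.e)) volume a b := fun a b =>
    hc.intervalIntegrable _ _
  have h1 : ∫ σ in (-D.L)..0, kK D σ (D.c y) * φ (y - σ • D.e) =
      (1 - Hs D.p D.q (D.c y)) * ∫ σ in (-D.L)..0, φ (y - σ • D.e) := by
    rw [← intervalIntegral.integral_const_mul]
    refine intervalIntegral.integral_congr fun σ hσ => ?_
    rw [uIcc_of_le (by linarith)] at hσ
    simp only [kK, if_pos hσ.2]
  have h2 : ∫ σ in (0:ℝ)..D.L, kK D σ (D.c y) * φ (y - σ • D.e) =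
      (0 - Hs D.p D.q (D.c y)) * ∫ σ in (0:ℝ)..D.L, φ (y - σ • D.e) := by
    rw [← intervalIntegral.integral_const_mul]
    refine intervalIntegral.integral_congr_ae (Eventually.of_forall fun σ hσ => ?_)
    rw [uIoc_of_le hL.le] at hσ
    simp only [kK, if_neg (not_le.2 hσ.1)]
  have hik : ∀ a b : ℝ, IntervalIntegrable (fun σ => kK D σ (D.c y) * φ (y - σ • D.e)) volume
      a b := by
    intro a b
    have h3 : IntervalIntegrable (fun σ => φ (y - σ • D.e)) volume a b := hi a b
    rw [intervalIntegrable_iff] at h3 ⊢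
    refine Integrable.bdd_mul h3 (c := 1) ?_ (Eventually.of_forall fun σ => ?_)
    · have : Measurable fun σ : ℝ => kK D σ (D.c y) :=
        (kK_meas D).comp (measurable_id.prodMk measurable_const)
      exact this.aestronglyMeasurable
    · exact kK_bdd D σ _
  rw [← intervalIntegral.integral_add_adjacent_intervals (hik _ 0) (hik 0 _), h1, h2,
    interval_flip, interval_flip, neg_neg, neg_zero]
  unfold Dir.T
  have h4 : avg (-D.L) D.L D.e φ y = avg (-D.L) 0 D.e φ y + avg 0 D.L D.e φ y := by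
    unfold avg
    rw [intervalIntegral.integral_add_adjacent_intervals]
    · exact (hφ.comp (by fun_prop)).intervalIntegrable _ _
    · exact (hφ.comp (by fun_prop)).intervalIntegrable _ _
  rw [h4]; ring

lemma kernel_P (D : Dir E) (φ : E → ℝ) (y : E) :
    ∫ σ in Ioc (-D.L) D.L, kP D σ (D.c y) * φ (y - σ • D.e) = D.S φ y := by
  have hL := D.L_pos
  unfold kP
  rw [integral_const_mul, ← intervalIntegral.integral_of_le (by linarith), interval_flip, neg_neg]
  rfl

lemma Dir.adj_K (hfm : StronglyMeasurable f) (hf : Integrable f μ) {φ : E → ℝ}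
    (hφ : Continuous φ) (hφc : HasCompactSupport φ) (hφU : ∀ x, x ∉ U → φ x = 0) :
    ∫ x, φ x • D.K U f x ∂μ = ∫ x, D.T φ x • f x ∂μ := by
  unfold Dir.K
  rw [lin_adj (kK_meas D) (kK_bdd D) hfm hf hφ hφc hφU]
  simp only [kernel_K D hφ]

lemma Dir.adj_P (hfm : StronglyMeasurable f) (hf : Integrable f μ) {φ : E → ℝ}
    (hφ : Continuous φ) (hφc : HasCompactSupport φ) (hφU : ∀ x, x ∉ U → φ x = 0) :
    ∫ x, φ x • D.P U f x ∂μ = ∫ x, D.S φ x • f x ∂μ := by
  obtain ⟨B, hB0, hB⟩ := chi_bdd D.h2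
  unfold Dir.P
  rw [lin_adj (kP_meas D) (fun _ t => hB t) hfm hf hφ hφc hφU]
  simp only [kernel_P D]

/-- `P` only sees the strip. -/
lemma Dir.P_strip (D : Dir E) (U : Set E) (f : E → ℂ) :
    D.P U f = D.P U ({x | D.c x ≤ D.q}.indicator f) := by
  unfold Dir.P lin
  congr 1
  funext x
  refine setIntegral_congr_fun measurableSet_Ioc fun σ _ => ?_
  by_cases h : D.c (x + σ • D.e) ≤ D.q
  · rw [indicator_of_mem (show x + σ • D.e ∈ {x | D.c x ≤ D.q} from h)]
  · rw [indicator_of_notMem (show x + σ • D.e ∉ {x | D.c x ≤ D.q} from h)]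
    unfold kP
    rw [D.c_add] at h
    rw [chi_right D.h2 (not_le.1 h), zero_smul, zero_smul]

lemma Dir.S_strip (D : Dir E) (φ : E → ℝ) (f : E → ℂ) (x : E) :
    D.S φ x • f x = D.S φ x • ({x | D.c x ≤ D.q}.indicator f) x := by
  by_cases h : D.c x ≤ D.q
  · rw [indicator_of_mem (show x ∈ {x | D.c x ≤ D.q} from h)]
  · rw [indicator_of_notMem (show x ∉ {x | D.c x ≤ D.q} from h)]
    unfold Dir.S
    rw [chi_right D.h2 (not_le.1 h), zero_mul, zero_smul, zero_smul]

/-- square integrable functions on sets of finite measure are integrable. -/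
lemma integrableOn_of_l2 {C : Set E} (hC : μ C < ∞) (hf : StronglyMeasurable f)
    (h : ∫⁻ x in C, ‖f x‖ₑ ^ 2 ∂μ < ∞) : IntegrableOn f C μ := by
  have hfin : IsFiniteMeasure (μ.restrict C) := ⟨by rwa [Measure.restrict_apply_univ]⟩
  have h2 : MemLp f 2 (μ.restrict C) := by
    refine ⟨hf.aestronglyMeasurable, ?_⟩
    rw [eLpNorm_lt_top_iff_lintegral_rpow_enorm_lt_top (by norm_num) (by norm_num)]
    simpa using h
  exact h2.integrable (by norm_num)

lemma Good.integrable (hU : D.Box U) (h : Good μ U f) : Integrable f μ := by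
  have h1 : IntegrableOn f U μ := integrableOn_of_l2 hU.bd.measure_lt_top h.meas
    (lt_of_le_of_lt (setLIntegral_le_lintegral _ _) h.l2)
  rwa [integrableOn_iff_integrable_of_support_subset] at h1
  intro x hx
  by_contra hcon
  exact hx (h.zero x hcon)

end

end L2P
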