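import Pool.Agent.Work.MP_ead3fc_ag.Chart

/-!
# The L² Poincaré lemma at points of corank at most one
-/

set_option autoImplicit false
set_option linter.unusedSectionVars false

open MeasureTheory Set Filter Topology
open scoped ENNReal

namespace L2P

namespace Chart

variable {m N k : ℕ} (X : Chart m N)

/-- Everything about the coefficients of a square integrable form. -/
lemma family {ω : Form (m + 1) k} (hω : IsL2 X.F X.Ω ω) :
    ∃ ω' : Form (m + 1) k, StronglyMeasurable ω' ∧ (∀ x ∉ X.Ω, ω' x = 0) ∧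
      (∀ᵐ x ∂(volume.restrict X.Ω), ω x = ω' x) ∧
      ∫⁻ x in X.Ω, normAt X.F x (ω' x) ^ 2 * ‖gramDet X.F x‖ₑ < ∞ := by
  have hm := X.Ω_open.measurableSet
  refine ⟨X.Ω.indicator (hω.meas.mk ω), hω.meas.stronglyMeasurable_mk.indicator hm,
    fun x hx => indicator_of_notMem hx _, ?_, ?_⟩
  · filter_upwards [hω.meas.ae_eq_mk, ae_restrict_mem hm] with x hx hx2
    rw [indicator_of_mem hx2, hx]
  · have h1 : ∫⁻ x in X.Ω, normAt X.F x (X.Ω.indicator (hω.meas.mk ω) x) ^ 2 *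
        ‖gramDet X.F x‖ₑ = ∫⁻ x in X.Ω, normAt X.F x (ω x) ^ 2 * ‖gramDet X.F x‖ₑ := by
      refine lintegral_congr_ae ?_
      filter_upwards [hω.meas.ae_eq_mk, ae_restrict_mem hm] with x hx hx2
      rw [indicator_of_mem hx2, hx]
    rw [h1]
    exact hω.fin

/-- Bounds for the coefficients from pointwise bounds. -/
lemma fin_of_bound {ω' : Form (m + 1) k} (h0 : ∀ x ∉ X.Ω, ω' x = 0)
    (hfin : ∫⁻ x in X.Ω, normAt X.F x (ω' x) ^ 2 * ‖gramDet X.F x‖ₑ < ∞)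
    (J : Finset (Fin ((m + 1) * 2))) {S : Set (Fin (m + 1) → ℂ)} (hS : MeasurableSet S) {K : ℝ}
    (hb : ∀ x ∈ X.Ω, x ∈ S → ‖coef (rb (m + 1)) (ω' x) J‖ₑ ^ 2 ≤
      ENNReal.ofReal K * (normAt X.F x (ω' x) ^ 2 * ‖gramDet X.F x‖ₑ)) :
    ∫⁻ x in S, ‖coef (rb (m + 1)) (ω' x) J‖ₑ ^ 2 < ∞ := by
  have hm := X.Ω_open.measurableSet
  have h1 : ∫⁻ x in S, ‖coef (rb (m + 1)) (ω' x) J‖ₑ ^ 2 ≤
      ∫⁻ x in S, X.Ω.indicator (fun x => ENNReal.ofReal K *
        (normAt X.F x (ω' x) ^ 2 * ‖gramDet X.F x‖ₑ)) x := by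
    refine setLIntegral_mono' hS fun x hx => ?_
    by_cases hxΩ : x ∈ X.Ω
    · rw [indicator_of_mem hxΩ]
      exact hb x hxΩ hx
    · rw [indicator_of_notMem hxΩ, h0 x hxΩ, coef_zero_form]
      simp
  refine lt_of_le_of_lt (h1.trans (setLIntegral_le_lintegral _ _)) ?_
  rw [lintegral_indicator hm, lintegral_const_mul' _ _ ENNReal.ofReal_ne_top]
  exact ENNReal.mul_lt_top ENNReal.ofReal_lt_top hfin

lemma bound1 {C : ℝ} {x : Fin (m + 1) → ℂ} (hE : Est X.F C x)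
    (w : (Fin (m + 1) → ℂ) [⋀^Fin k]→L[ℝ] ℂ) {J : Finset (Fin ((m + 1) * 2))}
    (hJ : r m ∈ J ∨ q m ∈ J) : ‖coef (rb (m + 1)) w J‖ₑ ^ 2 ≤
      ENNReal.ofReal (C * (C ^ k) ^ 2) * (normAt X.F x w ^ 2 * ‖gramDet X.F x‖ₑ) := by
  have hC0 : 0 < C := by linarith [hE.one]
  have h1 := hE.coef_le' w hJ
  have h2 : ENNReal.ofReal (rho X.F x * C ^ k) ^ 2 ≤
      ENNReal.ofReal (C * (C ^ k) ^ 2) * ‖gramDet X.F x‖ₑ := by
    rw [← ENNReal.ofReal_pow (by have := hE.pos; positivity), ← ofReal_norm,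
      ← ENNReal.ofReal_mul (by positivity)]
    refine ENNReal.ofReal_le_ofReal ?_
    have h3 := hE.low
    have h4 : 0 ≤ (C ^ k) ^ 2 := by positivity
    calc (rho X.F x * C ^ k) ^ 2 = rho X.F x ^ 2 * (C ^ k) ^ 2 := by ring
      _ ≤ (C * ‖gramDet X.F x‖) * (C ^ k) ^ 2 := by gcongr
      _ = _ := by ring
  calc ‖coef (rb (m + 1)) w J‖ₑ ^ 2 ≤ (ENNReal.ofReal (rho X.F x * C ^ k) * normAt X.F x w) ^ 2 := by
        gcongr
    _ = ENNReal.ofReal (rho X.F x * C ^ k) ^ 2 * normAt X.F x w ^ 2 := by rw [mul_pow]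
    _ ≤ (ENNReal.ofReal (C * (C ^ k) ^ 2) * ‖gramDet X.F x‖ₑ) * normAt X.F x w ^ 2 := by gcongr
    _ = _ := by ring

lemma bound2 {C c : ℝ} (hc : 0 < c) {x : Fin (m + 1) → ℂ} (hE : Est X.F C x)
    (hcx : c ≤ rho X.F x) (w : (Fin (m + 1) → ℂ) [⋀^Fin k]→L[ℝ] ℂ)
    (J : Finset (Fin ((m + 1) * 2))) : ‖coef (rb (m + 1)) w J‖ₑ ^ 2 ≤
      ENNReal.ofReal (C * (C ^ k) ^ 2 / c ^ 2) * (normAt X.F x w ^ 2 * ‖gramDet X.F x‖ₑ) := by
  have hC0 : 0 < C := by linarith [hE.one]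
  have h1 := hE.coef_le w J
  have h2 : ENNReal.ofReal (C ^ k) ^ 2 ≤
      ENNReal.ofReal (C * (C ^ k) ^ 2 / c ^ 2) * ‖gramDet X.F x‖ₑ := by
    rw [← ENNReal.ofReal_pow (by positivity), ← ofReal_norm,
      ← ENNReal.ofReal_mul (by positivity)]
    refine ENNReal.ofReal_le_ofReal ?_
    have h3 := hE.low
    have h4 : c ^ 2 ≤ C * ‖gramDet X.F x‖ := le_trans (by gcongr) h3
    rw [div_mul_eq_mul_div, le_div_iff₀ (by positivity)]
    calc (C ^ k) ^ 2 * c ^ 2 ≤ (C ^ k) ^ 2 * (C * ‖gramDet X.F x‖) := by gcongr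
      _ = _ := by ring
  calc ‖coef (rb (m + 1)) w J‖ₑ ^ 2 ≤ (ENNReal.ofReal (C ^ k) * normAt X.F x w) ^ 2 := by
        gcongr
    _ = ENNReal.ofReal (C ^ k) ^ 2 * normAt X.F x w ^ 2 := by rw [mul_pow]
    _ ≤ (ENNReal.ofReal (C * (C ^ k) ^ 2 / c ^ 2) * ‖gramDet X.F x‖ₑ) * normAt X.F x w ^ 2 := by
        gcongr
    _ = _ := by ring

lemma coef_sm {ω' : Form (m + 1) k} (h : StronglyMeasurable ω') (J : Finset (Fin ((m + 1) * 2))) :
    StronglyMeasurable (fun x => coef (rb (m + 1)) (ω' x) J) := by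
  have h1 := (coefL (rb (m + 1)) k J).continuous.comp_stronglyMeasurable h
  have h2 : (fun x => coef (rb (m + 1)) (ω' x) J) = fun x => coefL (rb (m + 1)) k J (ω' x) :=
    funext fun x => (coefL_apply _ _ _).symm
  rw [h2]
  exact h1

lemma weakD_congr {n k : ℕ} {Ω : Set (Fin n → ℂ)} (hΩ : MeasurableSet Ω) {η η' : Form n k}
    {ω ω' : Form n (k + 1)} (h1 : ∀ᵐ x ∂(volume.restrict Ω), η x = η' x)
    (h2 : ∀ᵐ x ∂(volume.restrict Ω), ω x = ω' x) (h : WeakD Ω η ω) : WeakD Ω η' ω' := by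
  intro φ hφ
  rw [← h φ hφ]
  rw [ae_restrict_iff' hΩ] at h1 h2
  refine integral_congr_ae ?_
  filter_upwards [h1, h2] with x h3 h4
  by_cases hx : x ∈ Ω
  · rw [h3 hx, h4 hx]
  · have h5 : x ∉ tsupport φ := fun hh => hx (hφ.sub hh)
    have h6 : fderiv ℝ φ x = 0 := by
      have := image_eq_zero_of_notMem_tsupport (f := fderiv ℝ φ) (x := x)
        (fun hh => h5 (tsupport_fderiv_subset ℝ hh))
      exact this
    have h7 : ∀ w : (Fin n → ℂ) [⋀^Fin k]→L[ℝ] ℂ,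
        (0 : (Fin n → ℂ) →L[ℝ] ℝ).smulRight w = 0 := fun w => by ext; simp
    have h8 : ∀ w : (Fin n → ℂ) [⋀^Fin (k + 1)]→L[ℝ] ℂ, (0 : ℝ) • w = 0 := fun w =>
      zero_smul ℝ w
    rw [image_eq_zero_of_notMem_tsupport h5, h6, h7, h7, h8, h8]

lemma li_of_loc {n k : ℕ} {Ω : Set (Fin n → ℂ)} {ω' : Form n k}
    (h : ∀ J, Loc volume Ω fun x => coef (rb n) (ω' x) J) : LI Ω ω' := by
  obtain ⟨mk, hmk, _⟩ := (alt (Fin n → ℂ) (n * 2) k (rb n)).2.2
  have h1 : ω' = fun x => mk fun J => coef (rb n) (ω' x) J := by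
    funext x
    refine coef_ext fun J hJ => ?_
    rw [hmk _ J hJ]
  rw [h1]
  exact li_mk h

lemma li_zero {n k : ℕ} {Ω : Set (Fin n → ℂ)} : LI Ω (0 : Form n k) := by
  refine li_of_loc fun J => ?_
  have h : (fun x => coef (rb n) ((0 : Form n k) x) J) = 0 := funext fun x => coef_zero_form _ _
  rw [h]
  exact (good_zero volume Ω).loc Ω

/-- The coefficient version of the theorem. -/
lemma solve {ω : Form (m + 1) k} (hω : IsL2 X.F X.Ω ω) (hcl : WeakD X.Ω ω 0) :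
    ∃ (ω' : Form (m + 1) k) (c : ℂ)
      (κ : Finset (Fin ((m + 1) * 2)) → (Fin (m + 1) → ℂ) → ℂ),
      (∀ᵐ x ∂(volume.restrict X.Ω), ω x = ω' x) ∧
      (∀ J, Loc volume X.Ω fun x => coef (rb (m + 1)) (ω' x) J) ∧
      (∀ J, Good volume X.U (κ J)) ∧ (∀ J, r m ∈ J → κ J = 0) ∧
      Dw volume (rb (m + 1)) X.Ω κ
        (fun J x => coef (rb (m + 1)) (ω' x) J - if J = ∅ then c else 0) := by
  obtain ⟨δ, hδ, ⟨c0, hc0, hc0'⟩, happ⟩ := X.app
  obtain ⟨C, hC⟩ := X.exists_est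
  obtain ⟨ω', hm, h0, hae, hfin⟩ := X.family hω
  have hloc : ∀ (J : Finset (Fin ((m + 1) * 2))) (K : Set (Fin (m + 1) → ℂ)), IsCompact K →
      K ⊆ X.Ω → ∫⁻ x in K, ‖coef (rb (m + 1)) (ω' x) J‖ₑ ^ 2 < ∞ := by
    intro J K hK hKΩ
    obtain ⟨c1, hc1, hc1'⟩ := X.lower hK
      (fun z hz => subset_closure (X.Ω_sub (hKΩ hz))) (fun z hz => (hKΩ hz).2)
    exact X.fin_of_bound h0 hfin J hK.measurableSet fun x hx hxK =>
      X.bound2 hc1 (hC x hx) (hc1' x hxK) (ω' x) J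
  have hLoc : ∀ J, Loc volume X.Ω fun x => coef (rb (m + 1)) (ω' x) J := fun J =>
    ⟨coef_sm hm J, hloc J⟩
  have hcl' : WeakD X.Ω ω' 0 :=
    weakD_congr X.Ω_open.measurableSet hae (Eventually.of_forall fun _ => rfl) hcl
  have hli : LI X.Ω ω' := li_of_loc hLoc
  obtain ⟨c, κ, h1, h2, h3⟩ := happ (fun J x => coef (rb (m + 1)) (ω' x) J)
    (fun J => coef_sm hm J) (fun J x hx => by rw [h0 x hx, coef_zero_form])
    (fun J hJ => by
      have := X.fin_of_bound h0 hfin J MeasurableSet.univ fun x hx _ =>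
        X.bound1 (hC x hx) (ω' x) hJ
      rwa [Measure.restrict_univ] at this)
    (fun J => by
      refine X.fin_of_bound h0 hfin J ?_ fun x hx hxS =>
        X.bound2 hc0 (hC x hx) (hc0' x hx hxS) (ω' x) J
      exact (isOpen_lt (by fun_prop) continuous_const).measurableSet)
    hloc (by
      intro K φ hφ
      by_cases hK : K.card = k + 1
      · have := (weakD_iff hli li_zero).1 hcl' K hK φ hφ
        rw [this]
        have h4 : ∀ x, coef (rb (m + 1)) ((0 : Form (m + 1) (k + 1)) x) K = 0 := fun x =>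
          coef_zero_form _ _
        simp only [h4, smul_zero, integral_zero, neg_zero]
      · refine Finset.sum_eq_zero fun j hj => ?_
        have h4 : (K.erase j).card ≠ k := by
          rw [Finset.card_erase_of_mem hj]
          have := Finset.card_pos.2 ⟨j, hj⟩
          omega
        have h5 : ∀ x, coef (rb (m + 1)) (ω' x) (K.erase j) = 0 := fun x => coef_card _ _ h4
        simp [h5])
  exact ⟨ω', c, κ, hae, hLoc, h1, h2, h3⟩

/-- Square integrability of the primitive. -/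
lemma isL2_mk {mk : (Finset (Fin ((m + 1) * 2)) → ℂ) →L[ℝ] (Fin (m + 1) → ℂ) [⋀^Fin k]→L[ℝ] ℂ}
    (hmk : ∀ (κ : Finset (Fin ((m + 1) * 2)) → ℂ) (v : Fin k → Fin (m + 1) → ℂ), ‖mk κ v‖ ≤
        ∑ J : Finset (Fin ((m + 1) * 2)), if h : J.card = k then
          ∑ σ : Equiv.Perm (Fin k), ‖κ J‖ * ∏ i, |(rb (m + 1)).repr (v (σ i))
            (J.orderEmbOfFin h i)| else 0)
    {κ : Finset (Fin ((m + 1) * 2)) → (Fin (m + 1) → ℂ) → ℂ} (h1 : ∀ J, Good volume X.U (κ J))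
    (h2 : ∀ J, r m ∈ J → κ J = 0) : IsL2 X.F X.Ω (fun x => mk fun J => κ J x) := by
  obtain ⟨C, hC⟩ := X.exists_est
  refine ⟨?_, ?_⟩
  · have h3 : StronglyMeasurable fun x => fun J => κ J x :=
      (measurable_pi_iff.2 fun J => (h1 J).meas.measurable).stronglyMeasurable
    exact (mk.continuous.comp_stronglyMeasurable h3).aestronglyMeasurable
  · set M : ℝ := (k.factorial : ℝ) * C ^ (k + 1) with hM
    set n : ℝ := ((Finset.univ : Finset (Finset (Fin ((m + 1) * 2)))).card : ℝ) with hn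
    have hb : ∀ x ∈ X.Ω, normAt X.F x (mk fun J => κ J x) ^ 2 * ‖gramDet X.F x‖ₑ ≤
        ∑ J, ENNReal.ofReal (M ^ 2 * C * n) * ‖κ J x‖ₑ ^ 2 := by
      intro x hx
      have hE := hC x hx
      have hC0 : 0 < C := by linarith [hE.one]
      have hρ := hE.pos
      have h3 := hE.normAt_le (fun J => κ J x) (fun J hJ => by rw [h2 J hJ]; rfl) (fun k => mk k) hmk
      have h4 : ‖gramDet X.F x‖ₑ ≤ ENNReal.ofReal (C * rho X.F x ^ 2) := by
        rw [← ofReal_norm]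
        exact ENNReal.ofReal_le_ofReal hE.up
      have hS0 : 0 ≤ ∑ J, ‖κ J x‖ := Finset.sum_nonneg fun _ _ => norm_nonneg _
      have hM0 : 0 ≤ M := by positivity
      calc normAt X.F x (mk fun J => κ J x) ^ 2 * ‖gramDet X.F x‖ₑ
          ≤ ENNReal.ofReal (M / rho X.F x * ∑ J, ‖κ J x‖) ^ 2 *
            ENNReal.ofReal (C * rho X.F x ^ 2) := by gcongr
        _ = ENNReal.ofReal (M ^ 2 * C * (∑ J, ‖κ J x‖) ^ 2) := by
          rw [← ENNReal.ofReal_pow (by positivity), ← ENNReal.ofReal_mul (by positivity)]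
          congr 1
          field_simp
        _ ≤ ENNReal.ofReal (M ^ 2 * C * (n * ∑ J, ‖κ J x‖ ^ 2)) := by
          refine ENNReal.ofReal_le_ofReal ?_
          have := sq_sum_le_card_mul_sum_sq (s := (Finset.univ : Finset (Finset
            (Fin ((m + 1) * 2))))) (f := fun J => ‖κ J x‖)
          gcongr
        _ = ∑ J, ENNReal.ofReal (M ^ 2 * C * n) * ‖κ J x‖ₑ ^ 2 := by
          rw [← mul_assoc, ENNReal.ofReal_mul (by positivity),
            ENNReal.ofReal_sum_of_nonneg (fun _ _ => by positivity), Finset.mul_sum]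
          refine Finset.sum_congr rfl fun J _ => ?_
          rw [ENNReal.ofReal_pow (norm_nonneg _), ofReal_norm]
    refine lt_of_le_of_lt (setLIntegral_mono' X.Ω_open.measurableSet hb) ?_
    refine lt_of_le_of_lt (setLIntegral_le_lintegral _ _) ?_
    rw [lintegral_finsetSum _ fun J _ =>
      ((h1 J).meas.measurable.enorm.pow_const 2).const_mul _]
    refine ENNReal.sum_lt_top.2 fun J _ => ?_
    rw [lintegral_const_mul' _ _ ENNReal.ofReal_ne_top]
    exact ENNReal.mul_lt_top ENNReal.ofReal_lt_top (h1 J).l2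

/-- Positive degrees. -/
theorem main_pos {ω : Form (m + 1) (k + 1)} (hω : IsL2 X.F X.Ω ω) (hcl : WeakD X.Ω ω 0) :
    ∃ η : Form (m + 1) k, IsL2 X.F X.Ω η ∧ WeakD X.Ω η ω := by
  obtain ⟨ω', c, κ, hae, hLoc, h1, h2, h3⟩ := X.solve hω hcl
  obtain ⟨mk, hmk, hmk2⟩ := (alt (Fin (m + 1) → ℂ) ((m + 1) * 2) k (rb (m + 1))).2.2
  refine ⟨fun x => mk fun J => κ J x, X.isL2_mk hmk2 h1 h2, ?_⟩
  refine weakD_congr X.Ω_open.measurableSet (Eventually.of_forall fun _ => rfl)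
    (hae.mono fun x hx => hx.symm) ((weakD_iff (li_mk fun J => (h1 J).loc _)
      (li_of_loc hLoc)).2 ?_)
  intro J hJ φ hφ
  have h4 := h3 J φ hφ
  have h5 : J ≠ ∅ := by
    rintro rfl
    simp at hJ
  simp only [if_neg h5, sub_zero] at h4
  rw [← h4]
  refine Finset.sum_congr rfl fun j hj => ?_
  have h6 : (J.erase j).card = k := by
    rw [Finset.card_erase_of_mem hj, hJ]; rfl
  simp only [hmk _ _ h6]

/-- Degree zero. -/
theorem main_zero {ω : Form (m + 1) 0} (hω : IsL2 X.F X.Ω ω) (hcl : WeakD X.Ω ω 0) :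
    ∃ c : ℂ, ∀ᵐ x ∂(volume.restrict X.Ω),
      ω x = ContinuousAlternatingMap.constOfIsEmpty ℝ (Fin (m + 1) → ℂ) (Fin 0) c := by
  obtain ⟨ω', c, κ, hae, hLoc, h1, h2, h3⟩ := X.solve hω hcl
  refine ⟨c, ?_⟩
  have h4 : ∀ φ : (Fin (m + 1) → ℂ) → ℝ, ContDiff ℝ ((⊤ : ℕ∞) : WithTop ℕ∞) φ →
      HasCompactSupport φ → tsupport φ ⊆ X.Ω →
      ∫ x, φ x • (coef (rb (m + 1)) (ω' x) ∅ - c) = 0 := by
    intro φ hφ1 hφ2 hφ3
    have := h3 ∅ φ ⟨hφ1, hφ2, hφ3⟩
    simp only [if_pos trivial, Finset.sum_empty] at this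
    rw [← neg_eq_zero]
    exact this.symm
  have h5 : LocallyIntegrableOn (fun x => coef (rb (m + 1)) (ω' x) ∅ - c) X.Ω volume := by
    rw [locallyIntegrableOn_iff X.Ω_open.isLocallyClosed]
    intro K hKΩ hK
    refine Integrable.sub ?_ ?_
    · exact integrableOn_of_l2 hK.measure_lt_top (hLoc ∅).meas ((hLoc ∅).l2 K hK hKΩ)
    · exact integrableOn_const hK.measure_lt_top.ne
  have h6 := X.Ω_open.ae_eq_zero_of_integral_contDiff_smul_eq_zero h5 h4
  rw [ae_restrict_iff' X.Ω_open.measurableSet] at hae ⊢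
  filter_upwards [hae, h6] with x h7 h8 hx
  rw [h7 hx]
  refine coef_ext fun J hJ => ?_
  have hJ' : J = ∅ := Finset.card_eq_zero.1 hJ
  subst hJ'
  rw [sub_eq_zero.1 (h8 hx)]
  unfold coef
  rw [dif_pos hJ]
  rfl

/-- Constants are square integrable and weakly closed. -/
theorem main_const (c : ℂ) :
    IsL2 X.F X.Ω (fun _ => ContinuousAlternatingMap.constOfIsEmpty ℝ (Fin (m + 1) → ℂ)
      (Fin 0) c) ∧
    WeakD X.Ω (fun _ => ContinuousAlternatingMap.constOfIsEmpty ℝ (Fin (m + 1) → ℂ)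
      (Fin 0) c) 0 := by
  obtain ⟨C, hC⟩ := X.exists_est
  constructor
  · refine ⟨aestronglyMeasurable_const, ?_⟩
    have h1 : ∀ x ∈ X.Ω, normAt X.F x (ContinuousAlternatingMap.constOfIsEmpty ℝ
        (Fin (m + 1) → ℂ) (Fin 0) c) ^ 2 * ‖gramDet X.F x‖ₑ ≤
        ‖c‖ₑ ^ 2 * ENNReal.ofReal (C * C ^ 2) := by
      intro x hx
      have hE := hC x hx
      have h2 : normAt X.F x (ContinuousAlternatingMap.constOfIsEmpty ℝ
          (Fin (m + 1) → ℂ) (Fin 0) c) ≤ ‖c‖ₑ := iSup_le fun v => le_rfl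
      have h3 : ‖gramDet X.F x‖ₑ ≤ ENNReal.ofReal (C * C ^ 2) := by
        rw [← ofReal_norm]
        refine ENNReal.ofReal_le_ofReal (hE.up.trans ?_)
        have := hE.rho_le
        have := hE.pos
        have := hE.one
        gcongr
      gcongr
    refine lt_of_le_of_lt (setLIntegral_mono' X.Ω_open.measurableSet h1) ?_
    rw [setLIntegral_const]
    refine ENNReal.mul_lt_top (ENNReal.mul_lt_top (ENNReal.pow_lt_top enorm_lt_top)
      ENNReal.ofReal_lt_top) ?_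
    refine lt_of_le_of_lt (measure_mono (X.Ω_sub.trans subset_closure)) X.compact.measure_lt_top
  · have hli : LI X.Ω (fun _ : Fin (m + 1) → ℂ => ContinuousAlternatingMap.constOfIsEmpty ℝ
        (Fin (m + 1) → ℂ) (Fin 0) c) := by
      intro φ hφ
      exact (hφ.smooth.continuous.integrable_of_hasCompactSupport hφ.cpt).smul_const _
    refine (weakD_iff hli li_zero).2 fun J hJ φ hφ => ?_
    have h4 : ∀ x : Fin (m + 1) → ℂ, coef (rb (m + 1))
        ((0 : Form (m + 1) (0 + 1)) x) J = 0 := fun x => coef_zero_form _ _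
    simp only [h4, smul_zero, integral_zero, neg_zero]
    refine Finset.sum_eq_zero fun j _ => ?_
    rw [integral_smul_const]
    have h5 := CapAux.ibp volume (a := φ) (b := fun _ => (1:ℝ))
      (hφ.smooth.of_le (by exact_mod_cast le_top)) hφ.cpt (fun x _ => contDiffAt_const) (rb (m + 1) j)
    have h6 : ∀ x : Fin (m + 1) → ℂ, fderiv ℝ (fun _ : Fin (m + 1) → ℂ => (1:ℝ)) x
        (rb (m + 1) j) = 0 := fun x => by simp
    simp only [h6, mul_zero, integral_zero, mul_one] at h5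
    rw [neg_eq_zero.1 h5.symm]
    simp

end Chart

end L2P
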