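import Pool.Agent.Work.MP_ead3fc_ag.Avg

/-!
# The operators on test functions
-/

set_option autoImplicit false
set_option linter.unusedSectionVars false

open MeasureTheory Set Filter Topology
open scoped ENNReal Interval

namespace L2P

/-- Smooth step: one for `t ≤ p`, zero for `q ≤ t`. -/
noncomputable def Hs (p q t : ℝ) : ℝ := Real.smoothTransition ((q - t) / (q - p))

/-- Minus the derivative of the smooth step. -/
noncomputable def chi (p q t : ℝ) : ℝ := - deriv (Hs p q) t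

section
variable {p q : ℝ}

lemma Hs_contDiff (p q : ℝ) : ContDiff ℝ ((⊤ : ℕ∞) : WithTop ℕ∞) (Hs p q) := by
  unfold Hs
  exact Real.smoothTransition.contDiff.comp (by fun_prop)

lemma Hs_one (hpq : p < q) {t : ℝ} (h : t ≤ p) : Hs p q t = 1 := by
  unfold Hs
  apply Real.smoothTransition.one_of_one_le
  rw [le_div_iff₀ (by linarith)]
  linarith

lemma Hs_zero (hpq : p < q) {t : ℝ} (h : q ≤ t) : Hs p q t = 0 := by
  unfold Hs
  apply Real.smoothTransition.zero_of_nonpos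
  exact div_nonpos_of_nonpos_of_nonneg (by linarith) (by linarith)

lemma Hs_nonneg (p q t : ℝ) : 0 ≤ Hs p q t := Real.smoothTransition.nonneg _

lemma Hs_le_one (p q t : ℝ) : Hs p q t ≤ 1 := Real.smoothTransition.le_one _

lemma Hs_hasDerivAt (p q t : ℝ) : HasDerivAt (Hs p q) (-chi p q t) t := by
  unfold chi
  rw [neg_neg]
  exact ((Hs_contDiff p q).differentiable (by simp)).differentiableAt.hasDerivAt

lemma chi_contDiff (p q : ℝ) : ContDiff ℝ ((⊤ : ℕ∞) : WithTop ℕ∞) (chi p q) := by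
  unfold chi
  have := (contDiff_infty_iff_deriv.1 (Hs_contDiff p q)).2
  exact this.neg

lemma chi_left (hpq : p < q) {t : ℝ} (h : t < p) : chi p q t = 0 := by
  unfold chi
  have : Hs p q =ᶠ[𝓝 t] fun _ => 1 := by
    filter_upwards [Iio_mem_nhds h] with s hs using Hs_one hpq (le_of_lt hs)
  rw [this.deriv_eq]; simp

lemma chi_right (hpq : p < q) {t : ℝ} (h : q < t) : chi p q t = 0 := by
  unfold chi
  have : Hs p q =ᶠ[𝓝 t] fun _ => 0 := by
    filter_upwards [Ioi_mem_nhds h] with s hs using Hs_zero hpq (le_of_lt hs)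
  rw [this.deriv_eq]; simp

lemma chi_mem (hpq : p < q) {t : ℝ} (h : chi p q t ≠ 0) : p ≤ t ∧ t ≤ q := by
  constructor
  · by_contra hcon
    exact h (chi_left hpq (not_le.1 hcon))
  · by_contra hcon
    exact h (chi_right hpq (not_le.1 hcon))

lemma chi_bdd (hpq : p < q) : ∃ B : ℝ, 0 ≤ B ∧ ∀ t, |chi p q t| ≤ B := by
  obtain ⟨B, hB⟩ := (isCompact_Icc (a := p) (b := q)).exists_bound_of_continuousOn
    (chi_contDiff p q).continuous.continuousOn
  refine ⟨max B 0, le_max_right _ _, fun t => ?_⟩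
  by_cases h : chi p q t = 0
  · rw [h, abs_zero]; exact le_max_right _ _
  · exact (hB t (chi_mem hpq h)).trans (le_max_left _ _)

end

/-- A direction `e` with coordinate `c`, the range `(α, β)` of the coordinate and the interval
`[p, q]` of base points. -/
structure Dir (E : Type) [NormedAddCommGroup E] [NormedSpace ℝ E] where
  c : E →L[ℝ] ℝ
  e : E
  α : ℝ
  β : ℝ
  p : ℝ
  q : ℝ
  ce : c e = 1
  h1 : α < p
  h2 : p < q
  h3 : q < β

/-- `U` is a bounded open set which is a box in the direction of `D`. -/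
structure Dir.Box {E : Type} [NormedAddCommGroup E] [NormedSpace ℝ E] (D : Dir E) (U : Set E) :
    Prop where
  op : IsOpen U
  bd : Bornology.IsBounded U
  lt : ∀ x ∈ U, D.α < D.c x ∧ D.c x < D.β
  mem : ∀ x ∈ U, ∀ s : ℝ, D.α < D.c x + s → D.c x + s < D.β → x + s • D.e ∈ U

section

variable {E : Type} [NormedAddCommGroup E] [NormedSpace ℝ E] [FiniteDimensional ℝ E]

/-- Length of the range. -/
def Dir.L (D : Dir E) : ℝ := D.β - D.α

lemma Dir.L_pos (D : Dir E) : 0 < D.L := by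
  unfold Dir.L
  have := D.h1; have := D.h2; have := D.h3
  linarith

lemma Dir.c_add (D : Dir E) (x : E) (s : ℝ) : D.c (x + s • D.e) = D.c x + s := by
  rw [map_add, map_smul, D.ce, smul_eq_mul, mul_one]

/-- The operator `T`. -/
noncomputable def Dir.T (D : Dir E) (φ : E → ℝ) (x : E) : ℝ :=
  avg 0 D.L D.e φ x - Hs D.p D.q (D.c x) * avg (-D.L) D.L D.e φ x

/-- The operator `S`. -/
noncomputable def Dir.S (D : Dir E) (φ : E → ℝ) (x : E) : ℝ :=
  chi D.p D.q (D.c x) * avg (-D.L) D.L D.e φ x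

variable {D : Dir E} {U : Set E} {φ : E → ℝ}

lemma Dir.T_contDiff (D : Dir E) (h : ContDiff ℝ ((⊤ : ℕ∞) : WithTop ℕ∞) φ) :
    ContDiff ℝ ((⊤ : ℕ∞) : WithTop ℕ∞) (D.T φ) :=
  (avg_contDiff _ _ _ h).sub (((Hs_contDiff _ _).comp D.c.contDiff).mul (avg_contDiff _ _ _ h))

lemma Dir.S_contDiff (D : Dir E) (h : ContDiff ℝ ((⊤ : ℕ∞) : WithTop ℕ∞) φ) :
    ContDiff ℝ ((⊤ : ℕ∞) : WithTop ℕ∞) (D.S φ) :=
  ((chi_contDiff _ _).comp D.c.contDiff).mul (avg_contDiff _ _ _ h)

lemma Dir.T_fderiv (D : Dir E) (h : ContDiff ℝ ((⊤ : ℕ∞) : WithTop ℕ∞) φ) (x v : E) :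
    fderiv ℝ (D.T φ) x v = D.T (fun y => fderiv ℝ φ y v) x + D.c v * D.S φ x := by
  have ha : ∀ a b, HasFDerivAt (avg a b D.e φ) (fderiv ℝ (avg a b D.e φ) x) x := fun a b =>
    (((avg_contDiff a b D.e h).differentiable (by simp)) x).hasFDerivAt
  have hH : HasFDerivAt (fun y => Hs D.p D.q (D.c y)) ((-chi D.p D.q (D.c x)) • D.c) x :=
    (Hs_hasDerivAt D.p D.q (D.c x)).comp_hasFDerivAt x D.c.hasFDerivAt
  have h1 := (ha 0 D.L).sub (hH.mul (ha (-D.L) D.L))
  have h2 : HasFDerivAt (D.T φ) _ x := h1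
  rw [h2.fderiv]
  simp only [sub_apply, add_apply,
    smul_apply, smul_eq_mul]
  rw [avg_fderiv _ _ _ h, avg_fderiv _ _ _ h]
  unfold Dir.T Dir.S
  ring

lemma Dir.S_fderiv (D : Dir E) (h : ContDiff ℝ ((⊤ : ℕ∞) : WithTop ℕ∞) φ) (x v : E)
    (hv : D.c v = 0) : fderiv ℝ (D.S φ) x v = D.S (fun y => fderiv ℝ φ y v) x := by
  have ha : ∀ a b, HasFDerivAt (avg a b D.e φ) (fderiv ℝ (avg a b D.e φ) x) x := fun a b =>
    (((avg_contDiff a b D.e h).differentiable (by simp)) x).hasFDerivAt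
  have hH : HasFDerivAt (fun y => chi D.p D.q (D.c y)) ((deriv (chi D.p D.q) (D.c x)) • D.c) x :=
    (((chi_contDiff D.p D.q).differentiable (by simp)).differentiableAt.hasDerivAt
      ).comp_hasFDerivAt x D.c.hasFDerivAt
  have h1 := hH.mul (ha (-D.L) D.L)
  have h2 : HasFDerivAt (D.S φ) _ x := h1
  rw [h2.fderiv]
  simp only [add_apply, smul_apply, smul_eq_mul, hv]
  rw [avg_fderiv _ _ _ h]
  unfold Dir.S
  ring

lemma zero_of_notMem (h : IsTest U φ) {x : E} (hx : x ∉ U) : φ x = 0 :=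
  image_eq_zero_of_notMem_tsupport (fun hh => hx (h.sub hh))

lemma Dir.T_dir (hU : D.Box U) (h : IsTest U φ) {x : E} (hx : x ∈ U) :
    D.T (fun y => fderiv ℝ φ y D.e) x = - φ x := by
  have hx' := hU.lt x hx
  have h1 : φ (x + D.L • D.e) = 0 := by
    apply zero_of_notMem h
    intro hh
    have := (hU.lt _ hh).2
    rw [D.c_add] at this
    unfold Dir.L at this
    linarith
  have h2 : φ (x + (-D.L) • D.e) = 0 := by
    apply zero_of_notMem h
    intro hh
    have := (hU.lt _ hh).1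
    rw [D.c_add] at this
    unfold Dir.L at this
    linarith
  unfold Dir.T
  rw [avg_dir _ _ _ h.smooth, avg_dir _ _ _ h.smooth, h1, h2]
  simp

lemma Dir.S_dir (hU : D.Box U) (h : IsTest U φ) {x : E} (hx : x ∈ U) :
    D.S (fun y => fderiv ℝ φ y D.e) x = 0 := by
  have hx' := hU.lt x hx
  have h1 : φ (x + D.L • D.e) = 0 := by
    apply zero_of_notMem h
    intro hh
    have := (hU.lt _ hh).2
    rw [D.c_add] at this
    unfold Dir.L at this
    linarith
  have h2 : φ (x + (-D.L) • D.e) = 0 := by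
    apply zero_of_notMem h
    intro hh
    have := (hU.lt _ hh).1
    rw [D.c_add] at this
    unfold Dir.L at this
    linarith
  unfold Dir.S
  rw [avg_dir _ _ _ h.smooth, h1, h2]
  simp

lemma avg_eq_zero {a b : ℝ} {e : E} {x : E} (h : ∀ s ∈ [[a, b]], φ (x + s • e) = 0) :
    avg a b e φ x = 0 := by
  unfold avg
  rw [intervalIntegral.integral_congr (g := fun _ => (0 : ℝ)) (fun s hs => h s hs)]
  simp

/-- points of the lines through the support -/
lemma exists_of_avg_ne {a b : ℝ} {e : E} {x : E} (h : avg a b e φ x ≠ 0) :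
    ∃ s ∈ [[a, b]], x + s • e ∈ tsupport φ := by
  by_contra hcon
  push Not at hcon
  exact h (avg_eq_zero fun s hs => image_eq_zero_of_notMem_tsupport (hcon s hs))

/-- Bounds of the coordinate on the support. -/
lemma Dir.exists_bounds (hU : D.Box U) (h : IsTest U φ) {η : ℝ} (hη : D.q < η)
    (hs : ∀ x ∈ tsupport φ, D.c x < η) (hηβ : η ≤ D.β) :
    ∃ α1 β1 : ℝ, D.α < α1 ∧ α1 ≤ D.p ∧ D.q ≤ β1 ∧ β1 < η ∧
      ∀ x ∈ tsupport φ, α1 ≤ D.c x ∧ D.c x ≤ β1 := by
  rcases (tsupport φ).eq_empty_or_nonempty with he | hne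
  · refine ⟨D.p, D.q, D.h1, le_rfl, le_rfl, hη, ?_⟩
    intro x hx
    rw [he] at hx
    exact absurd hx (notMem_empty _)
  · have hc : IsCompact (tsupport φ) := h.cpt
    obtain ⟨x1, hx1, hmin⟩ := hc.exists_isMinOn hne D.c.continuous.continuousOn
    obtain ⟨x2, hx2, hmax⟩ := hc.exists_isMaxOn hne D.c.continuous.continuousOn
    refine ⟨min D.p (D.c x1), max D.q (D.c x2), lt_min D.h1 (hU.lt _ (h.sub hx1)).1,
      min_le_left _ _, le_max_left _ _, max_lt hη (hs _ hx2), fun x hx => ⟨?_, ?_⟩⟩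
    · exact (min_le_right _ _).trans (hmin hx)
    · exact le_trans (hmax hx) (le_max_right _ _)

/-- The compact set of points on lines through a compact set. -/
def Dir.tube (D : Dir E) (C : Set E) (α1 β1 : ℝ) : Set E :=
  ((fun z : E × ℝ => z.1 - z.2 • D.e) '' (C ×ˢ Icc (-D.L) D.L)) ∩ {x | α1 ≤ D.c x ∧ D.c x ≤ β1}

lemma Dir.tube_compact (D : Dir E) {C : Set E} (hC : IsCompact C) (α1 β1 : ℝ) :
    IsCompact (D.tube C α1 β1) := by
  refine ((hC.prod isCompact_Icc).image (by fun_prop)).inter_right ?_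
  exact (isClosed_le continuous_const D.c.continuous).inter
    (isClosed_le D.c.continuous continuous_const)

lemma Dir.tube_subset (hU : D.Box U) {C : Set E} (hC : C ⊆ U) {α1 β1 : ℝ} (h1 : D.α < α1)
    (h2 : β1 < D.β) : D.tube C α1 β1 ⊆ U := by
  rintro x ⟨⟨⟨y, s⟩, ⟨hy, hs⟩, rfl⟩, hx1, hx2⟩
  have h3 : y - s • D.e = y + (-s) • D.e := by rw [neg_smul, sub_eq_add_neg]
  simp only [h3, D.c_add] at hx1 hx2 ⊢
  exact hU.mem y (hC hy) _ (by linarith) (by linarith)

lemma Dir.mem_tube {C : Set E} {x : E} {s : ℝ} (hs : s ∈ [[-D.L, D.L]])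
    (hx : x + s • D.e ∈ C) {α1 β1 : ℝ} (h1 : α1 ≤ D.c x) (h2 : D.c x ≤ β1) :
    x ∈ D.tube C α1 β1 := by
  refine ⟨⟨(x + s • D.e, s), ⟨hx, ?_⟩, by simp⟩, h1, h2⟩
  rwa [uIcc_of_le (by have := D.L_pos; linarith)] at hs

lemma tsupport_subset_of_compact {C : Set E} (hC : IsCompact C) {ψ : E → ℝ}
    (h : ∀ x, ψ x ≠ 0 → x ∈ C) : HasCompactSupport ψ ∧ tsupport ψ ⊆ C := by
  have h1 : tsupport ψ ⊆ C := closure_minimal (fun x hx => h x hx) hC.isClosed
  exact ⟨hC.of_isClosed_subset (isClosed_tsupport _) h1, h1⟩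

lemma Dir.T_supp (hU : D.Box U) (h : IsTest U φ) {α1 β1 : ℝ} (hα : α1 ≤ D.p) (hβ : D.q ≤ β1)
    (hs : ∀ x ∈ tsupport φ, α1 ≤ D.c x ∧ D.c x ≤ β1) {x : E} (hx : D.T φ x ≠ 0) :
    x ∈ D.tube (tsupport φ) α1 β1 := by
  have hL := D.L_pos
  have hmono : ∀ s ∈ [[(0:ℝ), D.L]], s ∈ [[-D.L, D.L]] := by
    intro s hs
    rw [uIcc_of_le hL.le] at hs
    rw [uIcc_of_le (by linarith)]
    exact ⟨by linarith [hs.1], hs.2⟩
  have hex : ∃ s ∈ [[-D.L, D.L]], x + s • D.e ∈ tsupport φ := by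
    by_contra hcon
    push Not at hcon
    apply hx
    unfold Dir.T
    rw [avg_eq_zero fun s hs => image_eq_zero_of_notMem_tsupport (hcon s hs),
      avg_eq_zero fun s hs => image_eq_zero_of_notMem_tsupport (hcon s (hmono s hs))]
    ring
  obtain ⟨s, hs1, hs2⟩ := hex
  refine Dir.mem_tube hs1 hs2 ?_ ?_
  · by_contra hcon
    push Not at hcon
    apply hx
    unfold Dir.T
    rw [Hs_one D.h2 (hcon.le.trans hα), one_mul]
    have h1 : avg (-D.L) D.L D.e φ x = avg (-D.L) 0 D.e φ x + avg 0 D.L D.e φ x := by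
      unfold avg
      rw [intervalIntegral.integral_add_adjacent_intervals]
      · exact (h.smooth.continuous.comp (by fun_prop)).intervalIntegrable _ _
      · exact (h.smooth.continuous.comp (by fun_prop)).intervalIntegrable _ _
    rw [h1, avg_eq_zero (a := -D.L) (b := 0), zero_add, sub_self]
    intro t ht
    rw [uIcc_of_le (by linarith)] at ht
    apply image_eq_zero_of_notMem_tsupport
    intro hh
    have := (hs _ hh).1
    rw [D.c_add] at this
    linarith [ht.2]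
  · by_contra hcon
    push Not at hcon
    apply hx
    unfold Dir.T
    rw [Hs_zero D.h2 (hβ.trans hcon.le), zero_mul, sub_zero]
    apply avg_eq_zero
    intro t ht
    rw [uIcc_of_le hL.le] at ht
    apply image_eq_zero_of_notMem_tsupport
    intro hh
    have := (hs _ hh).2
    rw [D.c_add] at this
    linarith [ht.1]

lemma Dir.T_test_strip (hU : D.Box U) (h : IsTest U φ) {η : ℝ} (hη : D.q < η) (hηβ : η ≤ D.β)
    (hs : ∀ x ∈ tsupport φ, D.c x < η) : IsTest (U ∩ {x | D.c x < η}) (D.T φ) := by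
  obtain ⟨α1, β1, h1, h2, h3, h4, h5⟩ := Dir.exists_bounds hU h hη hs hηβ
  obtain ⟨h6, h7⟩ := tsupport_subset_of_compact (D.tube_compact h.cpt α1 β1)
    (fun x hx => Dir.T_supp hU h h2 h3 h5 hx)
  refine ⟨D.T_contDiff h.smooth, h6, fun x hx => ⟨?_, ?_⟩⟩
  · exact Dir.tube_subset hU h.sub h1 (lt_of_lt_of_le h4 hηβ) (h7 hx)
  · exact lt_of_le_of_lt (h7 hx).2.2 h4

lemma IsTest.mono {Ω Ω' : Set E} (h : IsTest Ω φ) (hΩ : Ω ⊆ Ω') : IsTest Ω' φ :=
  ⟨h.smooth, h.cpt, h.sub.trans hΩ⟩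

lemma Dir.T_test (hU : D.Box U) (h : IsTest U φ) : IsTest U (D.T φ) :=
  (Dir.T_test_strip hU h D.h3 le_rfl (fun x hx => (hU.lt x (h.sub hx)).2)).mono
    inter_subset_left

lemma Dir.S_test (hU : D.Box U) (h : IsTest U φ) :
    IsTest (U ∩ {x | D.c x ≤ D.q}) (D.S φ) := by
  have key : ∀ x, D.S φ x ≠ 0 → x ∈ D.tube (tsupport φ) D.p D.q := by
    intro x hx
    have h1 : chi D.p D.q (D.c x) ≠ 0 := fun hh => hx (by unfold Dir.S; rw [hh, zero_mul])
    have h2 : avg (-D.L) D.L D.e φ x ≠ 0 := fun hh => hx (by unfold Dir.S; rw [hh, mul_zero])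
    obtain ⟨s, hs1, hs2⟩ := exists_of_avg_ne h2
    exact Dir.mem_tube hs1 hs2 (chi_mem D.h2 h1).1 (chi_mem D.h2 h1).2
  obtain ⟨h6, h7⟩ := tsupport_subset_of_compact (D.tube_compact h.cpt D.p D.q) key
  refine ⟨D.S_contDiff h.smooth, h6, fun x hx => ⟨?_, ?_⟩⟩
  · exact Dir.tube_subset hU h.sub D.h1 D.h3 (h7 hx)
  · exact (h7 hx).2.2

end

end L2P
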