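import Pool.Agent.Work.MP_ead3fc_ag.Step

/-!
# The step across the singular set
-/

set_option autoImplicit false
set_option linter.unusedSectionVars false

open MeasureTheory Set Filter Topology
open scoped ENNReal Interval

namespace L2P

/-- The algebra of the second part. -/
lemma sign_alg {d : ℕ} {J : Finset (Fin d)} {r : Fin d} (hr : r ∉ J) (a c : Fin d → ℂ)
    (X : Fin d → Fin d → ℂ) (G : ℂ) (hX : ∀ j ∈ J, ∀ l ∈ J, j ≠ l → X j l = X l j)
    (h1 : ∀ j ∈ J, sg r (J.erase j) • a j +
      ∑ l ∈ J.erase j, sg l (insert r (J.erase j)) • X j l = - c j)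
    (h2 : sg r J • G + ∑ j ∈ J, sg j (insert r J) • c j = 0) :
    ∑ j ∈ J, sg j J • a j = - G := by
  classical
  -- the double sum vanishes
  set Y : Fin d → Fin d → ℂ := fun j l => if j = l then 0 else
    (sg j J * sg l (J.erase j) * sg r ((J.erase j).erase l)) • X j l with hY
  have hanti : ∀ j ∈ J, ∀ l ∈ J, Y j l = - Y l j := by
    intro j hj l hl
    simp only [hY]
    by_cases h : j = l
    · rw [if_pos h, if_pos h.symm, neg_zero]
    · rw [if_neg h, if_neg (Ne.symm h), sg_anti hj hl h, hX j hj l hl h,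
        Finset.erase_right_comm, neg_mul, neg_smul]
  have hdouble : ∑ j ∈ J, ∑ l ∈ J, Y j l = 0 := by
    have h3 : ∑ j ∈ J, ∑ l ∈ J, Y j l = - ∑ j ∈ J, ∑ l ∈ J, Y j l := by
      conv_lhs => rw [Finset.sum_comm]
      rw [← Finset.sum_neg_distrib]
      refine Finset.sum_congr rfl fun j hj => ?_
      rw [← Finset.sum_neg_distrib]
      exact Finset.sum_congr rfl fun l hl => hanti l hl j hj
    have h4 : (2 : ℂ) * ∑ j ∈ J, ∑ l ∈ J, Y j l = 0 := by
      linear_combination h3
    exact (mul_eq_zero.1 h4).resolve_left two_ne_zero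
  have hinner : ∀ j ∈ J, (sg j J * sg r (J.erase j)) •
      ∑ l ∈ J.erase j, sg l (insert r (J.erase j)) • X j l = - ∑ l ∈ J, Y j l := by
    intro j hj
    have h3 : ∑ l ∈ J, Y j l = ∑ l ∈ J.erase j, Y j l := by
      rw [← Finset.add_sum_erase J _ hj]
      simp only [hY]
      rw [if_pos trivial, zero_add]
    rw [h3, Finset.smul_sum, ← Finset.sum_neg_distrib]
    refine Finset.sum_congr rfl fun l hl => ?_
    have hl' := Finset.mem_erase.1 hl
    have h4 := sg_swap hl (fun h => hr (Finset.mem_of_mem_erase h) : r ∉ J.erase j)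
    simp only [hY]
    rw [if_neg (Ne.symm hl'.1), smul_smul, ← neg_smul]
    congr 1
    linear_combination (sg j J) * h4
  have hterm : ∀ j ∈ J, sg j J • a j = ∑ l ∈ J, Y j l + (sg r J * sg j (insert r J)) • c j := by
    intro j hj
    have h3 := congrArg (fun z => (sg j J * sg r (J.erase j)) • z) (h1 j hj)
    simp only [smul_add] at h3
    rw [hinner j hj, smul_smul, mul_assoc, sg_sq, mul_one, sg_swap hj hr, neg_smul, smul_neg,
      neg_neg] at h3
    rw [← h3]; ring
  rw [Finset.sum_congr rfl hterm, Finset.sum_add_distrib, hdouble, zero_add]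
  have h5 : ∑ j ∈ J, (sg r J * sg j (insert r J)) • c j =
      sg r J • ∑ j ∈ J, sg j (insert r J) • c j := by
    rw [Finset.smul_sum]
    exact Finset.sum_congr rfl fun j _ => by rw [smul_smul]
  have h6 : ∑ j ∈ J, sg j (insert r J) • c j = - (sg r J • G) := by
    rw [eq_neg_iff_add_eq_zero, add_comm]; exact h2
  rw [h5, h6, smul_neg, smul_smul, sg_sq, one_smul]

section

variable {E : Type} [NormedAddCommGroup E] [NormedSpace ℝ E] [FiniteDimensional ℝ E]
  [MeasurableSpace E] [BorelSpace E] {μ : Measure E} [μ.IsAddHaarMeasure]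
  {Ω U : Set E} {D : Dir E} {d : ℕ} {b : Module.Basis (Fin d) ℝ E} {r r1 : Fin d}
  {f : Finset (Fin d) → E → ℂ}

lemma deriv_comm {φ : E → ℝ} (h : ContDiff ℝ ((⊤ : ℕ∞) : WithTop ℕ∞) φ) (v w x : E) :
    fderiv ℝ (fun y => fderiv ℝ φ y v) x w = fderiv ℝ (fun y => fderiv ℝ φ y w) x v := by
  have h1 : ContDiff ℝ ((⊤ : ℕ∞) : WithTop ℕ∞) (fderiv ℝ φ) := h.fderiv_right (by simp)
  have h2 : DifferentiableAt ℝ (fderiv ℝ φ) x := (h1.differentiable (by simp)) x
  have h3 : ∀ v : E, HasFDerivAt (fun y => fderiv ℝ φ y v)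
      ((fderiv ℝ (fderiv ℝ φ) x).flip v) x := by
    intro v
    have := h2.hasFDerivAt.clm_apply (hasFDerivAt_const v x)
    simpa using this
  rw [(h3 v).fderiv, (h3 w).fderiv]
  have hs : IsSymmSndFDerivAt ℝ φ x :=
    (h.contDiffAt).isSymmSndFDerivAt (by
      rw [minSmoothness_of_isRCLikeNormedField]; exact WithTop.coe_le_coe.2 (le_top : (2 : ℕ∞) ≤ ⊤))
  simp only [ContinuousLinearMap.flip_apply]
  exact hs.eq w v

lemma step_sing (hD : D.Of b r) (hU : D.Box U) (hne : r ≠ r1) (hΩ : IsOpen Ω) (hΩU : Ω ⊆ U)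
    {η : ℝ} (hη : D.q < η) (hηβ : η ≤ D.β) (hV : U ∩ {x | D.c x < η} ⊆ Ω)
    (h0 : ∀ J, ∀ x, x ∉ Ω → f J x = 0) (hloc : ∀ J, Loc μ Ω (f J))
    (hg : ∀ J, r ∈ J ∨ r1 ∈ J → Good μ U (f J))
    (hs : ∀ J, Good μ U ({x | D.c x ≤ D.q}.indicator (f J))) (hcl : Cl μ b Ω f)
    (ext : ∀ K : Finset (Fin d), (∀ j ∈ K, Good μ U (f (K.erase j))) → ∀ φ, IsTest U φ →
      ∑ j ∈ K, sg j K • ∫ x, fderiv ℝ φ x (b j) • f (K.erase j) x ∂μ = 0)
    (hseg : ∀ x ∈ Ω, ∃ s t : ℝ, D.c (x + (s • b r + t • b r1)) < η ∧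
      ∀ τ ∈ Icc (0:ℝ) 1, x + τ • (s • b r + t • b r1) ∈ Ω) :
    (∀ J, Good μ U (kap D U r f J)) ∧ (∀ J, Good μ U (pro D U r f J)) ∧
      Cl μ b U (pro D U r f) ∧
      Dw μ b Ω (kap D U r f) (fun J x => f J x - pro D U r f J x) := by
  have h0U : ∀ J, ∀ x, x ∉ U → f J x = 0 := fun J x hx => h0 J x (fun h => hx (hΩU h))
  have hstrip : U ∩ {x | D.c x ≤ D.q} ⊆ Ω := fun x hx => hV ⟨hx.1, lt_of_le_of_lt hx.2 hη⟩
  have hκ := kap_good hU (r := r) fun J hJ => hg J (Or.inl hJ)
  have hp := pro_good hU (r := r) hs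
  have hpcl := pro_cl hD hU hstrip h0U hs hcl
  refine ⟨hκ, hp, hpcl, ?_⟩
  -- case B
  have caseB : ∀ J : Finset (Fin d), r ∉ J → r1 ∈ J → ∀ φ, IsTest Ω φ →
      ∑ j ∈ J, sg j J • ∫ x, fderiv ℝ φ x (b j) • kap D U r f (J.erase j) x ∂μ =
        - ∫ x, φ x • (f J x - pro D U r f J x) ∂μ := by
    intro J hr hr1 φ hφ
    refine step_notMem hD hU hr (fun j _ => hg _ (Or.inl (Finset.mem_insert_self _ _)))
      (h0U J) (hloc J) hΩU (hs J) hφ (ext _ (fun j hj => hg _ ?_) _
        (Dir.T_test hU (hφ.mono hΩU)))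
    by_cases hj' : j = r
    · right
      rw [hj', Finset.erase_insert hr]
      exact hr1
    · left
      exact Finset.mem_erase.2 ⟨Ne.symm hj', Finset.mem_insert_self _ _⟩
  intro J φ hφ
  by_cases hr : r ∈ J
  · exact step_mem hD hU hr (hg J (Or.inl hr)) (hφ.mono hΩU)
  by_cases hr1 : r1 ∈ J
  · exact caseB J hr hr1 φ hφ
  -- case C
  set Θ : (E → ℝ) → ℂ := fun ψ =>
    ∑ j ∈ J, sg j J • ∫ x, fderiv ℝ ψ x (b j) • kap D U r f (J.erase j) x ∂μ +
      ∫ x, ψ x • (f J x - pro D U r f J x) ∂μ with hΘ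
  have hgi : ∀ (J : Finset (Fin d)) ψ, IsTest Ω ψ →
      Integrable (fun x => ψ x • (f J x - pro D U r f J x)) μ := by
    intro J ψ hψ
    simp only [smul_sub]
    exact ((hloc J).int hψ).sub (((hp J).loc Ω).int hψ)
  have hki : ∀ (j : Fin d) (J : Finset (Fin d)) ψ, IsTest Ω ψ →
      Integrable (fun x => fderiv ℝ ψ x (b j) • kap D U r f J x) μ := fun j J ψ hψ =>
    ((hκ J).loc Ω).int (hψ.deriv (b j))
  have hzero : Θ φ = 0 := by
    refine vanish (V := U ∩ {x | D.c x < η}) (e0 := b r) (e1 := b r1) hΩ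
      (hU.op.inter (isOpen_lt D.c.continuous continuous_const)) ?_ ?_ ?_ ?_ ?_ ?_ hφ
    · -- additivity
      intro ψ1 ψ2 h1 h2
      simp only [hΘ]
      have e1 : ∀ j ∈ J, sg j J • ∫ x, fderiv ℝ (fun x => ψ1 x + ψ2 x) x (b j) •
          kap D U r f (J.erase j) x ∂μ =
          sg j J • ∫ x, fderiv ℝ ψ1 x (b j) • kap D U r f (J.erase j) x ∂μ +
          sg j J • ∫ x, fderiv ℝ ψ2 x (b j) • kap D U r f (J.erase j) x ∂μ := by
        intro j _
        rw [← smul_add, ← integral_add (hki j _ ψ1 h1) (hki j _ ψ2 h2)]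
        congr 2
        funext x
        have d1 : DifferentiableAt ℝ ψ1 x := (h1.smooth.differentiable (by simp)) x
        have d2 : DifferentiableAt ℝ ψ2 x := (h2.smooth.differentiable (by simp)) x
        rw [fderiv_fun_add d1 d2, add_apply, add_smul]
      rw [Finset.sum_congr rfl e1, Finset.sum_add_distrib]
      have e2 : ∫ x, (ψ1 x + ψ2 x) • (f J x - pro D U r f J x) ∂μ =
          ∫ x, ψ1 x • (f J x - pro D U r f J x) ∂μ +
          ∫ x, ψ2 x • (f J x - pro D U r f J x) ∂μ := by
        rw [← integral_add (hgi J ψ1 h1) (hgi J ψ2 h2)]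
        congr 1
        funext x
        rw [add_smul]
      rw [e2]; ring
    · -- homogeneity
      intro c ψ h1
      simp only [hΘ, smul_add, Finset.smul_sum]
      congr 1
      · refine Finset.sum_congr rfl fun j _ => ?_
        have e1 : ∫ x, fderiv ℝ (fun x => c * ψ x) x (b j) • kap D U r f (J.erase j) x ∂μ =
            c • ∫ x, fderiv ℝ ψ x (b j) • kap D U r f (J.erase j) x ∂μ := by
          rw [← integral_smul]
          congr 1
          funext x
          have d1 : DifferentiableAt ℝ ψ x := (h1.smooth.differentiable (by simp)) x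
          rw [fderiv_const_mul d1, smul_apply, smul_eq_mul, mul_smul]
        rw [e1, smul_comm c]
      · rw [← integral_smul]
        congr 1
        funext x
        rw [mul_smul]
    · -- derivative in direction r
      intro ψ hψ
      simp only [hΘ]
      rw [add_eq_zero_iff_eq_neg]
      have hψr := hψ.deriv (b r)
      refine step_notMem hD hU hr (fun j _ => hg _ (Or.inl (Finset.mem_insert_self _ _)))
        (h0U J) (hloc J) hΩU (hs J) hψr ?_
      have h1 := hcl (insert r J) ψ hψ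
      have h2 : ∀ j ∈ insert r J, sg j (insert r J) • ∫ x, fderiv ℝ
          (D.T fun y => fderiv ℝ ψ y (b r)) x (b j) • f ((insert r J).erase j) x ∂μ =
          - (sg j (insert r J) • ∫ x, fderiv ℝ ψ x (b j) • f ((insert r J).erase j) x ∂μ) := by
        intro j _
        rw [← smul_neg, ← integral_neg]
        congr 1
        refine integral_congr_ae (Eventually.of_forall fun x => ?_)
        simp only
        by_cases hx : x ∈ U
        · have h3 : (D.T fun y => fderiv ℝ ψ y (b r)) =ᶠ[𝓝 x] fun y => -ψ y := by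
            filter_upwards [hU.op.mem_nhds hx] with y hy
            have := Dir.T_dir hU (hψ.mono hΩU) hy
            rw [hD.he] at this
            exact this
          rw [h3.fderiv_eq, fderiv_fun_neg, neg_apply, neg_smul]
        · rw [h0U _ x hx, smul_zero, smul_zero, neg_zero]
      rw [Finset.sum_congr rfl h2, Finset.sum_neg_distrib, h1, neg_zero]
    · -- derivative in direction r1
      intro ψ hψ
      simp only [hΘ]
      rw [add_eq_zero_iff_eq_neg]
      refine sign_alg (r := r1) hr1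
        (fun j => ∫ x, fderiv ℝ (fun y => fderiv ℝ ψ y (b r1)) x (b j) •
          kap D U r f (J.erase j) x ∂μ)
        (fun j => ∫ x, fderiv ℝ ψ x (b j) • (f (insert r1 (J.erase j)) x -
          pro D U r f (insert r1 (J.erase j)) x) ∂μ)
        (fun j l => ∫ x, fderiv ℝ (fun y => fderiv ℝ ψ y (b j)) x (b l) •
          kap D U r f ((insert r1 (J.erase j)).erase l) x ∂μ) _ ?_ ?_ ?_
      · intro j hj l hl hjl
        have e1 : (insert r1 (J.erase j)).erase l = (insert r1 (J.erase l)).erase j := by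
          have n1 : r1 ≠ j := fun h => hr1 (h ▸ hj)
          have n2 : r1 ≠ l := fun h => hr1 (h ▸ hl)
          rw [Finset.erase_insert_of_ne n2, Finset.erase_insert_of_ne n1,
            Finset.erase_right_comm]
        rw [e1]
        congr 1
        funext x
        rw [deriv_comm hψ.smooth (b j) (b l) x]
      · intro j hj
        have n1 : r1 ∉ J.erase j := fun h => hr1 (Finset.mem_of_mem_erase h)
        have n2 : r ∉ insert r1 (J.erase j) := by
          rw [Finset.mem_insert, not_or]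
          exact ⟨hne, fun h => hr (Finset.mem_of_mem_erase h)⟩
        have e1 := caseB (insert r1 (J.erase j)) n2 (Finset.mem_insert_self _ _)
          (fun y => fderiv ℝ ψ y (b j)) (hψ.deriv (b j))
        rw [Finset.sum_insert n1, sg_insert n1, Finset.erase_insert n1] at e1
        rw [← e1]
        congr 3
        funext x
        rw [deriv_comm hψ.smooth (b r1) (b j) x]
      · -- closedness
        have e1 := hcl (insert r1 J) ψ hψ
        have e2 := hpcl (insert r1 J) ψ (hψ.mono hΩU)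
        have e3 : ∀ j ∈ insert r1 J, sg j (insert r1 J) • ∫ x, fderiv ℝ ψ x (b j) •
            (f ((insert r1 J).erase j) x - pro D U r f ((insert r1 J).erase j) x) ∂μ =
            sg j (insert r1 J) • ∫ x, fderiv ℝ ψ x (b j) • f ((insert r1 J).erase j) x ∂μ -
            sg j (insert r1 J) • ∫ x, fderiv ℝ ψ x (b j) •
              pro D U r f ((insert r1 J).erase j) x ∂μ := by
          intro j _
          rw [← smul_sub, ← integral_sub ((hloc _).int (hψ.deriv (b j)))
            (((hp _).loc Ω).int (hψ.deriv (b j)))]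
          simp only [smul_sub]
        have e4 := Finset.sum_congr rfl e3
        rw [Finset.sum_sub_distrib, e1, e2, sub_zero, Finset.sum_insert hr1, sg_insert hr1,
          Finset.erase_insert hr1] at e4
        rw [← e4]
        congr 1
        refine Finset.sum_congr rfl fun j hj => ?_
        have n1 : r1 ≠ j := fun h => hr1 (h ▸ hj)
        rw [Finset.erase_insert_of_ne n1]
    · -- strip
      intro ψ hψ hψV
      simp only [hΘ]
      rw [add_eq_zero_iff_eq_neg]
      refine step_notMem hD hU hr (fun j _ => hg _ (Or.inl (Finset.mem_insert_self _ _)))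
        (h0U J) (hloc J) hΩU (hs J) hψ (hcl _ _ ?_)
      exact (Dir.T_test_strip hU (hψ.mono hΩU) hη hηβ fun x hx => (hψV.sub hx).2).mono hV
    · intro x hx
      obtain ⟨s, t, h1, h2⟩ := hseg x hx
      refine ⟨s, t, ⟨hΩU ?_, h1⟩, h2⟩
      simpa using h2 1 (by simp)
  simp only [hΘ] at hzero
  exact add_eq_zero_iff_eq_neg.1 hzero

end

end L2P
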