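import Pool.Agent.Work.MP_ead3fc_ag.Vanish

/-!
# One step of the reduction, flat case
-/

set_option autoImplicit false
set_option linter.unusedSectionVars false

open MeasureTheory Set Filter Topology
open scoped ENNReal Interval

namespace L2P

section

variable {E : Type} [NormedAddCommGroup E] [NormedSpace ℝ E] [FiniteDimensional ℝ E]
  [MeasurableSpace E] [BorelSpace E] {μ : Measure E} [μ.IsAddHaarMeasure]
  {Ω U : Set E} {D : Dir E}

lemma good_zero (μ : Measure E) (U : Set E) : Good μ U (0 : E → ℂ) :=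
  ⟨stronglyMeasurable_const, fun _ _ => rfl, by simp⟩

lemma Good.smul {g : E → ℂ} (h : Good μ U g) (c : ℝ) : Good μ U (fun x => c • g x) := by
  refine ⟨h.meas.const_smul c, fun x hx => by rw [h.zero x hx, smul_zero], ?_⟩
  have h1 : ∀ x, ‖c • g x‖ₑ ^ 2 = ‖c‖ₑ ^ 2 * ‖g x‖ₑ ^ 2 := fun x => by rw [enorm_smul, mul_pow]
  simp only [h1]
  rw [lintegral_const_mul' _ _ (ENNReal.pow_lt_top enorm_lt_top).ne]
  exact ENNReal.mul_lt_top (ENNReal.pow_lt_top enorm_lt_top) h.l2

lemma Dir.strip_meas (D : Dir E) : MeasurableSet {x : E | D.c x ≤ D.q} :=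
  (isClosed_le D.c.continuous continuous_const).measurableSet

lemma Good.indicator {g : E → ℂ} (h : Good μ U g) (D : Dir E) :
    Good μ U ({x | D.c x ≤ D.q}.indicator g) := by
  refine ⟨h.meas.indicator D.strip_meas, fun x hx => ?_, ?_⟩
  · by_cases h' : x ∈ {x | D.c x ≤ D.q}
    · rw [indicator_of_mem h', h.zero x hx]
    · rw [indicator_of_notMem h']
  · refine lt_of_le_of_lt (lintegral_mono fun x => ?_) h.l2
    by_cases h' : x ∈ {x | D.c x ≤ D.q}
    · rw [indicator_of_mem h']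
    · rw [indicator_of_notMem h']; simp

lemma Dir.adj_P' (hU : D.Box U) {g : E → ℂ}
    (hg : Good μ U ({x | D.c x ≤ D.q}.indicator g)) {φ : E → ℝ}
    (hφ : IsTest U φ) : ∫ x, φ x • D.P U g x ∂μ = ∫ x, D.S φ x • g x ∂μ := by
  rw [D.P_strip U g, Dir.adj_P hg.meas (hg.integrable hU) hφ.smooth.continuous hφ.cpt
    (fun x hx => zero_of_notMem hφ hx)]
  exact integral_congr_ae (Eventually.of_forall fun x => (D.S_strip φ g x).symm)

lemma Dir.P_good' (hU : D.Box U) {g : E → ℂ}
    (hg : Good μ U ({x | D.c x ≤ D.q}.indicator g)) : Good μ U (D.P U g) := by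
  rw [D.P_strip U g]
  exact Dir.P_good hU.op.measurableSet hg.meas hg.l2

lemma Dir.S_int {g : E → ℂ} (hg : Good μ U ({x | D.c x ≤ D.q}.indicator g)) {φ : E → ℝ}
    (hφ : IsTest U φ) (hU : D.Box U) : Integrable (fun x => D.S φ x • g x) μ := by
  have h1 : Integrable (fun x => D.S φ x • ({x | D.c x ≤ D.q}.indicator g) x) μ :=
    (hg.loc U).int ((Dir.S_test hU hφ).mono inter_subset_left)
  exact h1.congr (Eventually.of_forall fun x => (D.S_strip φ g x).symm)

variable {d : ℕ} {b : Module.Basis (Fin d) ℝ E} {r : Fin d} {f : Finset (Fin d) → E → ℂ}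

lemma kap_good (hU : D.Box U) (hf : ∀ J, r ∈ J → Good μ U (f J)) (J : Finset (Fin d)) :
    Good μ U (kap D U r f J) := by
  unfold kap
  split_ifs
  · exact good_zero μ U
  · have h := hf (insert r J) (Finset.mem_insert_self _ _)
    exact (Dir.K_good hU.op.measurableSet h.meas h.l2).smul _

lemma pro_good (hU : D.Box U) (hs : ∀ J, Good μ U ({x | D.c x ≤ D.q}.indicator (f J)))
    (J : Finset (Fin d)) : Good μ U (pro D U r f J) := by
  unfold pro
  split_ifs
  · exact good_zero μ U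
  · exact Dir.P_good' hU (hs J)

lemma pro_cl (hD : D.Of b r) (hU : D.Box U) (hΩ : U ∩ {x | D.c x ≤ D.q} ⊆ Ω)
    (h0 : ∀ J, ∀ x, x ∉ U → f J x = 0)
    (hs : ∀ J, Good μ U ({x | D.c x ≤ D.q}.indicator (f J)))
    (hcl : Cl μ b Ω f) : Cl μ b U (pro D U r f) := by
  intro K φ hφ
  by_cases hr : r ∈ K
  · rw [Finset.sum_eq_single_of_mem r hr]
    · have h1 : pro D U r f (K.erase r) = D.P U (f (K.erase r)) := by
        unfold pro
        rw [if_neg (Finset.notMem_erase r K)]
      rw [h1, Dir.adj_P' hU (hs _) (hφ.deriv (b r))]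
      have h2 : ∫ x, D.S (fun y => fderiv ℝ φ y (b r)) x • f (K.erase r) x ∂μ = 0 := by
        rw [← integral_zero E ℂ (μ := μ)]
        refine integral_congr_ae (Eventually.of_forall fun x => ?_)
        simp only
        by_cases hx : x ∈ U
        · have h3 := Dir.S_dir hU hφ hx
          rw [hD.he] at h3
          rw [h3, zero_smul]
        · rw [h0 _ x hx, smul_zero]
      rw [h2, smul_zero]
    · intro j hj hne
      have h1 : pro D U r f (K.erase j) = 0 := by
        unfold pro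
        rw [if_pos (Finset.mem_erase.2 ⟨hne.symm, hr⟩)]
      rw [h1]
      simp
  · have h1 := hcl K (D.S φ) ((Dir.S_test hU hφ).mono hΩ)
    rw [← h1]
    refine Finset.sum_congr rfl fun j hj => ?_
    have hne : j ≠ r := fun h => hr (h ▸ hj)
    have h2 : pro D U r f (K.erase j) = D.P U (f (K.erase j)) := by
      unfold pro
      rw [if_neg (fun h => hr (Finset.mem_of_mem_erase h))]
    rw [h2, Dir.adj_P' hU (hs _) (hφ.deriv (b j))]
    congr 1
    refine integral_congr_ae (Eventually.of_forall fun x => ?_)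
    simp only
    rw [D.S_fderiv hφ.smooth x (b j) (hD.c_ne hne)]

/-- the homotopy identity at `J` for a test function `φ` -/
lemma step_mem (hD : D.Of b r) (hU : D.Box U) {J : Finset (Fin d)} (hr : r ∈ J)
    (hf : Good μ U (f J)) {φ : E → ℝ} (hφ : IsTest U φ) :
    ∑ j ∈ J, sg j J • ∫ x, fderiv ℝ φ x (b j) • kap D U r f (J.erase j) x ∂μ =
      - ∫ x, φ x • (f J x - pro D U r f J x) ∂μ := by
  rw [hom_mem hD hU hr hf hφ]
  have h1 : pro D U r f J = 0 := by
    unfold pro
    rw [if_pos hr]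
  rw [h1]
  simp

lemma step_notMem (hD : D.Of b r) (hU : D.Box U) {J : Finset (Fin d)} (hr : r ∉ J)
    (hf : ∀ j ∈ J, Good μ U (f (insert r (J.erase j)))) (h0 : ∀ x, x ∉ U → f J x = 0)
    (hloc : Loc μ Ω (f J)) (hΩU : Ω ⊆ U)
    (hs : Good μ U ({x | D.c x ≤ D.q}.indicator (f J))) {φ : E → ℝ} (hφ : IsTest Ω φ)
    (hcl : ∑ j ∈ insert r J, sg j (insert r J) •
      ∫ x, fderiv ℝ (D.T φ) x (b j) • f ((insert r J).erase j) x ∂μ = 0) :
    ∑ j ∈ J, sg j J • ∫ x, fderiv ℝ φ x (b j) • kap D U r f (J.erase j) x ∂μ =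
      - ∫ x, φ x • (f J x - pro D U r f J x) ∂μ := by
  have hφU := hφ.mono hΩU
  rw [hom_notMem hD hU hr hf h0 (hloc.int hφ) (Dir.S_int hs hφU hU)
    (Dir.adj_P' hU hs hφU) hφU hcl]
  have h1 : pro D U r f J = D.P U (f J) := by
    unfold pro
    rw [if_neg hr]
  rw [h1]
  have h2 : Integrable (fun x => φ x • D.P U (f J) x) μ :=
    ((Dir.P_good' hU hs).loc U).int hφU
  simp only [smul_sub]
  rw [integral_sub (hloc.int hφ) h2]
  ring

/-- The flat step. -/
lemma step_flat (hD : D.Of b r) (hU : D.Box U) (hf : ∀ J, Good μ U (f J)) (hcl : Cl μ b U f) :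
    (∀ J, Good μ U (kap D U r f J)) ∧ (∀ J, Good μ U (pro D U r f J)) ∧
      Cl μ b U (pro D U r f) ∧
      Dw μ b U (kap D U r f) (fun J x => f J x - pro D U r f J x) := by
  refine ⟨kap_good hU fun J _ => hf J, pro_good hU fun J => (hf J).indicator D,
    pro_cl hD hU inter_subset_left (fun J => (hf J).zero) (fun J => (hf J).indicator D) hcl, ?_⟩
  intro J φ hφ
  by_cases hr : r ∈ J
  · exact step_mem hD hU hr (hf J) hφ
  · exact step_notMem hD hU hr (fun j _ => hf _) (hf J).zero ((hf J).loc U) Subset.rfl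
      ((hf J).indicator D) hφ (hcl _ _ (Dir.T_test hU hφ))

end

end L2P
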