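import Pool.Agent.Work.MP_ead3fc_ag.Coord
import Pool.Agent.Work.MP_ead3fc_ag.Hom

/-!
# Weak derivatives of forms and of their coefficients
-/

set_option autoImplicit false
set_option linter.unusedSectionVars false

open MeasureTheory Set Filter Topology
open scoped ENNReal

namespace L2P

section

variable {E : Type} [NormedAddCommGroup E] [NormedSpace ℝ E] [FiniteDimensional ℝ E] {d q : ℕ}

/-- Coefficients as continuous linear maps. -/
noncomputable def coefL (b : Module.Basis (Fin d) ℝ E) (q : ℕ) (J : Finset (Fin d)) :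
    (E [⋀^Fin q]→L[ℝ] ℂ) →L[ℝ] ℂ :=
  if h : J.card = q then
    LinearMap.mkContinuous
      { toFun := fun w => w (fun i => b (J.orderEmbOfFin h i))
        map_add' := fun _ _ => rfl
        map_smul' := fun _ _ => rfl } (∏ i, ‖b (J.orderEmbOfFin h i)‖)
      (fun w => by
        rw [mul_comm]
        exact w.le_opNorm _)
  else 0

lemma coefL_apply (b : Module.Basis (Fin d) ℝ E) (J : Finset (Fin d))
    (w : E [⋀^Fin q]→L[ℝ] ℂ) : coefL b q J w = coef b w J := by
  unfold coefL coef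
  split_ifs with h
  · rfl
  · rfl

lemma coef_zero_form (b : Module.Basis (Fin d) ℝ E) (J : Finset (Fin d)) :
    coef b (0 : E [⋀^Fin q]→L[ℝ] ℂ) J = 0 := by
  rw [← coefL_apply, map_zero]

lemma coef_card (b : Module.Basis (Fin d) ℝ E) {J : Finset (Fin d)} (w : E [⋀^Fin q]→L[ℝ] ℂ)
    (h : J.card ≠ q) : coef b w J = 0 := by
  unfold coef
  rw [dif_neg h]

/-- `ℓ ∧ w` as a continuous linear map of `w`. -/
noncomputable def wedgeL (l : E →L[ℝ] ℝ) (q : ℕ) :
    (E [⋀^Fin q]→L[ℝ] ℂ) →L[ℝ] E [⋀^Fin (q + 1)]→L[ℝ] ℂ :=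
  (ContinuousAlternatingMap.alternatizeUncurryFinCLM ℝ E ℂ).comp
    (ContinuousLinearMap.smulRightL ℝ E (E [⋀^Fin q]→L[ℝ] ℂ) l)

lemma wedgeL_apply (l : E →L[ℝ] ℝ) (w : E [⋀^Fin q]→L[ℝ] ℂ) :
    wedgeL l q w = ContinuousAlternatingMap.alternatizeUncurryFin (l.smulRight w) := rfl

lemma wedge_expand (b : Module.Basis (Fin d) ℝ E) (l : E →L[ℝ] ℝ) (w : E [⋀^Fin q]→L[ℝ] ℂ) :
    wedgeL l q w = ∑ j, wedgeL (LinearMap.toContinuousLinearMap (b.coord j)) q (l (b j) • w) := by
  have h1 : ∀ j, wedgeL (LinearMap.toContinuousLinearMap (b.coord j)) q (l (b j) • w) =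
      wedgeL (l (b j) • LinearMap.toContinuousLinearMap (b.coord j)) q w := by
    intro j
    unfold wedgeL
    simp only [ContinuousLinearMap.comp_apply]
    congr 1
    ext v u
    simp
  simp only [h1]
  have h2 : l = ∑ j, l (b j) • LinearMap.toContinuousLinearMap (b.coord j) := by
    ext v
    conv_lhs => rw [← b.sum_repr v, map_sum]
    rw [sum_apply]
    refine Finset.sum_congr rfl fun j _ => ?_
    rw [map_smul]
    simp [mul_comm]
  conv_lhs => rw [h2]
  unfold wedgeL
  simp only [ContinuousLinearMap.comp_apply, map_sum, sum_apply]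

lemma int_sum {G : Type*} [NormedAddCommGroup G] {ι α : Type*} [MeasurableSpace α]
    {μ : Measure α} (s : Finset ι) {f : ι → α → G} (h : ∀ i ∈ s, Integrable (f i) μ) :
    Integrable (fun x => ∑ i ∈ s, f i x) μ := integrable_finsetSum s h

lemma wedge_integrable [MeasurableSpace E] {μ : Measure E} (b : Module.Basis (Fin d) ℝ E)
    {η : E → E [⋀^Fin q]→L[ℝ] ℂ} {l : E → E →L[ℝ] ℝ}
    (h : ∀ j, Integrable (fun x => l x (b j) • η x) μ) :
    Integrable (fun x => ContinuousAlternatingMap.alternatizeUncurryFin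
      ((l x).smulRight (η x))) μ := by
  have h1 : (fun x => ContinuousAlternatingMap.alternatizeUncurryFin ((l x).smulRight (η x))) =
      fun x => ∑ j, wedgeL (LinearMap.toContinuousLinearMap (b.coord j)) q (l x (b j) • η x) := by
    funext x
    exact (wedgeL_apply (l x) (η x)).symm.trans (wedge_expand b (l x) (η x))
  rw [h1]
  have h2 : ∀ j ∈ (Finset.univ : Finset (Fin d)), Integrable (fun x =>
      wedgeL (LinearMap.toContinuousLinearMap (b.coord j)) q (l x (b j) • η x)) μ := fun j _ =>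
    (wedgeL (LinearMap.toContinuousLinearMap (b.coord j)) q).integrable_comp (h j)
  exact int_sum Finset.univ h2

end

section

variable {n k : ℕ} {Ω : Set (Fin n → ℂ)}

/-- Locally integrable against test functions. -/
def LI (Ω : Set (Fin n → ℂ)) (η : Form n k) : Prop :=
  ∀ φ : (Fin n → ℂ) → ℝ, IsTest Ω φ → Integrable (fun x => φ x • η x)

lemma LI.wedge {η : Form n k} (h : LI Ω η) {φ : (Fin n → ℂ) → ℝ} (hφ : IsTest Ω φ) :
    Integrable (fun x => ContinuousAlternatingMap.alternatizeUncurryFin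
      ((fderiv ℝ φ x).smulRight (η x))) := by
  exact wedge_integrable (rb n) fun j => h _ (hφ.deriv (rb n j))

lemma LI.coef {η : Form n k} (h : LI Ω η) {φ : (Fin n → ℂ) → ℝ} (hφ : IsTest Ω φ)
    (J : Finset (Fin (n * 2))) : Integrable (fun x => φ x • coef (rb n) (η x) J) := by
  have h1 := (coefL (rb n) k J).integrable_comp (h φ hφ)
  refine h1.congr (Eventually.of_forall fun x => ?_)
  simp only
  rw [map_smul, coefL_apply]

lemma coef_ext {w w' : (Fin n → ℂ) [⋀^Fin k]→L[ℝ] ℂ}
    (h : ∀ J : Finset (Fin (n * 2)), J.card = k → coef (rb n) w J = coef (rb n) w' J) :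
    w = w' := by
  refine (alt (Fin n → ℂ) (n * 2) k (rb n)).2.1 w w' fun J => ?_
  by_cases hJ : J.card = k
  · exact h J hJ
  · rw [coef_card _ _ hJ, coef_card _ _ hJ]

lemma weakD_iff {η : Form n k} {ω : Form n (k + 1)} (hη : LI Ω η) (hω : LI Ω ω) :
    WeakD Ω η ω ↔ ∀ (J : Finset (Fin (n * 2))), J.card = k + 1 →
      ∀ φ : (Fin n → ℂ) → ℝ, IsTest Ω φ →
      ∑ j ∈ J, sg j J • ∫ x, fderiv ℝ φ x (rb n j) • coef (rb n) (η x) (J.erase j) =
        - ∫ x, φ x • coef (rb n) (ω x) J := by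
  have key : ∀ (J : Finset (Fin (n * 2))), J.card = k + 1 → ∀ φ : (Fin n → ℂ) → ℝ, IsTest Ω φ →
      coef (rb n) (∫ x, (φ x • ω x + ContinuousAlternatingMap.alternatizeUncurryFin
        ((fderiv ℝ φ x).smulRight (η x)))) J =
      (∫ x, φ x • coef (rb n) (ω x) J) +
        ∑ j ∈ J, sg j J • ∫ x, fderiv ℝ φ x (rb n j) • coef (rb n) (η x) (J.erase j) := by
    intro J hJ φ hφ
    rw [← coefL_apply, ← ContinuousLinearMap.integral_comp_comm _ ((hω φ hφ).add (hη.wedge hφ))]
    have h1 : ∀ x, coefL (rb n) (k + 1) J (φ x • ω x +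
        ContinuousAlternatingMap.alternatizeUncurryFin ((fderiv ℝ φ x).smulRight (η x))) =
        φ x • coef (rb n) (ω x) J +
        ∑ j ∈ J, sg j J • (fderiv ℝ φ x (rb n j) • coef (rb n) (η x) (J.erase j)) := by
      intro x
      rw [map_add, map_smul, coefL_apply, coefL_apply,
        (alt (Fin n → ℂ) (n * 2) k (rb n)).1 _ _ J hJ]
      simp only [mul_smul]
    simp only [h1]
    have hi : ∀ j ∈ J, Integrable (fun x => sg j J • (fderiv ℝ φ x (rb n j) •
        coef (rb n) (η x) (J.erase j))) := fun j _ =>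
      (hη.coef (hφ.deriv (rb n j)) (J.erase j)).smul (sg j J)
    rw [integral_add (hω.coef hφ J) (integrable_finsetSum _ hi), integral_finsetSum _ hi]
    congr 1
    exact Finset.sum_congr rfl fun j _ => integral_smul _ _
  constructor
  · intro h J hJ φ hφ
    have h1 := key J hJ φ hφ
    rw [h φ hφ, coef_zero_form] at h1
    rw [eq_neg_iff_add_eq_zero, add_comm]
    exact h1.symm
  · intro h φ hφ
    refine coef_ext fun J hJ => ?_
    rw [key J hJ φ hφ, h J hJ φ hφ, coef_zero_form, add_neg_cancel]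

/-- Forms with given measurable coefficients. -/
lemma li_mk {mk : (Finset (Fin (n * 2)) → ℂ) →L[ℝ] (Fin n → ℂ) [⋀^Fin k]→L[ℝ] ℂ}
    {κ : Finset (Fin (n * 2)) → (Fin n → ℂ) → ℂ} (h : ∀ J, Loc volume Ω (κ J)) :
    LI Ω (fun x => mk fun J => κ J x) := by
  intro φ hφ
  have h1 : Integrable (fun x => φ x • fun J => κ J x) := by
    refine Integrable.of_eval fun J => ?_
    exact (h J).int hφ
  have h2 := mk.integrable_comp h1
  refine h2.congr (Eventually.of_forall fun x => ?_)
  simp only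
  rw [map_smul]

end

end L2P
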