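import Pool.Agent.Work.MP_ead3fc_ag.Hom

/-!
# Vanishing of a functional on test functions by translation
-/

set_option autoImplicit false
set_option linter.unusedSectionVars false

open MeasureTheory Set Filter Topology
open scoped ENNReal Interval Manifold

namespace L2P

section

variable {E : Type} [NormedAddCommGroup E] [NormedSpace ℝ E] [FiniteDimensional ℝ E]
  {Ω V : Set E} {Θ : (E → ℝ) → ℂ} {e0 e1 : E}

lemma IsTest.smul' {φ : E → ℝ} (h : IsTest Ω φ) {g : E → ℝ}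
    (hg : ContDiff ℝ ((⊤ : ℕ∞) : WithTop ℕ∞) g) : IsTest (Ω ∩ tsupport g) (fun x => g x * φ x) :=
  ⟨hg.mul h.smooth, h.cpt.mul_left, fun x hx => ⟨h.sub (tsupport_mul_subset_right hx),
    tsupport_mul_subset_left hx⟩⟩

lemma IsTest.inter {Ω' : Set E} {φ : E → ℝ} (h : IsTest Ω φ) (h' : IsTest Ω' φ) :
    IsTest (Ω ∩ Ω') φ := ⟨h.smooth, h.cpt, subset_inter h.sub h'.sub⟩

lemma IsTest.add {φ ψ : E → ℝ} (h : IsTest Ω φ) (h' : IsTest Ω ψ) :
    IsTest Ω (fun x => φ x + ψ x) :=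
  ⟨h.smooth.add h'.smooth, h.cpt.add h'.cpt, (tsupport_add φ ψ).trans (union_subset h.sub h'.sub)⟩

lemma IsTest.smul {φ : E → ℝ} (h : IsTest Ω φ) (c : ℝ) : IsTest Ω (fun x => c * φ x) :=
  (h.smul' (g := fun _ => c) contDiff_const).mono inter_subset_left

lemma isTest_zero (Ω : Set E) : IsTest Ω (fun _ => (0:ℝ)) := by
  have h : tsupport (fun _ : E => (0:ℝ)) = ∅ := by
    rw [tsupport_eq_empty_iff]; rfl
  refine ⟨contDiff_const, ?_, ?_⟩
  · unfold HasCompactSupport; rw [h]; exact isCompact_empty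
  · rw [h]; exact empty_subset _

/-- local step -/
lemma vanish_local (hΩ : IsOpen Ω) (hV : IsOpen V)
    (add : ∀ φ ψ, IsTest Ω φ → IsTest Ω ψ → Θ (fun x => φ x + ψ x) = Θ φ + Θ ψ)
    (smul : ∀ (c : ℝ) φ, IsTest Ω φ → Θ (fun x => c * φ x) = c • Θ φ)
    (h0 : ∀ ψ, IsTest Ω ψ → Θ (fun x => fderiv ℝ ψ x e0) = 0)
    (h1 : ∀ ψ, IsTest Ω ψ → Θ (fun x => fderiv ℝ ψ x e1) = 0)
    (hΘV : ∀ ψ, IsTest Ω ψ → IsTest V ψ → Θ ψ = 0) {x : E} {s t : ℝ}
    (hx : x + (s • e0 + t • e1) ∈ V)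
    (hseg : ∀ τ ∈ Icc (0:ℝ) 1, x + τ • (s • e0 + t • e1) ∈ Ω) :
    ∃ ε : ℝ, 0 < ε ∧ ∀ φ, IsTest Ω φ → IsTest (Metric.ball x ε) φ → Θ φ = 0 := by
  set v : E := s • e0 + t • e1 with hv
  have hS : IsCompact ((fun τ : ℝ => x + τ • v) '' Icc 0 1) :=
    isCompact_Icc.image (by fun_prop)
  obtain ⟨ε1, hε1, hsub⟩ := hS.exists_thickening_subset_open hΩ (by
    rintro _ ⟨τ, hτ, rfl⟩
    exact hseg τ hτ)
  obtain ⟨ε2, hε2, hsub2⟩ := Metric.isOpen_iff.1 hV _ hx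
  refine ⟨min ε1 ε2, lt_min hε1 hε2, fun φ hφ hφb => ?_⟩
  have hball : ∀ y ∈ tsupport φ, ∀ τ ∈ Icc (0:ℝ) 1, y + τ • v ∈ Ω := by
    intro y hy τ hτ
    apply hsub
    rw [Metric.mem_thickening_iff]
    refine ⟨x + τ • v, ⟨τ, hτ, rfl⟩, ?_⟩
    rw [dist_add_right]
    exact lt_of_lt_of_le (Metric.mem_ball.1 (hφb.sub hy)) (min_le_left _ _)
  -- the averaged function
  set Ψ : E → ℝ := avg 0 1 (-v) φ with hΨ
  have hΨt : IsTest Ω Ψ := by
    have hC : IsCompact ((fun z : E × ℝ => z.1 + z.2 • v) '' (tsupport φ ×ˢ Icc (0:ℝ) 1)) :=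
      (IsCompact.prod hφ.cpt isCompact_Icc).image (by fun_prop)
    obtain ⟨h2, h3⟩ := tsupport_subset_of_compact hC (ψ := Ψ) (fun y hy => by
      obtain ⟨σ, hσ, hh⟩ := exists_of_avg_ne hy
      rw [uIcc_of_le zero_le_one] at hσ
      exact ⟨(y + σ • (-v), σ), ⟨hh, hσ⟩, by simp⟩)
    refine ⟨avg_contDiff _ _ _ hφ.smooth, h2, fun y hy => ?_⟩
    obtain ⟨⟨z, τ⟩, ⟨hz, hτ⟩, rfl⟩ := h3 hy
    exact hball z hz τ hτ
  have hder : ∀ y, fderiv ℝ Ψ y v = φ y - φ (y - v) := by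
    intro y
    have h2 := avg_dir 0 1 (-v) hφ.smooth y
    have h3 : (fun z => fderiv ℝ φ z (-v)) = fun z => -(fderiv ℝ φ z v) := by
      funext z; rw [map_neg]
    rw [h3] at h2
    have h4 : avg 0 1 (-v) (fun z => -(fderiv ℝ φ z v)) y =
        - avg 0 1 (-v) (fun z => fderiv ℝ φ z v) y := by
      unfold avg
      rw [intervalIntegral.integral_neg]
    rw [h4] at h2
    rw [hΨ, avg_fderiv _ _ _ hφ.smooth]
    simp only [one_smul, zero_smul, add_zero, ← sub_eq_add_neg] at h2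
    linarith
  -- the translated function
  have htr : IsTest Ω (fun y => φ (y - v)) ∧ IsTest V (fun y => φ (y - v)) := by
    have hC : IsCompact ((fun z : E => z + v) '' tsupport φ) :=
      IsCompact.image hφ.cpt (by fun_prop)
    obtain ⟨h2, h3⟩ := tsupport_subset_of_compact hC (ψ := fun y => φ (y - v)) (fun y hy =>
      ⟨y - v, subset_tsupport _ hy, by simp⟩)
    have hsm : ContDiff ℝ ((⊤ : ℕ∞) : WithTop ℕ∞) (fun y => φ (y - v)) :=
      hφ.smooth.comp (contDiff_id.sub contDiff_const)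
    refine ⟨⟨hsm, h2, fun y hy => ?_⟩, ⟨hsm, h2, fun y hy => ?_⟩⟩
    · obtain ⟨z, hz, rfl⟩ := h3 hy
      simpa using hball z hz 1 (by simp)
    · obtain ⟨z, hz, rfl⟩ := h3 hy
      apply hsub2
      rw [Metric.mem_ball]
      simp only
      rw [dist_add_right]
      exact lt_of_lt_of_le (Metric.mem_ball.1 (hφb.sub hz)) (min_le_right _ _)
  have hd0 : IsTest Ω (fun y => fderiv ℝ Ψ y e0) := hΨt.deriv e0
  have hd1 : IsTest Ω (fun y => fderiv ℝ Ψ y e1) := hΨt.deriv e1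
  have hsum : φ = fun y => (s * fderiv ℝ Ψ y e0 + t * fderiv ℝ Ψ y e1) + φ (y - v) := by
    funext y
    have h2 := hder y
    rw [hv, map_add, map_smul, map_smul, smul_eq_mul, smul_eq_mul, ← hv] at h2
    linarith
  rw [hsum, add _ _ ((hd0.smul s).add (hd1.smul t)) htr.1, add _ _ (hd0.smul s) (hd1.smul t),
    smul _ _ hd0, smul _ _ hd1, h0 _ hΨt, h1 _ hΨt, hΘV _ htr.1 htr.2]
  simp

lemma vanish_sum {ι : Type} (I : Finset ι) (g : ι → E → ℝ)
    (add : ∀ φ ψ, IsTest Ω φ → IsTest Ω ψ → Θ (fun x => φ x + ψ x) = Θ φ + Θ ψ)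
    (smul : ∀ (c : ℝ) φ, IsTest Ω φ → Θ (fun x => c * φ x) = c • Θ φ)
    (hg : ∀ i ∈ I, IsTest Ω (g i)) :
    IsTest Ω (fun x => ∑ i ∈ I, g i x) ∧ Θ (fun x => ∑ i ∈ I, g i x) = ∑ i ∈ I, Θ (g i) := by
  classical
  induction I using Finset.induction_on with
  | empty =>
    simp only [Finset.sum_empty]
    refine ⟨isTest_zero Ω, ?_⟩
    have := smul 0 _ (isTest_zero (E := E) Ω)
    simpa using this
  | insert i I hi ih =>
    obtain ⟨h2, h3⟩ := ih fun j hj => hg j (Finset.mem_insert_of_mem hj)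
    have h4 := hg i (Finset.mem_insert_self _ _)
    simp only [Finset.sum_insert hi]
    exact ⟨h4.add h2, by rw [add _ _ h4 h2, h3]⟩

lemma vanish (hΩ : IsOpen Ω) (hV : IsOpen V)
    (add : ∀ φ ψ, IsTest Ω φ → IsTest Ω ψ → Θ (fun x => φ x + ψ x) = Θ φ + Θ ψ)
    (smul : ∀ (c : ℝ) φ, IsTest Ω φ → Θ (fun x => c * φ x) = c • Θ φ)
    (h0 : ∀ ψ, IsTest Ω ψ → Θ (fun x => fderiv ℝ ψ x e0) = 0)
    (h1 : ∀ ψ, IsTest Ω ψ → Θ (fun x => fderiv ℝ ψ x e1) = 0)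
    (hΘV : ∀ ψ, IsTest Ω ψ → IsTest V ψ → Θ ψ = 0)
    (hseg : ∀ x ∈ Ω, ∃ s t : ℝ, x + (s • e0 + t • e1) ∈ V ∧
      ∀ τ ∈ Icc (0:ℝ) 1, x + τ • (s • e0 + t • e1) ∈ Ω)
    {φ : E → ℝ} (hφ : IsTest Ω φ) : Θ φ = 0 := by
  classical
  have hloc : ∀ x : tsupport φ, ∃ ε : ℝ, 0 < ε ∧ ∀ ψ, IsTest Ω ψ →
      IsTest (Metric.ball (x : E) ε) ψ → Θ ψ = 0 := by
    intro x
    obtain ⟨s, t, h2, h3⟩ := hseg x (hφ.sub x.2)
    exact vanish_local hΩ hV add smul h0 h1 hΘV h2 h3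
  choose ε hε hΘ using hloc
  obtain ⟨f, hf⟩ := SmoothPartitionOfUnity.exists_isSubordinate (M := E) (I := 𝓘(ℝ, E))
    (isClosed_tsupport φ) (fun x : tsupport φ => Metric.ball (x : E) (ε x))
    (fun x => Metric.isOpen_ball) (fun x hx => mem_iUnion.2 ⟨⟨x, hx⟩,
      Metric.mem_ball_self (hε _)⟩)
  have hfin := f.locallyFinite.finite_nonempty_inter_compact hφ.cpt
  set I : Finset (tsupport φ) := hfin.toFinset with hI
  have hsum : φ = fun y => ∑ i ∈ I, f i y * φ y := by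
    funext y
    by_cases hy : y ∈ tsupport φ
    · have h2 := f.sum_eq_one hy
      rw [finsum_eq_sum_of_support_subset (s := I) _ (by
        intro i hi
        rw [hI, Finset.mem_coe, Set.Finite.mem_toFinset]
        exact ⟨y, hi, hy⟩)] at h2
      rw [← Finset.sum_mul, h2, one_mul]
    · rw [image_eq_zero_of_notMem_tsupport hy]; simp
  have hg : ∀ i, IsTest (Ω ∩ tsupport (f i)) (fun y => f i y * φ y) := fun i =>
    hφ.smul' (f i).contMDiff.contDiff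
  rw [hsum, (vanish_sum I (fun i y => f i y * φ y) add smul
    (fun i _ => (hg i).mono inter_subset_left)).2]
  refine Finset.sum_eq_zero fun i _ => ?_
  exact hΘ i _ ((hg i).mono inter_subset_left) ((hg i).mono (inter_subset_right.trans (hf i)))

end

end L2P
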